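import Pool.Agent.Lib.LM.Blue

set_option autoImplicit false

open MeasureTheory Set
open scoped ContDiff Manifold

namespace Pool.Agent.Lib.LM

open Pool.Agent.Lib.MP_f62ea7_gt (IsDomain IsDiff IsCurve)
open Pool.Agent.Lib.ISOC (IsMetric energyG)

theorem main_of (hATL : St_ATL) (hMAN : St_MAN) (hVAL : St_VAL) (hMET : St_MET) (hVOL : St_VOL)
    (hEN : St_EN) (hDICT : St_DICT) (hPATH : St_PATH)
    (h : ∃ (M : Set ℂ) (E F G : ℂ → ℝ), IsDomain M ∧ IsMetric E F G M ∧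
      (∀ z ∈ M, E (-z) = E z ∧ F (-z) = F z ∧ G (-z) = G z) ∧
      ∀ s : ℝ, 2 < s → IsDiff s M (fun z => -z) ∧ (∃ γ, IsCurve s M (fun z => -z) γ) ∧
        ∀ γ, IsCurve s M (fun z => -z) γ →
          ∃ γ', IsCurve s M (fun z => -z) γ' ∧ energyG E F G M γ' < energyG E F G M γ) :
    ∃ (M : Type) (_ : TopologicalSpace M) (_ : ChartedSpace (EuclideanHalfSpace 2) M)
    (_ : IsManifold (𝓡∂ 2) ∞ M) (_ : T2Space M) (_ : CompactSpace M) (_ : ConnectedSpace M)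
    (_ : MeasurableSpace M) (_ : BorelSpace M) (g : RMet M) (μ : Measure M) (φ : M ≃ M),
    IsVol g μ ∧ ContMDiff (𝓡∂ 2) (𝓡∂ 2) ∞ φ ∧
    (∀ x v w, g.inner (φ x) (mfderiv (𝓡∂ 2) (𝓡∂ 2) φ x v) (mfderiv (𝓡∂ 2) (𝓡∂ 2) φ x w) =
      g.inner x v w) ∧
    ∀ s : ℝ, 2 < s → InD s μ φ ∧ (∃ γ, IsPath s μ φ γ) ∧
      ∀ γ, IsPath s μ φ γ → ∃ γ', IsPath s μ φ γ' ∧ energy g μ γ' < energy g μ γ := by
  obtain ⟨M, E, F, G, hD, hM, hs, h⟩ := h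
  obtain ⟨A⟩ := hATL M hD
  obtain ⟨cs, hm, hF⟩ := hMAN M A
  obtain ⟨g, hg⟩ := hMET M A hF E F G hM
  obtain ⟨φ, hφ, -⟩ := (hDICT 3 (by norm_num) M A hF hD.1 _).2 (h 3 (by norm_num)).1
  obtain ⟨h1, h2⟩ := (hVAL M A hF).2.2.2 φ _ contDiff_neg hφ
  refine ⟨M, inferInstance, cs, hm, inferInstance, isCompact_iff_compactSpace.1 hD.1,
    isConnected_iff_connectedSpace.1 hD.2.1, inferInstance, inferInstance, g, _, φ,
    hVOL M A hF hD.1 E F G hM g hg, h1, fun x v w => ?_, fun s hs2 => ?_⟩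
  · have e : ∀ u : ℂ, fderiv ℝ (fun z : ℂ => -z) x u = -u := fun u =>
      congrArg (fun L : ℂ →L[ℝ] ℂ => L u) (hasFDerivAt_id (𝕜 := ℝ) (x : ℂ)).neg.fderiv
    obtain ⟨e1, e2, e3⟩ := hs x x.2
    refine (hg _ _ _).trans (Eq.trans ?_ (hg _ _ _).symm)
    rw [h2, h2, e, e, hφ]
    simp [bf, e1, e2, e3]
  · obtain ⟨k1, ⟨γ0, k2⟩, k3⟩ := h s hs2
    obtain ⟨p1, p2⟩ := hPATH s hs2 M A hF hD.1 _ φ hφ
    obtain ⟨η, hη, hI⟩ := (hDICT s hs2 M A hF hD.1 _).2 k1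
    have e : η = φ := Equiv.ext fun x => Subtype.ext ((hη x).trans (hφ x).symm)
    refine ⟨e ▸ hI, (p2 γ0 k2).imp fun _ k => k.1, fun γ hγ => ?_⟩
    obtain ⟨c, hc, ec⟩ := p1 γ hγ
    obtain ⟨c', hc', lt⟩ := k3 c hc
    obtain ⟨γ', hγ', ec'⟩ := p2 c' hc'
    exact ⟨γ', hγ', by rwa [hEN M A hF hD.1 E F G g hg γ c ec, hEN M A hF hD.1 E F G g hg γ' c' ec']⟩

end Pool.Agent.Lib.LM
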