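import Pool.Agent.Lib.LM.Blue

/-! The algebra property of the Sobolev spaces of the plane. -/

set_option autoImplicit false

open MeasureTheory Set Filter
open scoped FourierTransform ENNReal NNReal Convolution

namespace Pool.Agent.Lib.LM

open Pool.Agent.Lib.MP_f62ea7_gt (L2 bessel)

namespace T38

theorem wt_cont (r : ℝ) : Continuous (wt r) :=
  Continuous.rpow_const (by fun_prop) fun ξ => Or.inl (by positivity)

theorem wt_mul (s : ℝ) (ξ : ℂ) : wt s ξ * wt (-s) ξ = 1 := by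
  unfold wt
  rw [← Real.rpow_add (by positivity)]
  simp [neg_div]

theorem wt_mem {s : ℝ} (hs : 1 < s) : MemLp (wt (-s)) 2 (volume : Measure ℂ) := by
  rw [memLp_two_iff_integrable_sq (wt_cont _).aestronglyMeasurable]
  refine (integrable_rpow_neg_one_add_norm_sq (E := ℂ) (μ := volume) (r := 2 * s)
    (by simp; linarith)).congr (Eventually.of_forall fun ξ => ?_)
  unfold wt
  beta_reduce
  rw [← Real.rpow_mul_natCast (by positivity)]
  congr 1
  push_cast
  ring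

theorem int_a {s : ℝ} (hs : 1 < s) (g : L2) : Integrable fun ξ => wt (-s) ξ • g ξ :=
  memLp_one_iff_integrable.mp (MemLp.smul (Lp.memLp g) (wt_mem hs))

theorem ex {s : ℝ} (hC : St_CONV) (hs : 1 < s) : ∃ C : ℝ≥0, ∀ g g' : L2, ∃ b : L2,
    ‖b‖ ≤ C * ‖g‖ * ‖g'‖ ∧ bessel s b = bessel s g * bessel s g' := by
  obtain ⟨C, hC⟩ := hC s s hs (by linarith) le_rfl
  refine ⟨C, fun g g' => ?_⟩
  have i1 := int_a hs g
  have i2 := int_a hs g'
  have h1 := hC g (fun ξ => wt (-s) ξ • g' ξ) (Lp.aestronglyMeasurable g) i2.1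
  simp only [smul_smul, wt_mul, one_smul] at h1
  have i3 := i1.integrable_convolution (ContinuousLinearMap.mul ℂ ℂ) i2
  have hm : MemLp (fun ξ => wt s ξ • ((fun ξ => wt (-s) ξ • g ξ) ⋆[ContinuousLinearMap.mul ℂ ℂ]
      fun ξ => wt (-s) ξ • g' ξ) ξ) 2 volume :=
    ⟨(wt_cont s).aestronglyMeasurable.smul i3.1, h1.trans_lt (ENNReal.mul_lt_top
      (ENNReal.mul_lt_top ENNReal.coe_lt_top (Lp.eLpNorm_lt_top g)) (Lp.eLpNorm_lt_top g'))⟩
  refine ⟨hm.toLp _, ?_, funext fun z => ?_⟩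
  · rw [Lp.norm_toLp, Lp.norm_def, Lp.norm_def, ← ENNReal.coe_toReal C, ← ENNReal.toReal_mul,
      ← ENNReal.toReal_mul]
    exact ENNReal.toReal_mono (ENNReal.mul_ne_top
      (ENNReal.mul_ne_top ENNReal.coe_ne_top (Lp.eLpNorm_ne_top g)) (Lp.eLpNorm_ne_top g')) h1
  · have e := Real.fourier_mul_convolution_eq i1 i2 (-z)
    rw [← Real.fourierInv_eq_fourier_neg, ← Real.fourierInv_eq_fourier_neg,
      ← Real.fourierInv_eq_fourier_neg] at e
    refine Eq.trans ?_ e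
    show 𝓕⁻ (fun ξ => wt (-s) ξ • hm.toLp _ ξ) z = _
    rw [Real.fourierInv_eq, Real.fourierInv_eq]
    refine integral_congr_ae ?_
    filter_upwards [hm.coeFn_toLp] with ξ hξ
    rw [hξ, smul_smul (wt (-s) ξ), mul_comm, wt_mul, one_smul]

end T38

theorem st_ALG (hC : St_CONV) (hE : St_EV) : St_ALG := by
  intro s hs
  obtain ⟨C, h⟩ := T38.ex hC hs
  obtain ⟨⟨Bs, hB⟩, inj⟩ := hE s hs
  choose b h1 h2 using h
  have ad : ∀ g g' : L2, bessel s (g + g') = bessel s g + bessel s g' := fun g g' =>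
    funext fun z => by simp [← hB]
  have sm : ∀ (c : ℂ) (g : L2), bessel s (c • g) = c • bessel s g := fun c g =>
    funext fun z => by simp [← hB]
  refine ⟨(LinearMap.mk₂ ℂ b (fun x y z => inj _ _ ?_) (fun c x z => inj _ _ ?_)
    (fun x y z => inj _ _ ?_) (fun c x z => inj _ _ ?_)).mkContinuous₂ C h1, h2⟩
  · rw [ad, h2, h2, h2, ad, add_mul]
  · rw [sm, h2, h2, sm, smul_mul_assoc]
  · rw [ad, h2, h2, h2, ad, mul_add]
  · rw [sm, h2, h2, sm, mul_smul_comm]

end Pool.Agent.Lib.LM
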