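import Pool.Agent.Lib.LM.Blue

set_option autoImplicit false

open Set
open scoped ContDiff

namespace Pool.Agent.Lib.LM

open Pool.Agent.Lib.MP_f62ea7_gt (IsDomain)

namespace ATL

theorem loc (f : ℂ → ℂ) (hf : ContDiff ℝ ∞ f) (p : ℂ)
    (hp : ∀ v, fderiv ℝ f p v = 0 → v = 0) (U : Set ℂ) (hU : IsOpen U) (hpU : p ∈ U) :
    ∃ κ : OpenPartialHomeomorph ℂ ℂ, p ∈ κ.source ∧ κ.source ⊆ U ∧ Dif κ ∧ ∀ z, κ z = f z := by
  have hd : ∀ z, HasFDerivAt f (fderiv ℝ f z) z := fun z =>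
    (hf.differentiable (by simp) z).hasFDerivAt
  have hdet : (fderiv ℝ f p).det ≠ 0 := by
    intro h0
    have h1 : LinearMap.ker ((fderiv ℝ f p : ℂ →L[ℝ] ℂ) : ℂ →ₗ[ℝ] ℂ) ≠ ⊥ :=
      LinearMap.det_eq_zero_iff_ker_ne_bot.1 h0
    exact h1 (LinearMap.ker_eq_bot'.2 fun v hv => hp v hv)
  have hV : IsOpen {z : ℂ | (fderiv ℝ f z).det ≠ 0} :=
    isOpen_ne_fun (ContinuousLinearMap.continuous_det.comp (hf.continuous_fderiv (by simp)))
      continuous_const
  have he : ∀ z (hz : (fderiv ℝ f z).det ≠ 0), HasFDerivAt f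
      (((fderiv ℝ f z).toContinuousLinearEquivOfDetNeZero hz : ℂ ≃L[ℝ] ℂ) : ℂ →L[ℝ] ℂ) z := by
    intro z hz
    rw [ContinuousLinearMap.coe_toContinuousLinearEquivOfDetNeZero]
    exact hd z
  let κ₀ : OpenPartialHomeomorph ℂ ℂ :=
    (hf.contDiffAt (x := p)).toOpenPartialHomeomorph f (he p hdet) (by simp)
  have hp0 : p ∈ κ₀.source :=
    (hf.contDiffAt (x := p)).mem_toOpenPartialHomeomorph_source (he p hdet) (by simp)
  let κ : OpenPartialHomeomorph ℂ ℂ :=
    κ₀.restrOpen (U ∩ {z : ℂ | (fderiv ℝ f z).det ≠ 0}) (hU.inter hV)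
  have hsrc : κ.source = κ₀.source ∩ (U ∩ {z : ℂ | (fderiv ℝ f z).det ≠ 0}) := rfl
  have hκ : (κ : ℂ → ℂ) = f := rfl
  refine ⟨κ, ?_, ?_, ⟨?_, ?_⟩, fun z => rfl⟩
  · rw [hsrc]; exact ⟨hp0, hpU, hdet⟩
  · rw [hsrc]; exact fun z hz => hz.2.1
  · rw [hκ]; exact hf.contDiffOn
  · intro y hy
    have hz : κ.symm y ∈ κ.source := κ.map_target hy
    rw [hsrc] at hz
    refine (κ.contDiffAt_symm hy (f₀' := (fderiv ℝ f (κ.symm y)).toContinuousLinearEquivOfDetNeZero
      hz.2.2) ?_ ?_).contDiffWithinAt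
    · rw [hκ]; exact he _ hz.2.2
    · rw [hκ]; exact hf.contDiffAt

theorem chart (h : ℂ → ℝ) (hh : ContDiff ℝ ∞ h) (hr : ∀ z, h z = 0 → fderiv ℝ h z ≠ 0) (p : ℂ)
    (hp : h p ≤ 0) : ∃ κ : OpenPartialHomeomorph ℂ ℂ, p ∈ κ.source ∧ Dif κ ∧
      ∀ z ∈ κ.source, h z ≤ 0 ↔ 0 ≤ (κ z).re := by
  rcases hp.lt_or_eq with hp | hp
  · have hf : ContDiff ℝ ∞ fun z : ℂ => z + (1 - p) := contDiff_id.add contDiff_const
    have hd : HasFDerivAt (fun z : ℂ => z + (1 - p)) (ContinuousLinearMap.id ℝ ℂ) p :=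
      (hasFDerivAt_id p).add_const _
    obtain ⟨κ, h1, h2, h3, h4⟩ := loc _ hf p (fun v hv => by rw [hd.fderiv] at hv; exact hv)
      ({z | h z < 0} ∩ {z | p.re - 1 < z.re})
      ((isOpen_lt hh.continuous continuous_const).inter
        (isOpen_lt continuous_const Complex.continuous_re)) ⟨hp, by simp⟩
    refine ⟨κ, h1, h3, fun z hz => ?_⟩
    have a1 : h z < 0 := (h2 hz).1
    have a2 : p.re - 1 < z.re := (h2 hz).2
    rw [h4]
    simp only [Complex.add_re, Complex.sub_re, Complex.one_re]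
    constructor <;> intro _ <;> linarith
  · set L := fderiv ℝ h p with hL
    have hL0 : L ≠ 0 := hr p hp
    have hdec : ∀ v : ℂ, L v = L 1 * v.re + L Complex.I * v.im := by
      intro v
      have e : v = v.re • (1 : ℂ) + v.im • Complex.I := by
        apply Complex.ext <;> simp
      conv_lhs => rw [e]
      rw [map_add, map_smul, map_smul, smul_eq_mul, smul_eq_mul]
      ring
    let l : ℂ →L[ℝ] ℝ := L 1 • Complex.imCLM - L Complex.I • Complex.reCLM
    have hl : ∀ v : ℂ, l v = L 1 * v.im - L Complex.I * v.re := fun v => by simp [l]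
    let e : ℝ × ℝ →L[ℝ] ℂ := Complex.equivRealProdCLM.symm
    have hg : ContDiff ℝ ∞ fun z : ℂ => (-h z, l z) := hh.neg.prodMk l.contDiff
    have hf : ContDiff ℝ ∞ fun z : ℂ => e (-h z, l z) := e.contDiff.comp hg
    have hd : HasFDerivAt (fun z : ℂ => e (-h z, l z)) (e.comp ((-L).prod l)) p :=
      e.hasFDerivAt.comp p
        (((hh.differentiable (by simp) p).hasFDerivAt.neg).prodMk l.hasFDerivAt)
    obtain ⟨κ, h1, -, h3, h4⟩ := loc _ hf p (fun v hv => by
      rw [hd.fderiv] at hv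
      have hv' : ((-L v, l v) : ℝ × ℝ) = 0 :=
        Complex.equivRealProdCLM.symm.injective (by rw [map_zero]; exact hv)
      have b1 : L 1 * v.re + L Complex.I * v.im = 0 := by
        have := congrArg Prod.fst hv'
        simp only [Prod.fst_zero, neg_eq_zero] at this
        rw [← hdec]; exact this
      have b2 : L 1 * v.im - L Complex.I * v.re = 0 := by
        have := congrArg Prod.snd hv'
        simp only [Prod.snd_zero] at this
        rw [← hl]; exact this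
      have b3 : L 1 ^ 2 + L Complex.I ^ 2 ≠ 0 := by
        intro h0
        have c1 : L 1 = 0 := by nlinarith [sq_nonneg (L 1), sq_nonneg (L Complex.I)]
        have c2 : L Complex.I = 0 := by nlinarith [sq_nonneg (L 1), sq_nonneg (L Complex.I)]
        exact hL0 (ContinuousLinearMap.ext fun w => by rw [hdec w, c1, c2]; simp)
      apply Complex.ext
      · exact mul_left_cancel₀ b3 (by
          rw [Complex.zero_re]; linear_combination L 1 * b1 - L Complex.I * b2)
      · exact mul_left_cancel₀ b3 (by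
          rw [Complex.zero_im]; linear_combination L Complex.I * b1 + L 1 * b2))
      univ isOpen_univ (mem_univ _)
    refine ⟨κ, h1, h3, fun z _ => ?_⟩
    rw [h4]
    have : (e (-h z, l z)).re = -h z := by simp [e, Complex.equivRealProdCLM_symm_apply]
    rw [this]
    exact neg_nonneg.symm

end ATL

theorem st_ATL : St_ATL := by
  classical
  rintro M ⟨-, hc, h, hh, rfl, hr⟩
  obtain ⟨p₀, hp₀⟩ := hc.nonempty
  choose κ h1 h2 h3 using ATL.chart h hh hr
  refine ⟨⟨fun p => if hp : h p ≤ 0 then κ p hp else κ p₀ hp₀, fun p hp => ?_, fun p => ?_,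
    fun p => ?_⟩⟩
  · have hp' : h p ≤ 0 := hp
    rw [dif_pos hp']
    exact h1 p hp'
  · by_cases hp : h p ≤ 0
    · rw [dif_pos hp]; exact h2 p hp
    · rw [dif_neg hp]; exact h2 p₀ hp₀
  · by_cases hp : h p ≤ 0
    · rw [dif_pos hp]; exact h3 p hp
    · rw [dif_neg hp]; exact h3 p₀ hp₀

end Pool.Agent.Lib.LM
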