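import Pool.Agent.Lib.LM.Blue

/-! Row BL: functions with bounded Fourier support. -/

set_option autoImplicit false

open MeasureTheory Set Filter
open scoped FourierTransform ContDiff ENNReal NNReal Topology SchwartzMap

namespace Pool.Agent.Lib.LM

open Pool.Agent.Lib.MP_f62ea7_gt (L2 bessel)

namespace T47

theorem wt_cont (r : ℝ) : Continuous fun ξ : ℂ => (1 + ‖ξ‖ ^ 2) ^ r :=
  Continuous.rpow_const (by fun_prop) fun ξ => Or.inl (by positivity)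

theorem integ {g : L2} (hg : BL g) {φ : ℂ → ℂ} (hφ : Continuous φ) :
    Integrable fun ξ => φ ξ * g ξ := by
  obtain ⟨R, hR⟩ := hg
  have h1 : IntegrableOn g (Metric.closedBall 0 R) :=
    ((Lp.memLp g).locallyIntegrable (by norm_num)).integrableOn_isCompact
      (isCompact_closedBall _ _)
  refine (IntegrableOn.continuousOn_mul hφ.continuousOn h1
    (isCompact_closedBall _ _)).integrable_of_ae_notMem_eq_zero ?_
  filter_upwards [hR] with ξ h hξ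
  rw [h (by simpa using hξ), mul_zero]

theorem integ0 {g : L2} (hg : BL g) (r : ℝ) :
    Integrable fun ξ : ℂ => ((1 + ‖ξ‖ ^ 2) ^ r : ℝ) • g ξ :=
  integ hg (φ := fun ξ => (((1 + ‖ξ‖ ^ 2) ^ r : ℝ) : ℂ)) (Complex.continuous_ofReal.comp (wt_cont r))

theorem mom {g : L2} (hg : BL g) (r : ℝ) (n : ℕ) :
    Integrable fun ξ : ℂ => ‖ξ‖ ^ n * ‖((1 + ‖ξ‖ ^ 2) ^ r : ℝ) • g ξ‖ := by
  have := (integ hg (φ := fun ξ => ((‖ξ‖ ^ n * (1 + ‖ξ‖ ^ 2) ^ r : ℝ) : ℂ))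
    (Complex.continuous_ofReal.comp ((continuous_norm.pow n).mul (wt_cont r)))).norm
  refine this.congr (Eventually.of_forall fun ξ => ?_)
  simp only [norm_mul, Complex.norm_real, norm_smul, norm_pow, norm_norm, mul_assoc]

theorem bes_eq (s : ℝ) (g : L2) : bessel s g =
    fun z => 𝓕 (fun ξ : ℂ => ((1 + ‖ξ‖ ^ 2) ^ (-s / 2) : ℝ) • g ξ) (-z) :=
  funext fun z => Real.fourierInv_eq_fourier_neg _ z

theorem smooth {g : L2} (hg : BL g) (s : ℝ) : ContDiff ℝ ∞ (bessel s g) := by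
  rw [bes_eq]
  exact (Real.contDiff_fourier (N := ⊤) fun n _ => mom hg _ n).comp contDiff_neg

theorem dense : Dense {g : L2 | BL g} := by
  refine Metric.dense_iff.2 fun f ε hε => ?_
  obtain ⟨g, h1, h2, -, h4⟩ := (Lp.memLp f).exists_hasCompactSupport_eLpNorm_sub_le
    (by norm_num) (ε := ENNReal.ofReal (ε / 2)) (by simpa using hε)
  obtain ⟨R, hR⟩ := h1.isCompact.isBounded.subset_closedBall 0
  refine ⟨h4.toLp g, ?_, R, ?_⟩
  · rw [Metric.mem_ball', Lp.dist_def, eLpNorm_congr_ae (EventuallyEq.rfl.sub h4.coeFn_toLp)]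
    exact (ENNReal.toReal_le_of_le_ofReal (by linarith) h2).trans_lt (by linarith)
  · filter_upwards [h4.coeFn_toLp] with ξ h hξ
    rw [h]
    exact image_eq_zero_of_notMem_tsupport fun c => absurd (hR c) (by simpa using hξ)

theorem sub {g g' : L2} (h : BL g) (h' : BL g') : BL (g - g') := by
  obtain ⟨R, hR⟩ := h
  obtain ⟨R', hR'⟩ := h'
  refine ⟨max R R', ?_⟩
  filter_upwards [hR, hR', Lp.coeFn_sub g g'] with ξ a b c hξ
  rw [c, Pi.sub_apply, a ((le_max_left _ _).trans_lt hξ), b ((le_max_right _ _).trans_lt hξ),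
    sub_zero]

theorem l2 {g : L2} (hg : BL g) : eLpNorm (bessel 0 g) 2 volume ≤ ‖g‖ₑ := by
  have hi := integ0 hg (-0 / 2)
  have key : ∀ᵐ z, bessel 0 g z = (𝓕⁻ g : L2) z := by
    refine ae_eq_of_integral_contDiff_smul_eq (smooth hg 0).continuous.locallyIntegrable
      ((Lp.memLp (𝓕⁻ g : L2)).locallyIntegrable (by norm_num)) fun φ h1 h2 => ?_
    let ψ : 𝓢(ℂ, ℂ) := (h2.comp_left (g := Complex.ofReal) rfl).toSchwartzMap
      (Complex.ofRealCLM.contDiff.comp h1)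
    have e1 : ∫ z, φ z • (𝓕⁻ g : L2) z = ((𝓕⁻ g : L2) : 𝓢'(ℂ, ℂ)) ψ := by
      rw [Lp.toTemperedDistribution_apply]
      rfl
    rw [e1, ← Lp.fourierInv_toTemperedDistribution_eq, TemperedDistribution.fourierInv_apply,
      Lp.toTemperedDistribution_apply]
    have := VectorFourier.integral_fourierIntegral_smul_eq_flip (L := -innerₗ ℂ)
      Real.continuous_fourierChar (by exact continuous_inner.neg) (ψ.integrable (μ := volume)) hi
    have e : (-innerₗ ℂ).flip = -innerₗ ℂ := by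
      ext; simp; ring
    rw [e] at this
    refine Eq.trans this.symm (integral_congr_ae (Eventually.of_forall fun ξ => ?_))
    simp only [SchwartzMap.fourierInv_coe, neg_zero, zero_div, Real.rpow_zero, one_smul]
    rfl
  rw [eLpNorm_congr_ae key, ← Lp.enorm_def, ← ofReal_norm, ← ofReal_norm]
  exact ENNReal.ofReal_le_ofReal ((Lp.fourierTransformₗᵢ ℂ ℂ).symm.norm_map g).le

theorem mult_le (v ξ : ℂ) :
    ‖(2 * Real.pi * Complex.I * ((inner ℝ ξ v * (1 + ‖ξ‖ ^ 2) ^ (-1 / 2 : ℝ) : ℝ) : ℂ))‖ ≤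
      7 * ‖v‖ := by
  have h0 : 0 < 1 + ‖ξ‖ ^ 2 := by positivity
  have h1 : ‖ξ‖ * (1 + ‖ξ‖ ^ 2) ^ (-1 / 2 : ℝ) ≤ 1 := by
    rw [neg_div, Real.rpow_neg h0.le, ← Real.sqrt_eq_rpow]
    refine mul_inv_le_one_of_le₀ (Real.le_sqrt_of_sq_le (by linarith)) (Real.sqrt_nonneg _)
  have h2 : |inner ℝ ξ v| ≤ ‖ξ‖ * ‖v‖ := abs_real_inner_le_norm ξ v
  have h3 : 0 ≤ (1 + ‖ξ‖ ^ 2) ^ (-1 / 2 : ℝ) := by positivity
  have h4 : |inner ℝ ξ v| * (1 + ‖ξ‖ ^ 2) ^ (-1 / 2 : ℝ) ≤ ‖v‖ := by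
    calc _ ≤ ‖ξ‖ * ‖v‖ * (1 + ‖ξ‖ ^ 2) ^ (-1 / 2 : ℝ) := mul_le_mul_of_nonneg_right h2 h3
      _ = ‖ξ‖ * (1 + ‖ξ‖ ^ 2) ^ (-1 / 2 : ℝ) * ‖v‖ := by ring
      _ ≤ _ := mul_le_of_le_one_left (norm_nonneg _) h1
  rw [norm_mul, norm_mul, norm_mul, Complex.norm_I, mul_one, Complex.norm_real, Complex.norm_real,
    Complex.norm_two, Real.norm_eq_abs, Real.norm_eq_abs, abs_of_pos Real.pi_pos, abs_mul,
    abs_of_nonneg h3]
  exact mul_le_mul (by linarith [Real.pi_lt_d2]) h4 (by positivity) (by norm_num)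

theorem deriv {g : L2} (hg : BL g) (s : ℝ) (v : ℂ) : ∃ g' : L2, BL g' ∧ ‖g'‖ ≤ 7 * ‖v‖ * ‖g‖ ∧
    ∀ z, fderiv ℝ (bessel s g) z v = bessel (s - 1) g' z := by
  let m : ℂ → ℂ := fun ξ =>
    2 * Real.pi * Complex.I * ((inner ℝ ξ v * (1 + ‖ξ‖ ^ 2) ^ (-1 / 2 : ℝ) : ℝ) : ℂ)
  have hm : Continuous m := continuous_const.mul (Complex.continuous_ofReal.comp
    ((continuous_id.inner continuous_const).mul (wt_cont _)))
  have hb : ∀ ξ, ‖m ξ * g ξ‖ ≤ 7 * ‖v‖ * ‖g ξ‖ := fun ξ => by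
    rw [norm_mul]
    exact mul_le_mul_of_nonneg_right (mult_le v ξ) (norm_nonneg _)
  have hL : MemLp (fun ξ => m ξ * g ξ) 2 volume := (Lp.memLp g).of_le_mul
    (hm.aestronglyMeasurable.mul (Lp.aestronglyMeasurable g)) (Eventually.of_forall hb)
  refine ⟨hL.toLp _, ?_, Lp.norm_le_mul_norm_of_ae_le_mul ?_, fun z => ?_⟩
  · obtain ⟨R, hR⟩ := hg
    refine ⟨R, ?_⟩
    filter_upwards [hR, hL.coeFn_toLp] with ξ a b hξ
    rw [b, a hξ, mul_zero]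
  · filter_upwards [hL.coeFn_toLp] with ξ b
    rw [b]
    exact hb ξ
  have hi := integ0 hg (-s / 2)
  have h1 : Integrable fun ξ : ℂ => ‖ξ‖ * ‖((1 + ‖ξ‖ ^ 2) ^ (-s / 2) : ℝ) • g ξ‖ := by
    simpa only [pow_one] using mom hg (-s / 2) 1
  have h2 := (Real.hasFDerivAt_fourier hi h1 (-z)).comp z (hasFDerivAt_id z).neg
  have h3 : Integrable (VectorFourier.fourierSMulRight (innerSL ℝ)
      fun ξ : ℂ => ((1 + ‖ξ‖ ^ 2) ^ (-s / 2) : ℝ) • g ξ) := by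
    refine (h1.const_mul (2 * Real.pi * ‖(innerSL ℝ : ℂ →L[ℝ] ℂ →L[ℝ] ℝ)‖)).mono'
      hi.1.fourierSMulRight (Eventually.of_forall fun ξ => ?_)
    exact (VectorFourier.norm_fourierSMulRight_le _ _ ξ).trans_eq (by ring)
  rw [bes_eq s, bes_eq (s - 1)]
  refine (congrArg (fun L : ℂ →L[ℝ] ℂ => L v) h2.fderiv).trans ?_
  simp only [ContinuousLinearMap.comp_apply]
  rw [Real.fourier_continuousLinearMap_apply h3]
  refine Real.fourier_congr_ae ?_ _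
  filter_upwards [hL.coeFn_toLp] with ξ b
  have h0 : 0 < 1 + ‖ξ‖ ^ 2 := by positivity
  have e : (1 + ‖ξ‖ ^ 2) ^ (-s / 2) =
      (1 + ‖ξ‖ ^ 2) ^ (-(s - 1) / 2) * (1 + ‖ξ‖ ^ 2) ^ (-1 / 2 : ℝ) := by
    rw [← Real.rpow_add h0]
    congr 1
    ring
  have e2 : innerSL ℝ ξ ((-ContinuousLinearMap.id ℝ ℂ) v) = -inner ℝ ξ v :=
    inner_neg_right (𝕜 := ℝ) ξ v
  rw [b, VectorFourier.fourierSMulRight_apply, e, e2]
  simp only [m, Complex.real_smul, smul_eq_mul]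
  push_cast
  ring

end T47

theorem st_BL : St_BL :=
  ⟨T47.dense, fun _ _ => T47.sub, fun _ hg => ⟨T47.l2 hg, fun s => ⟨T47.smooth hg s, T47.deriv hg s⟩⟩⟩

end Pool.Agent.Lib.LM
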