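import Pool.Agent.Lib.LM.Blue

set_option autoImplicit false

open MeasureTheory Set Filter
open scoped FourierTransform ContDiff ENNReal NNReal Manifold Topology ComplexConjugate

namespace Pool.Agent.Lib.LM

open Pool.Agent.Lib.MP_f62ea7_gt (L2 bessel)

namespace T80

theorem io_zero (w : ℂ) : io w 0 = w.re := by
  simp [io]

theorem io_one (w : ℂ) : io w 1 = w.im := by
  simp [io]

theorem self_of_ev {X : Type} [TopologicalSpace X] {J : Set ℝ} {t₀ : ℝ} (ht : t₀ ∈ J) {p : X}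
    {P : ℝ × X → Prop} (h : ∀ᶠ q in 𝓝[J] t₀ ×ˢ 𝓝 p, P q) : P (t₀, p) := by
  have h1 : (pure t₀ : Filter ℝ) ×ˢ (pure p : Filter X) ≤ 𝓝[J] t₀ ×ˢ 𝓝 p :=
    Filter.prod_mono (pure_le_nhdsWithin ht) (pure_le_nhds p)
  rw [Filter.prod_pure_pure] at h1
  exact (h.filter_mono h1)

theorem ev_sub {M : Set ℂ} {J : Set ℝ} {t₀ : ℝ} (p : M) {P : ℝ × ℂ → Prop} :
    (∀ᶠ q in 𝓝[J] t₀ ×ˢ 𝓝[M] (p : ℂ), P q) ↔
      ∀ᶠ q in 𝓝[J] t₀ ×ˢ 𝓝 p, P (q.1, (q.2 : ℂ)) := by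
  rw [nhdsWithin_eq_map_subtype_coe p.2, Filter.prod_map_right, Filter.eventually_map]
  rfl

theorem ev_J {X : Type} {J : Set ℝ} {t₀ : ℝ} (F : Filter X) :
    ∀ᶠ q in 𝓝[J] t₀ ×ˢ F, q.1 ∈ J :=
  Filter.Eventually.prod_inl (eventually_mem_nhdsWithin) F

theorem ev_src {M : Set ℂ} (A : Atl M) {J : Set ℝ} {t₀ : ℝ} (p : M) :
    ∀ᶠ q in 𝓝[J] t₀ ×ˢ 𝓝 p, ((q.2 : M) : ℂ) ∈ (A.κ p).source := by
  refine Filter.Eventually.prod_inr (p := fun x : M => (x : ℂ) ∈ (A.κ p).source) ?_ _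
  exact continuous_subtype_val.continuousAt.eventually
    ((A.κ p).open_source.mem_nhds (A.mem p p.2))

end T80

open T80 in
theorem st_C1 (hCHG : St_CHG) (hISO : St_ISO) (hEV : St_EV) : St_C1 := by
  intro s hs M A _ hF J γ γ' hγ
  obtain ⟨⟨T, hT⟩, ⟨T', hT'⟩⟩ := hISO
  obtain ⟨⟨Bs, hBs⟩, -⟩ := hEV s (by linarith)
  constructor
  · intro h t₀ ht₀ p hp
    obtain ⟨U, hU, hev⟩ := h t₀ ht₀ ⟨p, hp⟩
    set P : M := ⟨p, hp⟩ with hP
    set Q : M := γ t₀ P with hQ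
    let V : ℝ → L2 := fun t => T (U t 0) + Complex.I • T (U t 1)
    have hV : ContDiffWithinAt ℝ 1 V J t₀ := by
      have h0 : ContDiffWithinAt ℝ 1 (fun t => T (U t 0)) J t₀ :=
        T.contDiff.comp_contDiffWithinAt (contDiffWithinAt_pi.1 hU 0)
      have h1 : ContDiffWithinAt ℝ 1 (fun t => T (U t 1)) J t₀ :=
        T.contDiff.comp_contDiffWithinAt (contDiffWithinAt_pi.1 hU 1)
      exact h0.add (h1.const_smul Complex.I)
    have key : ∀ (t : ℝ) (x : M), (x : ℂ) ∈ (A.κ P).source → RepAt s P Q (U t) (γ t) x →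
        ((γ t x : M) : ℂ) ∈ (A.κ Q).source ∧ bessel s (V t) (A.κ P x) = A.κ Q (γ t x) := by
      intro t x hx hr
      have h1 : ((γ t x : M) : ℂ) ∈ (A.κ Q).source := (hF.src Q _).1 hr.1
      refine ⟨h1, ?_⟩
      have e0 := hr.2 0
      have e1 := hr.2 1
      rw [hF.app Q _ h1, hF.app P _ hx, ← hT] at e0 e1
      rw [io_zero] at e0
      rw [io_one] at e1
      rw [← hBs]
      simp only [V, map_add, map_smul, BoundedContinuousFunction.coe_add,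
        BoundedContinuousFunction.coe_smul, Pi.add_apply, smul_eq_mul, hBs]
      rw [← e0, ← e1, mul_comm]
      exact Complex.re_add_im _
    have hp' : (P : ℂ) ∈ (A.κ P).source := A.mem P P.2
    have k0 := key t₀ P hp' (self_of_ev ht₀ hev)
    obtain ⟨U', hU', hev'⟩ := hCHG s hs (A.κ P) (A.dif P) P hp' J t₀ V hV (A.κ Q).target
      (A.κ Q).symm (A.κ Q).open_target (A.dif Q).2 (by rw [k0.2]; exact (A.κ Q).map_source k0.1)
    refine ⟨U', hU', ?_⟩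
    have hev2 : ∀ᶠ q in 𝓝[J] t₀ ×ˢ 𝓝[M] (P : ℂ), bessel s (U' q.1) q.2 =
        (A.κ Q).symm (bessel s (V q.1) (A.κ P q.2)) :=
      (hev'.filter_mono (Filter.prod_mono le_rfl nhdsWithin_le_nhds)).mono fun q hq => hq.2
    refine (ev_sub P).2 ?_
    filter_upwards [(ev_sub P).1 hev2, hev, ev_J (𝓝 P), ev_src A P] with q h1 h2 h3 h4
    have k := key q.1 q.2 h4 h2
    change γ' q.1 q.2 = bessel s (U' q.1) q.2
    rw [h1, k.2, (A.κ Q).left_inv k.1, hγ q.1 h3]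
  · intro h t₀ ht₀ P
    obtain ⟨U, hU, hev⟩ := h t₀ ht₀ P P.2
    have hev1 := (ev_sub P).1 hev
    set Q : M := γ t₀ P with hQ
    have hp' : (P : ℂ) ∈ (A.κ P).source := A.mem P P.2
    have hd : Dif (A.κ P).symm := ⟨(A.dif P).2, (A.dif P).1⟩
    have h0 : bessel s (U t₀) ((A.κ P).symm (A.κ P P)) ∈ (A.κ Q).source := by
      have e := self_of_ev ht₀ hev1
      change γ' t₀ P = bessel s (U t₀) P at e
      rw [(A.κ P).left_inv hp', ← e, ← hγ t₀ ht₀]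
      exact A.mem Q Q.2
    have hre : ContDiffOn ℝ ∞ (fun z => (((A.κ Q z).re : ℝ) : ℂ)) (A.κ Q).source :=
      (Complex.ofRealCLM.contDiff.comp Complex.reCLM.contDiff).comp_contDiffOn (A.dif Q).1
    have him : ContDiffOn ℝ ∞ (fun z => (((A.κ Q z).im : ℝ) : ℂ)) (A.κ Q).source :=
      (Complex.ofRealCLM.contDiff.comp Complex.imCLM.contDiff).comp_contDiffOn (A.dif Q).1
    obtain ⟨U0, hU0, hev0⟩ := hCHG s hs (A.κ P).symm hd (A.κ P P) ((A.κ P).map_source hp') J t₀ U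
      hU (A.κ Q).source _ (A.κ Q).open_source hre h0
    obtain ⟨U1, hU1, hev1'⟩ := hCHG s hs (A.κ P).symm hd (A.κ P P) ((A.κ P).map_source hp') J t₀ U
      hU (A.κ Q).source _ (A.κ Q).open_source him h0
    have htd : Tendsto (fun q : ℝ × M => (q.1, A.κ P q.2)) (𝓝[J] t₀ ×ˢ 𝓝 P)
        (𝓝[J] t₀ ×ˢ 𝓝 (A.κ P P)) := by
      have hc : ContinuousAt (fun x : M => A.κ P x) P :=
        ((A.κ P).continuousAt hp').comp continuous_subtype_val.continuousAt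
      exact tendsto_id.prodMap hc
    refine ⟨fun t => ![T' (U0 t), T' (U1 t)], ?_, ?_⟩
    · refine contDiffWithinAt_pi.2 fun i => ?_
      fin_cases i
      · exact T'.contDiff.comp_contDiffWithinAt hU0
      · exact T'.contDiff.comp_contDiffWithinAt hU1
    · filter_upwards [htd.eventually hev0, htd.eventually hev1', hev1, ev_J (𝓝 P), ev_src A P]
        with q a0 a1 a2 a3 a4
      change γ' q.1 q.2 = bessel s (U q.1) q.2 at a2
      simp only [(A.κ P).left_inv a4] at a0 a1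
      rw [← a2, ← hγ q.1 a3] at a0 a1
      refine ⟨(hF.src Q _).2 a0.1, fun i => ?_⟩
      rw [hF.app Q _ a0.1, hF.app P _ a4]
      fin_cases i
      · change ((io _ 0 : ℝ) : ℂ) = bes s (T' (U0 q.1)) _
        rw [hT', io_zero, a0.2]
      · change ((io _ 1 : ℝ) : ℂ) = bes s (T' (U1 q.1)) _
        rw [hT', io_one, a1.2]

end Pool.Agent.Lib.LM
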