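import Pool.Agent.Lib.LM.Blue

/-! Local change of charts along a curve. -/

set_option autoImplicit false

open MeasureTheory Set Filter Metric
open scoped ContDiff Topology

namespace Pool.Agent.Lib.LM

open Pool.Agent.Lib.MP_f62ea7_gt (L2 bessel)

namespace T17

/-- a cut-off equal to one near a point and supported in a given open set -/
theorem cut (O : Set ℂ) (hO : IsOpen O) (y : ℂ) (hy : y ∈ O) :
    ∃ χ : ℂ → ℂ, Tst χ ∧ tsupport χ ⊆ O ∧ ∀ᶠ z in 𝓝 y, χ z = 1 := by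
  obtain ⟨r, hr, hb⟩ := Metric.isOpen_iff.1 hO y hy
  let β : ContDiffBump y := ⟨r / 4, r / 2, by positivity, by linarith⟩
  have hs : tsupport (fun z => ((β z : ℝ) : ℂ)) ⊆ tsupport β :=
    closure_mono fun z hz h => hz (by simp [h])
  refine ⟨fun z => ((β z : ℝ) : ℂ), ⟨Complex.ofRealCLM.contDiff.comp β.contDiff, ?_⟩, ?_, ?_⟩
  · exact β.hasCompactSupport.comp_left (g := fun x : ℝ => (x : ℂ)) (by simp)
  · refine hs.trans ?_
    rw [β.tsupport_eq]
    exact (closedBall_subset_ball (by show r / 2 < r; linarith)).trans hb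
  · filter_upwards [β.eventuallyEq_one] with z hz
    simp [hz]

/-- a function smooth on an open set agrees near a point with a globally smooth function -/
theorem glob (O : Set ℂ) (hO : IsOpen O) (F : ℂ → ℂ) (hF : ContDiffOn ℝ ∞ F O) (y : ℂ)
    (hy : y ∈ O) : ∃ G : ℂ → ℂ, ContDiff ℝ ∞ G ∧ ∀ᶠ z in 𝓝 y, G z = F z := by
  obtain ⟨χ, ⟨h1, -⟩, h2, h3⟩ := cut O hO y hy
  refine ⟨fun z => χ z * F z, contDiff_iff_contDiffAt.2 fun z => ?_, ?_⟩
  · by_cases hz : z ∈ O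
    · exact h1.contDiffAt.mul (hF.contDiffAt (hO.mem_nhds hz))
    · have h4 : χ =ᶠ[𝓝 z] 0 := notMem_tsupport_iff_eventuallyEq.1 fun h => hz (h2 h)
      refine (contDiffAt_const (c := (0 : ℂ))).congr_of_eventuallyEq ?_
      filter_upwards [h4] with w hw
      simp [hw]
  · filter_upwards [h3] with z hz
    simp [hz]

end T17

theorem st_CHG (hNEM : St_NEM) (hCOMP : St_COMP) (hEV : St_EV) : St_CHG := by
  intro s hs κ hκ p hp J t₀ U hU O F hO hF hy
  obtain ⟨G, hG, hGF⟩ := T17.glob O hO F hF _ hy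
  obtain ⟨χ₁, h1, -, h1'⟩ := T17.cut univ isOpen_univ (κ p) trivial
  obtain ⟨χ₂, h2, h2s, h2'⟩ := T17.cut κ.source κ.open_source p hp
  obtain ⟨Φ, hΦ, hΦ'⟩ := hNEM s hs G χ₁ hG h1
  obtain ⟨T, hT⟩ := hCOMP κ hκ s χ₂ (by linarith) h2 h2s
  obtain ⟨⟨Bs, hBs⟩, -⟩ := hEV s (by linarith)
  have hκc : Tendsto κ (𝓝 p) (𝓝 (κ p)) := κ.continuousAt hp
  have hUc : Tendsto U (𝓝[J] t₀) (𝓝 (U t₀)) := hU.continuousWithinAt
  have hev : Continuous fun q : L2 × ℂ => Bs q.1 q.2 :=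
    continuous_eval.comp ((Bs.continuous.comp continuous_fst).prodMk continuous_snd)
  have ht : Tendsto (fun q : ℝ × ℂ => bessel s (U q.1) (κ q.2)) (𝓝[J] t₀ ×ˢ 𝓝 p)
      (𝓝 (bessel s (U t₀) (κ p))) := by
    have h := (hev.tendsto (U t₀, κ p)).comp
      ((hUc.comp tendsto_fst).prodMk_nhds (hκc.comp (tendsto_snd (f := 𝓝[J] t₀))))
    simpa only [Function.comp_def, hBs] using h
  refine ⟨fun t => T (Φ (U t)),
    T.contDiff.contDiffAt.comp_contDiffWithinAt t₀ (hΦ.contDiffAt.comp_contDiffWithinAt t₀ hU), ?_⟩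
  filter_upwards [ht.eventually (hO.mem_nhds hy), ht.eventually hGF,
    (tendsto_snd (f := 𝓝[J] t₀)).eventually h2',
    (hκc.comp (tendsto_snd (f := 𝓝[J] t₀))).eventually h1'] with q a b c d
  refine ⟨a, ?_⟩
  rw [hT, hΦ', c, b]
  simp only [Function.comp_def] at d
  rw [d, one_mul, one_mul]

end Pool.Agent.Lib.LM
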