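import Pool.Agent.Lib.LM.Blue

set_option autoImplicit false

open MeasureTheory
open scoped FourierTransform ComplexConjugate RealInnerProductSpace

namespace Pool.Agent.Lib.LM

open Pool.Agent.Lib.MP_f62ea7_gt (L2 bessel)

namespace T53

theorem neg_mp : MeasurePreserving (fun x : ℂ => -x) volume volume :=
  Measure.measurePreserving_neg volume

/-- `g ↦ conj (g (-·))` -/
noncomputable def cj : L2 →L[ℝ] L2 :=
  ((Complex.conjCLE : ℂ →L[ℝ] ℂ).compLpL 2 volume).comp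
    (Lp.compMeasurePreservingₗᵢ ℝ (fun x : ℂ => -x) neg_mp).toContinuousLinearMap

theorem cj_ae (g : L2) : ∀ᵐ ξ, cj g ξ = conj (g (-ξ)) := by
  have h1 := (Complex.conjCLE : ℂ →L[ℝ] ℂ).coeFn_compLpL (p := 2) (μ := volume)
    (Lp.compMeasurePreserving (fun x : ℂ => -x) neg_mp g)
  have h2 := Lp.coeFn_compMeasurePreserving g neg_mp
  filter_upwards [h1, h2] with ξ e1 e2
  have e3 : cj g ξ = (Complex.conjCLE : ℂ →L[ℝ] ℂ)
      ((Lp.compMeasurePreserving (fun x : ℂ => -x) neg_mp g) ξ) := e1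
  rw [e3, e2]
  rfl

theorem cj_norm (g : L2) : ‖cj g‖ = ‖g‖ := by
  have h : ‖Lp.compMeasurePreserving (fun x : ℂ => -x) neg_mp g‖ = ‖g‖ :=
    Lp.norm_compMeasurePreserving g neg_mp
  rw [← h]
  have h2 := Lp.coeFn_compMeasurePreserving g neg_mp
  refine le_antisymm (Lp.norm_le_norm_of_ae_le ?_) (Lp.norm_le_norm_of_ae_le ?_) <;>
  · filter_upwards [cj_ae g, h2] with ξ e1 e2
    rw [e1, e2]
    simp

theorem cj_BL (g : L2) (h : BL g) : BL (cj g) := by
  obtain ⟨R, hR⟩ := h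
  refine ⟨R, ?_⟩
  have h2 := neg_mp.quasiMeasurePreserving.ae hR
  filter_upwards [cj_ae g, h2] with ξ e1 e2 hξ
  rw [e1, e2 (by rwa [norm_neg]), map_zero]

theorem cj_bessel (g : L2) (s : ℝ) (z : ℂ) : bessel s (cj g) z = conj (bessel s g z) := by
  unfold bessel
  rw [Real.fourierInv_eq', Real.fourierInv_eq', ← integral_conj, ← integral_neg_eq_self]
  refine integral_congr_ae ?_
  have h2 := neg_mp.quasiMeasurePreserving.ae (cj_ae g)
  filter_upwards [h2] with ξ e1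
  rw [e1, neg_neg, norm_neg, inner_neg_left]
  simp only [smul_eq_mul, Complex.real_smul, map_mul, Complex.conj_ofReal, ← Complex.exp_conj,
    Complex.conj_I]
  congr 2
  push_cast
  ring

theorem wt_le_one (t : ℝ) (ht : t ≤ 0) (ξ : ℂ) : |wt t ξ| ≤ 1 := by
  have h1 : (1 : ℝ) ≤ 1 + ‖ξ‖ ^ 2 := le_add_of_nonneg_right (by positivity)
  rw [wt, abs_of_nonneg (Real.rpow_nonneg (by positivity) _)]
  exact Real.rpow_le_one_of_one_le_of_nonpos h1 (by linarith)

theorem wt_cts (t : ℝ) : Continuous (wt t) := by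
  unfold wt
  refine Continuous.rpow_const (by fun_prop) fun ξ => Or.inl ?_
  positivity

theorem shift (r r' : ℝ) (hr : r ≤ r') (g : L2) :
    ∃ g' : L2, ‖g'‖ ≤ ‖g‖ ∧ (BL g → BL g') ∧ bessel r g' = bessel r' g := by
  have hle : ∀ ξ, ‖wt (r - r') ξ • g ξ‖ ≤ ‖g ξ‖ := fun ξ => by
    rw [norm_smul, Real.norm_eq_abs]
    exact mul_le_of_le_one_left (norm_nonneg _) (wt_le_one _ (by linarith) ξ)
  have hm : MemLp (fun ξ => wt (r - r') ξ • g ξ) 2 volume :=
    (Lp.memLp g).of_le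
      ((wt_cts _).aestronglyMeasurable.smul (Lp.aestronglyMeasurable g))
      (Filter.Eventually.of_forall hle)
  have he := hm.coeFn_toLp
  refine ⟨hm.toLp _, Lp.norm_le_norm_of_ae_le ?_, ?_, ?_⟩
  · filter_upwards [he] with ξ e
    rw [e]
    exact hle ξ
  · rintro ⟨R, hR⟩
    refine ⟨R, ?_⟩
    filter_upwards [he, hR] with ξ e e2 hξ
    rw [e, e2 hξ, smul_zero]
  · funext z
    unfold bessel
    rw [Real.fourierInv_eq, Real.fourierInv_eq]
    refine integral_congr_ae ?_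
    filter_upwards [he] with ξ e
    have h0 : (0 : ℝ) < 1 + ‖ξ‖ ^ 2 := by positivity
    have h1 : -r / 2 + (r - r') / 2 = -r' / 2 := by ring
    rw [e, smul_smul ((1 + ‖ξ‖ ^ 2) ^ (-r / 2) : ℝ), wt, ← Real.rpow_add h0, h1]

end T53

theorem st_CJ : St_CJ :=
  ⟨⟨T53.cj, fun g => ⟨T53.cj_norm g, T53.cj_BL g, T53.cj_bessel g⟩⟩, T53.shift⟩

end Pool.Agent.Lib.LM
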