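import Pool.Agent.Lib.LM.Blue

/-! Change of coordinates on the Sobolev space of the plane as a bounded operator. -/

set_option autoImplicit false

open MeasureTheory Set Filter
open scoped FourierTransform ContDiff ENNReal NNReal Topology

namespace Pool.Agent.Lib.LM

open Pool.Agent.Lib.MP_f62ea7_gt (L2 bessel)

theorem st_COMP (hCOMPR : St_COMPR) (hEXT : St_EXT) (hEV : St_EV) (hBL : St_BL) : St_COMP := by
  intro κ hκ s χ hs hχ hsupp
  obtain ⟨⟨Bs, hBs⟩, hinj⟩ := hEV s hs
  obtain ⟨C, hC⟩ := hCOMPR κ hκ s χ (by linarith) hχ hsupp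
  obtain ⟨hd, hsub, -⟩ := hBL
  have hsubP : ∀ g g' : L2, (fun z => χ z * bessel s g (κ z)) - (fun z => χ z * bessel s g' (κ z))
      = fun z => χ z * bessel s (g - g') (κ z) := by
    intro g g'
    funext z
    rw [Pi.sub_apply, ← hBs, ← hBs, ← hBs, map_sub, BoundedContinuousFunction.sub_apply, mul_sub]
  obtain ⟨Φ, hΦc, hΦ⟩ := hEXT s hs L2 {g : L2 | BL g} (fun g z => χ z * bessel s g (κ z)) hd
    (fun z => by
      have h1 : Continuous fun g : L2 => χ z * Bs g (κ z) :=
        continuous_const.mul ((continuous_eval_const (κ z)).comp Bs.continuous)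
      exact h1.congr fun g => by rw [hBs])
    (fun g hg => (hC g hg).1)
    (fun R => ⟨C, fun g hg g' hg' _ _ => by
      rw [hsubP]
      exact (hC (g - g') (hsub g g' hg hg')).2⟩)
  have hadd : ∀ g g' : L2, Φ (g + g') = Φ g + Φ g' := by
    intro g g'
    apply hinj
    funext z
    have e1 : bessel s (Φ g + Φ g') z = bessel s (Φ g) z + bessel s (Φ g') z := by
      rw [← hBs, ← hBs, ← hBs, map_add, BoundedContinuousFunction.add_apply]
    have e2 : bessel s (g + g') (κ z) = bessel s g (κ z) + bessel s g' (κ z) := by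
      rw [← hBs, ← hBs, ← hBs, map_add, BoundedContinuousFunction.add_apply]
    rw [e1, hΦ, hΦ, hΦ]
    simp only [e2, mul_add]
  have hsmul : ∀ (c : ℝ) (g : L2), Φ (c • g) = c • Φ g := by
    intro c g
    apply hinj
    funext z
    have e0 : ∀ (u : L2) (w : ℂ), bessel s (c • u) w = (c : ℂ) * bessel s u w := by
      intro u w
      rw [← hBs, ← hBs, Bs.map_smul_of_tower, BoundedContinuousFunction.smul_apply,
        Complex.real_smul]
    rw [e0, hΦ, hΦ]
    simp only [e0]
    ring
  refine ⟨⟨⟨⟨Φ, hadd⟩, hsmul⟩, hΦc⟩, fun g z => ?_⟩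
  exact congrFun (hΦ g) z

end Pool.Agent.Lib.LM
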