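import Pool.Agent.Lib.LM.Blue

set_option autoImplicit false

open MeasureTheory Set Filter
open scoped FourierTransform ContDiff ENNReal NNReal Topology

namespace Pool.Agent.Lib.LM

open Pool.Agent.Lib.MP_f62ea7_gt (L2 bessel)

namespace T34

lemma cut {χ f : ℂ → ℂ} {U : Set ℂ} (hχ : Tst χ) (hU : IsOpen U) (hs : tsupport χ ⊆ U)
    (hf : ContDiffOn ℝ ∞ f U) : Tst (fun z => χ z * f z) ∧
      tsupport (fun z => χ z * f z) ⊆ U := by
  refine ⟨⟨?_, hχ.2.mul_right⟩, (tsupport_mul_subset_left (f := χ) (g := f)).trans hs⟩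
  rw [contDiff_iff_contDiffAt]
  intro z
  by_cases hz : z ∈ tsupport χ
  · exact hχ.1.contDiffAt.mul ((hf z (hs hz)).contDiffAt (hU.mem_nhds (hs hz)))
  · have h0 : χ =ᶠ[𝓝 z] 0 := notMem_tsupport_iff_eventuallyEq.mp hz
    refine (contDiffAt_const (c := (0 : ℂ))).congr_of_eventuallyEq ?_
    filter_upwards [h0] with w hw
    simp [hw]

lemma dcut {χ : ℂ → ℂ} {U : Set ℂ} (hχ : Tst χ) (hs : tsupport χ ⊆ U) (v : ℂ) :
    Tst (fun z => fderiv ℝ χ z v) ∧ tsupport (fun z => fderiv ℝ χ z v) ⊆ U := by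
  refine ⟨⟨?_, hχ.2.fderiv_apply ℝ v⟩, ?_⟩
  · exact (hχ.1.fderiv_right (m := ∞) (by simp)).clm_apply contDiff_const
  · refine Subset.trans ?_ ((tsupport_fderiv_subset ℝ (f := χ)).trans hs)
    apply closure_mono
    intro z hz h0
    exact hz (by simp [h0])

lemma chg (κ : OpenPartialHomeomorph ℂ ℂ) (hκ : Dif κ) {K : Set ℂ} (hK : IsCompact K)
    (hs : K ⊆ κ.source) : ∃ B : ℝ≥0, ∀ G : ℂ → ℝ≥0∞,
      ∫⁻ z in K, G (κ z) ≤ B * ∫⁻ y, G y := by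
  have hK' : IsCompact (κ '' K) := hK.image_of_continuousOn (κ.continuousOn.mono hs)
  have hsub : κ '' K ⊆ κ.target := by
    rintro _ ⟨z, hz, rfl⟩
    exact κ.map_source (hs hz)
  have hc : ContinuousOn (fun y => (fderiv ℝ κ.symm y).det) (κ '' K) :=
    ContinuousLinearMap.continuous_det.comp_continuousOn
      ((hκ.2.continuousOn_fderiv_of_isOpen κ.open_target (by simp)).mono hsub)
  obtain ⟨B, hB⟩ := hK'.exists_bound_of_continuousOn hc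
  refine ⟨B.toNNReal, fun G => ?_⟩
  have him : κ.symm '' (κ '' K) = K := by
    ext z
    constructor
    · rintro ⟨_, ⟨w, hw, rfl⟩, rfl⟩
      rwa [κ.left_inv (hs hw)]
    · intro hz
      exact ⟨_, ⟨z, hz, rfl⟩, κ.left_inv (hs hz)⟩
  have hd : ∀ y ∈ κ '' K, HasFDerivWithinAt κ.symm (fderiv ℝ κ.symm y) (κ '' K) y := fun y hy =>
    (((hκ.2 y (hsub hy)).contDiffAt (κ.open_target.mem_nhds (hsub hy))).differentiableAt
      (by simp)).hasFDerivAt.hasFDerivWithinAt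
  have hinj : InjOn κ.symm (κ '' K) := κ.symm.injOn.mono hsub
  have h := lintegral_image_eq_lintegral_abs_det_fderiv_mul volume hK'.measurableSet hd hinj
    fun z => G (κ z)
  rw [him] at h
  rw [h]
  calc ∫⁻ y in κ '' K, ENNReal.ofReal |(fderiv ℝ κ.symm y).det| * G (κ (κ.symm y))
      ≤ ∫⁻ y in κ '' K, (B.toNNReal : ℝ≥0∞) * G y := by
        refine setLIntegral_mono' hK'.measurableSet fun y hy => ?_
        rw [κ.right_inv (hsub hy)]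
        exact mul_le_mul_left (ENNReal.ofReal_le_ofReal (hB y hy)) _
    _ ≤ ∫⁻ y, (B.toNNReal : ℝ≥0∞) * G y := setLIntegral_le_lintegral _ _
    _ = _ := lintegral_const_mul' _ _ ENNReal.coe_ne_top

lemma base (κ : OpenPartialHomeomorph ℂ ℂ) (hκ : Dif κ) {χ : ℂ → ℂ} (hχ : Tst χ)
    (hs : tsupport χ ⊆ κ.source) : ∃ C : ℝ≥0, ∀ u : ℂ → ℂ,
      eLpNorm (fun z => χ z * u (κ z)) 2 volume ≤ C * eLpNorm u 2 volume := by
  obtain ⟨B, hB⟩ := chg κ hκ hχ.2 hs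
  obtain ⟨A, hA⟩ := hχ.2.exists_bound_of_continuous hχ.1.continuous
  refine ⟨A.toNNReal * NNReal.sqrt B, fun u => ?_⟩
  have h2 : ∀ w : ℂ → ℂ, eLpNorm w 2 volume ^ 2 = ∫⁻ z, ‖w z‖ₑ ^ 2 := by
    intro w
    have := eLpNorm_nnreal_pow_eq_lintegral (f := w) (μ := volume) (p := 2) two_ne_zero
    simpa using this
  rw [← ENNReal.pow_le_pow_left_iff two_ne_zero, mul_pow, h2, h2]
  have hsq : (((A.toNNReal * NNReal.sqrt B : ℝ≥0) : ℝ≥0∞)) ^ 2 =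
      (A.toNNReal : ℝ≥0∞) ^ 2 * B := by
    rw [← ENNReal.coe_pow, mul_pow, NNReal.sq_sqrt]
    simp
  rw [hsq]
  calc ∫⁻ z, ‖χ z * u (κ z)‖ₑ ^ 2
      = ∫⁻ z in tsupport χ, ‖χ z * u (κ z)‖ₑ ^ 2 := by
        refine (setLIntegral_eq_of_support_subset ?_).symm
        intro z hz
        by_contra hn
        apply hz
        simp [image_eq_zero_of_notMem_tsupport hn]
    _ ≤ ∫⁻ z in tsupport χ, (A.toNNReal : ℝ≥0∞) ^ 2 * ‖u (κ z)‖ₑ ^ 2 := by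
        refine lintegral_mono fun z => ?_
        rw [enorm_mul, mul_pow]
        refine mul_le_mul_left (ENNReal.pow_le_pow_left ?_) _
        rw [← ofReal_norm]
        exact ENNReal.ofReal_le_ofReal (hA z)
    _ = (A.toNNReal : ℝ≥0∞) ^ 2 * ∫⁻ z in tsupport χ, ‖u (κ z)‖ₑ ^ 2 :=
        lintegral_const_mul' _ _ (ENNReal.pow_ne_top ENNReal.coe_ne_top)
    _ ≤ _ := by
        rw [mul_assoc]
        exact mul_le_mul_right (hB fun y => ‖u y‖ₑ ^ 2) _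

lemma split (L : ℂ →L[ℝ] ℂ) (a : ℂ) : L a = (a.re : ℂ) * L 1 + (a.im : ℂ) * L Complex.I := by
  have h : a = a.re • (1 : ℂ) + a.im • Complex.I := by
    simp [Complex.re_add_im]
  conv_lhs => rw [h]
  rw [map_add, map_smul, map_smul]
  simp

lemma dform (κ : OpenPartialHomeomorph ℂ ℂ) (hκ : Dif κ) {χ u : ℂ → ℂ} (hχ : Tst χ)
    (hs : tsupport χ ⊆ κ.source) (hu : ContDiff ℝ ∞ u) (v z : ℂ) :
    fderiv ℝ (fun z => χ z * u (κ z)) z v = fderiv ℝ χ z v * u (κ z) +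
      χ z * ((fderiv ℝ κ z v).re : ℂ) * fderiv ℝ u (κ z) 1 +
      χ z * ((fderiv ℝ κ z v).im : ℂ) * fderiv ℝ u (κ z) Complex.I := by
  by_cases hz : z ∈ tsupport χ
  · have h1 : HasFDerivAt κ (fderiv ℝ κ z) z :=
      (((hκ.1 z (hs hz)).contDiffAt (κ.open_source.mem_nhds (hs hz))).differentiableAt
        (by simp)).hasFDerivAt
    have h2 : HasFDerivAt u (fderiv ℝ u (κ z)) (κ z) :=
      (hu.differentiable (by simp) _).hasFDerivAt
    have h3 : HasFDerivAt χ (fderiv ℝ χ z) z := (hχ.1.differentiable (by simp) _).hasFDerivAt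
    have h4 : HasFDerivAt (fun z => χ z * u (κ z)) _ z := h3.mul (h2.comp z h1)
    rw [h4.fderiv]
    simp only [add_apply, smul_apply, ContinuousLinearMap.comp_apply, smul_eq_mul]
    rw [split (fderiv ℝ u (κ z)) (fderiv ℝ κ z v)]
    ring
  · have h0 : χ =ᶠ[𝓝 z] 0 := notMem_tsupport_iff_eventuallyEq.mp hz
    have h1 : (fun z => χ z * u (κ z)) =ᶠ[𝓝 z] 0 := by
      filter_upwards [h0] with w hw
      simp [hw]
    rw [h1.fderiv_eq, h0.fderiv_eq, h0.eq_of_nhds]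
    simp

lemma enle {g g' : L2} {c : ℝ≥0} (h : ‖g'‖ ≤ c * ‖g‖) : ‖g'‖ₑ ≤ c * ‖g‖ₑ := by
  rw [← ofReal_norm, ← ofReal_norm, ← ENNReal.ofReal_coe_nnreal,
    ← ENNReal.ofReal_mul c.coe_nonneg]
  exact ENNReal.ofReal_le_ofReal h

lemma dir (hT : St_TST) (hC : St_CJ) (hB : St_BL) (κ : OpenPartialHomeomorph ℂ ℂ) (hκ : Dif κ)
    (r : ℝ) (ih : ∀ χ : ℂ → ℂ, Tst χ → tsupport χ ⊆ κ.source → ∃ C : ℝ≥0, ∀ g : L2, BL g →
      Tst (fun z => χ z * bessel r g (κ z)) ∧ nr r (fun z => χ z * bessel r g (κ z)) ≤ C * ‖g‖ₑ)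
    {χ : ℂ → ℂ} (hχ : Tst χ) (hs : tsupport χ ⊆ κ.source) (v : ℂ) : ∃ C : ℝ≥0, ∀ g : L2, BL g →
      nr r (fun z => fderiv ℝ (fun z => χ z * bessel (r + 1) g (κ z)) z v) ≤ C * ‖g‖ₑ := by
  have hD : ContDiffOn ℝ ∞ (fun z => fderiv ℝ κ z v) κ.source :=
    (hκ.1.fderiv_of_isOpen κ.open_source (m := ∞) (by simp)).clm_apply contDiffOn_const
  have hre : ContDiffOn ℝ ∞ (fun z => ((fderiv ℝ κ z v).re : ℂ)) κ.source :=
    (Complex.ofRealCLM.contDiff.comp Complex.reCLM.contDiff).comp_contDiffOn hD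
  have him : ContDiffOn ℝ ∞ (fun z => ((fderiv ℝ κ z v).im : ℂ)) κ.source :=
    (Complex.ofRealCLM.contDiff.comp Complex.imCLM.contDiff).comp_contDiffOn hD
  obtain ⟨C1, h1⟩ := ih _ (dcut hχ hs v).1 (dcut hχ hs v).2
  obtain ⟨C2, h2⟩ := ih _ (cut hχ κ.open_source hs hre).1 (cut hχ κ.open_source hs hre).2
  obtain ⟨C3, h3⟩ := ih _ (cut hχ κ.open_source hs him).1 (cut hχ κ.open_source hs him).2
  refine ⟨C1 + C2 * 7 + C3 * 7, fun g hg => ?_⟩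
  obtain ⟨g1, n1, b1, e1⟩ := hC.2 r (r + 1) (by linarith) g
  obtain ⟨hsm, hd⟩ := (hB.2.2 g hg).2 (r + 1)
  obtain ⟨g2, b2, n2, e2⟩ := hd 1
  obtain ⟨g3, b3, n3, e3⟩ := hd Complex.I
  rw [add_sub_cancel_right] at e2 e3
  have hf : (fun z => fderiv ℝ (fun z => χ z * bessel (r + 1) g (κ z)) z v) =
      (fun z => fderiv ℝ χ z v * bessel r g1 (κ z)) +
      (fun z => χ z * ((fderiv ℝ κ z v).re : ℂ) * bessel r g2 (κ z)) +
      fun z => χ z * ((fderiv ℝ κ z v).im : ℂ) * bessel r g3 (κ z) := by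
    funext z
    rw [dform κ hκ hχ hs hsm v z, e2, e3, ← e1]
    rfl
  obtain ⟨t1, m1⟩ := h1 g1 (b1 hg)
  obtain ⟨t2, m2⟩ := h2 g2 b2
  obtain ⟨t3, m3⟩ := h3 g3 b3
  have t12 : Tst ((fun z => fderiv ℝ χ z v * bessel r g1 (κ z)) +
      fun z => χ z * ((fderiv ℝ κ z v).re : ℂ) * bessel r g2 (κ z)) :=
    ⟨t1.1.add t2.1, t1.2.add t2.2⟩
  have k1 : ‖g1‖ₑ ≤ (1 : ℝ≥0) * ‖g‖ₑ := enle (by simpa using n1)
  have k2 : ‖g2‖ₑ ≤ (7 : ℝ≥0) * ‖g‖ₑ := enle (by simpa using n2)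
  have k3 : ‖g3‖ₑ ≤ (7 : ℝ≥0) * ‖g‖ₑ := enle (by simpa using n3)
  rw [hf]
  refine ((hT _ t12).2.2.2.2 _ t3 r).trans ?_
  refine (add_le_add ((hT _ t1).2.2.2.2 _ t2 r) le_rfl).trans ?_
  refine (add_le_add (add_le_add (m1.trans (mul_le_mul_right k1 _))
    (m2.trans (mul_le_mul_right k2 _))) (m3.trans (mul_le_mul_right k3 _))).trans (le_of_eq ?_)
  push_cast
  ring

end T34

theorem st_COMPK (hT : St_TST) (hC : St_CJ) (hB : St_BL) : St_COMPK := by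
  intro κ hκ k
  have ht : ∀ (s : ℝ) (χ : ℂ → ℂ), Tst χ → tsupport χ ⊆ κ.source → ∀ g : L2, BL g →
      Tst (fun z => χ z * bessel s g (κ z)) := fun s χ hχ hs g hg =>
    (T34.cut hχ κ.open_source hs (((hB.2.2 g hg).2 s).1.comp_contDiffOn hκ.1)).1
  induction k with
  | zero =>
    intro χ hχ hs
    obtain ⟨C, h⟩ := T34.base κ hκ hχ hs
    refine ⟨C, fun g hg => ⟨ht _ χ hχ hs g hg, ?_⟩⟩
    rw [Nat.cast_zero, (hT _ (ht 0 χ hχ hs g hg)).2.1]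
    exact (h _).trans (mul_le_mul_right (hB.2.2 g hg).1 _)
  | succ k ih =>
    intro χ hχ hs
    obtain ⟨C0, h0⟩ := ih χ hχ hs
    obtain ⟨C1, h1⟩ := T34.dir hT hC hB κ hκ k ih hχ hs 1
    obtain ⟨C2, h2⟩ := T34.dir hT hC hB κ hκ k ih hχ hs Complex.I
    refine ⟨C0 + C1 + C2, fun g hg => ⟨ht _ χ hχ hs g hg, ?_⟩⟩
    rw [Nat.cast_succ]
    obtain ⟨g1, n1, b1, e1⟩ := hC.2 k (k + 1) (by linarith) g
    have k1 : ‖g1‖ₑ ≤ (1 : ℝ≥0) * ‖g‖ₑ := T34.enle (by simpa using n1)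
    have m0 := (h0 g1 (b1 hg)).2
    rw [e1] at m0
    refine ((hT _ (ht (k + 1) χ hχ hs g hg)).2.2.2.1 k).trans ?_
    refine (add_le_add (add_le_add (m0.trans (mul_le_mul_right k1 _)) (h1 g hg))
      (h2 g hg)).trans (le_of_eq ?_)
    push_cast
    ring

end Pool.Agent.Lib.LM
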