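import Pool.Agent.Lib.LM.Blue

/-! Row COMPR: change of coordinates for a real index, by interpolation. -/

set_option autoImplicit false

open MeasureTheory Set Filter
open scoped FourierTransform ContDiff ENNReal NNReal Topology

namespace Pool.Agent.Lib.LM

open Pool.Agent.Lib.MP_f62ea7_gt (L2 bessel)

namespace T76

theorem wt_pos (r : ℝ) (ξ : ℂ) : 0 < wt r ξ := Real.rpow_pos_of_pos (by positivity) _

theorem wt_cont (r : ℝ) : Continuous (wt r) :=
  Continuous.rpow_const (by fun_prop) fun ξ => Or.inl (by positivity)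

theorem wt_cancel (r : ℝ) (ξ z : ℂ) : wt (-r) ξ • wt r ξ • z = z := by
  rw [smul_smul, wt, wt, ← Real.rpow_add (by positivity)]
  simp [neg_div]

theorem wt_cancel' (r : ℝ) (ξ z : ℂ) : wt r ξ • wt (-r) ξ • z = z := by
  simpa using wt_cancel (-r) ξ z

/-- the admissible Fourier data -/
def DD : Set (ℂ → ℂ) :=
  {φ | Measurable φ ∧ MemLp φ 2 volume ∧ ∃ R : ℝ, ∀ᵐ ξ, R < ‖ξ‖ → φ ξ = 0}

theorem wmem {φ : ℂ → ℂ} (h : φ ∈ DD) (r : ℝ) : (fun ξ => wt r ξ • φ ξ) ∈ DD := by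
  obtain ⟨hm, hp, R, hR⟩ := h
  have hm' : Measurable fun ξ => wt r ξ • φ ξ := (wt_cont r).measurable.smul hm
  refine ⟨hm', ?_, R, ?_⟩
  · obtain ⟨c, hc⟩ := (isCompact_closedBall (0 : ℂ) R).exists_bound_of_continuousOn
      (wt_cont r).continuousOn
    refine MemLp.of_le_mul (c := c) hp hm'.aestronglyMeasurable ?_
    filter_upwards [hR] with ξ h
    by_cases hξ : R < ‖ξ‖
    · simp [h hξ]
    · rw [norm_smul]
      exact mul_le_mul_of_nonneg_right (hc ξ (by simpa using hξ)) (norm_nonneg _)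
  · filter_upwards [hR] with ξ h hξ
    rw [h hξ, smul_zero]

theorem integ {φ : ℂ → ℂ} (h : φ ∈ DD) : Integrable φ := by
  obtain ⟨-, hp, R, hR⟩ := h
  have h1 : IntegrableOn φ (Metric.closedBall 0 R) :=
    (hp.locallyIntegrable (by norm_num)).integrableOn_isCompact (isCompact_closedBall _ _)
  refine h1.integrable_of_ae_notMem_eq_zero ?_
  filter_upwards [hR] with ξ h hξ
  exact h (by simpa using hξ)

theorem finv_congr {φ ψ : ℂ → ℂ} (h : φ =ᵐ[volume] ψ) : 𝓕⁻ φ = 𝓕⁻ ψ := by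
  funext z
  rw [Real.fourierInv_eq_fourier_neg, Real.fourierInv_eq_fourier_neg, Real.fourier_congr_ae h]

theorem rep {φ : ℂ → ℂ} (h : φ ∈ DD) (r : ℝ) : ∃ g : L2, BL g ∧ bessel r g = 𝓕⁻ φ ∧
    ‖g‖ₑ = eLpNorm (fun ξ => wt r ξ • φ ξ) 2 volume := by
  obtain ⟨-, hp, R, hR⟩ := wmem h r
  refine ⟨hp.toLp _, ⟨R, ?_⟩, ?_, ?_⟩
  · filter_upwards [hR, hp.coeFn_toLp] with ξ a b hξ
    rw [b, a hξ]
  · change 𝓕⁻ (fun ξ => wt (-r) ξ • (hp.toLp _ : L2) ξ) = _
    refine finv_congr ?_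
    filter_upwards [hp.coeFn_toLp] with ξ b
    rw [b, wt_cancel]
  · rw [Lp.enorm_def, eLpNorm_congr_ae hp.coeFn_toLp]

theorem ind {φ : ℂ → ℂ} (h : φ ∈ DD) {A : Set ℂ} (hA : MeasurableSet A) : A.indicator φ ∈ DD := by
  obtain ⟨hm, hp, R, hR⟩ := h
  refine ⟨hm.indicator hA, hp.indicator hA, R, ?_⟩
  filter_upwards [hR] with ξ a hξ
  by_cases hξA : ξ ∈ A
  · rw [indicator_of_mem hξA, a hξ]
  · exact indicator_of_notMem hξA _

theorem f_add {F G : ℂ → ℂ} (hF : Integrable F) (hG : Integrable G) :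
    𝓕 (F + G) = 𝓕 F + 𝓕 G :=
  VectorFourier.fourierIntegral_add Real.continuous_fourierChar (by exact continuous_inner) hF hG

theorem finv_add {F G : ℂ → ℂ} (hF : Integrable F) (hG : Integrable G) (z : ℂ) :
    𝓕⁻ (F + G) z = 𝓕⁻ F z + 𝓕⁻ G z := by
  simp only [Real.fourierInv_eq_fourier_neg, f_add hF hG, Pi.add_apply]

theorem tst_int {F : ℂ → ℂ} (h : Tst F) : Integrable F :=
  h.1.continuous.integrable_of_hasCompactSupport h.2

end T76

open T76 in
theorem st_COMPR (hK : St_COMPK) (hI : St_INTERP) (_hB : St_BL) : St_COMPR := by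
  intro κ hκ s χ hs hχ hsup
  set k : ℕ := ⌈s⌉₊ + 1 with hk
  have hsk : s < k := by
    rw [hk]; push_cast; linarith [Nat.le_ceil s]
  have hk0 : (0 : ℝ) < k := hs.trans hsk
  obtain ⟨C₀, hC₀⟩ := hI (s / k) (by positivity) ((div_lt_one hk0).2 hsk)
  obtain ⟨C1, hC1⟩ := hK κ hκ 0 χ hχ hsup
  obtain ⟨C2, hC2⟩ := hK κ hκ k χ hχ hsup
  have hT : ∀ φ ∈ DD, Tst fun z => χ z * 𝓕⁻ φ (κ z) := fun φ h => by
    obtain ⟨g, hg, e, -⟩ := rep h (0 : ℕ)
    simpa only [e] using (hC1 g hg).1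
  have key := hC₀ ℂ volume (wt k) (wt_cont k).measurable (wt_pos k) DD
    (fun φ => 𝓕 fun z => χ z * 𝓕⁻ φ (κ z)) (max C1 C2) ?_ ?_ ?_
  · refine ⟨C₀ * max C1 C2, fun g hg => ?_⟩
    have hgD : (g : ℂ → ℂ) ∈ DD := ⟨(Lp.stronglyMeasurable g).measurable, Lp.memLp g, hg⟩
    have hφ := wmem hgD (-s)
    have e : bessel s g = 𝓕⁻ fun ξ => wt (-s) ξ • g ξ := rfl
    have ew : ∀ ξ, wt k ξ ^ (s / k) = wt s ξ := fun ξ => by
      rw [wt, wt, ← Real.rpow_mul (by positivity)]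
      congr 1
      field_simp
    rw [e]
    refine ⟨hT _ hφ, ?_⟩
    have := key _ hφ
    simp only [ew, wt_cancel'] at this
    rw [Lp.enorm_def]
    simpa only [nr, ENNReal.coe_mul] using this
  · intro φ h
    exact ⟨h.1, (VectorFourier.fourierIntegral_continuous Real.continuous_fourierChar
      (by exact continuous_inner) (tst_int (hT φ h))).aestronglyMeasurable⟩
  · intro φ h A hA
    refine ⟨ind h hA, Eventually.of_forall fun ξ => ?_⟩
    have h1 := ind h hA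
    have h2 := ind h hA.compl
    rw [← f_add (tst_int (hT _ h1)) (tst_int (hT _ h2))]
    refine congrArg (fun F : ℂ → ℂ => 𝓕 F ξ) (funext fun z => ?_)
    rw [Pi.add_apply, ← mul_add, ← finv_add (integ h1) (integ h2), indicator_self_add_compl]
  · intro φ h
    constructor
    · obtain ⟨g, hg, e, en⟩ := rep h (0 : ℕ)
      have := (hC1 g hg).2
      rw [e, en] at this
      simp only [nr, wt, Nat.cast_zero, zero_div, Real.rpow_zero, one_smul] at this
      exact this.trans (by gcongr; exact le_max_left _ _)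
    · obtain ⟨g, hg, e, en⟩ := rep h k
      have := (hC2 g hg).2
      rw [e, en] at this
      exact this.trans (by gcongr; exact le_max_right _ _)

end Pool.Agent.Lib.LM
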