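import Pool.Agent.Lib.LM.Blue

set_option autoImplicit false

open MeasureTheory Set Filter
open scoped ENNReal NNReal

namespace Pool.Agent.Lib.LM

namespace T51

theorem key (σ ρ a b c : ℝ) (hρ : 0 ≤ ρ) (hρσ : ρ ≤ σ) (ha : 1 ≤ a) (hb : 1 ≤ b) (hc : 1 ≤ c)
    (h : a ≤ 4 * c ∨ (a ≤ 4 * b ∧ c ≤ a)) :
    a ^ ρ * b ^ (-σ) * c ^ (-ρ) ≤ 4 ^ σ * (b ^ (-σ) + c ^ (-σ)) := by
  have ha0 : 0 < a := by linarith
  have hb0 : 0 < b := by linarith
  have hc0 : 0 < c := by linarith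
  have h4 : (0 : ℝ) < 4 ^ σ := by positivity
  have hbp : 0 < b ^ (-σ) := Real.rpow_pos_of_pos hb0 _
  have hcp : 0 < c ^ (-σ) := Real.rpow_pos_of_pos hc0 _
  have hcq : 0 < c ^ (-ρ) := Real.rpow_pos_of_pos hc0 _
  rcases h with h | ⟨h1, h2⟩
  · have e1 : a ^ ρ ≤ 4 ^ σ * c ^ ρ := by
      calc a ^ ρ ≤ (4 * c) ^ ρ := Real.rpow_le_rpow ha0.le h hρ
        _ = 4 ^ ρ * c ^ ρ := Real.mul_rpow (by norm_num) hc0.le
        _ ≤ 4 ^ σ * c ^ ρ := by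
          gcongr
          norm_num
    have e2 : c ^ ρ * c ^ (-ρ) = 1 := by
      rw [← Real.rpow_add hc0]; simp
    calc a ^ ρ * b ^ (-σ) * c ^ (-ρ) ≤ 4 ^ σ * c ^ ρ * b ^ (-σ) * c ^ (-ρ) := by gcongr
      _ = 4 ^ σ * b ^ (-σ) * (c ^ ρ * c ^ (-ρ)) := by ring
      _ = 4 ^ σ * b ^ (-σ) := by rw [e2, mul_one]
      _ ≤ _ := by nlinarith
  · have hσ : 0 ≤ σ := hρ.trans hρσ
    have e1 : b ^ (-σ) ≤ 4 ^ σ * a ^ (-σ) := by
      have e : a ^ (-σ) ≥ (4 * b) ^ (-σ) :=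
        Real.rpow_le_rpow_of_nonpos ha0 h1 (by linarith)
      have e' : (4 * b) ^ (-σ) = 4 ^ (-σ) * b ^ (-σ) := Real.mul_rpow (by norm_num) hb0.le
      have e'' : (4 : ℝ) ^ σ * 4 ^ (-σ) = 1 := by
        rw [← Real.rpow_add (by norm_num)]; simp
      calc b ^ (-σ) = (4 ^ σ * 4 ^ (-σ)) * b ^ (-σ) := by rw [e'', one_mul]
        _ = 4 ^ σ * (4 * b) ^ (-σ) := by rw [e']; ring
        _ ≤ 4 ^ σ * a ^ (-σ) := by gcongr
    have e2 : a ^ ρ * a ^ (-σ) ≤ c ^ (ρ - σ) := by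
      rw [← Real.rpow_add ha0]
      exact Real.rpow_le_rpow_of_nonpos hc0 h2 (by linarith)
    have e3 : c ^ (ρ - σ) * c ^ (-ρ) = c ^ (-σ) := by
      rw [← Real.rpow_add hc0]; congr 1; ring
    have hap : 0 < a ^ ρ := Real.rpow_pos_of_pos ha0 _
    calc a ^ ρ * b ^ (-σ) * c ^ (-ρ) ≤ a ^ ρ * (4 ^ σ * a ^ (-σ)) * c ^ (-ρ) := by gcongr
      _ = 4 ^ σ * (a ^ ρ * a ^ (-σ)) * c ^ (-ρ) := by ring
      _ ≤ 4 ^ σ * c ^ (ρ - σ) * c ^ (-ρ) := by gcongr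
      _ = 4 ^ σ * c ^ (-σ) := by rw [mul_assoc, e3]
      _ ≤ _ := by nlinarith

theorem wt_pos (r : ℝ) (x : ℂ) : 0 < wt r x := by
  unfold wt
  positivity

theorem wt_sq (r : ℝ) (x : ℂ) : wt r x ^ 2 = (1 + ‖x‖ ^ 2) ^ r := by
  unfold wt
  rw [← Real.rpow_natCast, ← Real.rpow_mul (by positivity)]
  congr 1
  push_cast
  ring

theorem wt_mul_neg (r : ℝ) (x : ℂ) : wt (-r) x * wt r x = 1 := by
  unfold wt
  rw [← Real.rpow_add (by positivity)]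
  have : -r / 2 + r / 2 = 0 := by ring
  rw [this, Real.rpow_zero]

theorem wt_cont (r : ℝ) : Continuous (wt r) := by
  unfold wt
  exact Continuous.rpow_const (by fun_prop) fun x => Or.inl (by positivity)

theorem ker (σ ρ : ℝ) (hρ : 0 ≤ ρ) (hρσ : ρ ≤ σ) (x y : ℂ) :
    (wt ρ x * wt (-σ) y * wt (-ρ) (x - y)) ^ 2 ≤
      4 ^ σ * ((1 + ‖y‖ ^ 2) ^ (-σ) + (1 + ‖x - y‖ ^ 2) ^ (-σ)) := by
  rw [mul_pow, mul_pow, wt_sq, wt_sq, wt_sq]
  have h0 := norm_nonneg x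
  have h1 := norm_nonneg y
  have h2 := norm_nonneg (x - y)
  refine key σ ρ _ _ _ hρ hρσ (by nlinarith) (by nlinarith) (by nlinarith) ?_
  have h3 : ‖x‖ ≤ ‖x - y‖ + ‖y‖ := by
    simpa using norm_add_le (x - y) y
  by_cases h : ‖x‖ ≤ 2 * ‖x - y‖
  · left; nlinarith
  · right
    push Not at h
    constructor <;> nlinarith

theorem l2 (f : ℂ → ℂ) : eLpNorm f 2 volume = (∫⁻ x, ‖f x‖ₑ ^ (2 : ℝ)) ^ (1 / 2 : ℝ) := by
  rw [eLpNorm_eq_lintegral_rpow_enorm_toReal (by norm_num) (by norm_num)]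
  norm_num

end T51

open T51 in
theorem st_CONV : St_CONV := by
  intro σ ρ hσ hρ hρσ
  let w : ℂ → ℝ≥0∞ := fun η => ENNReal.ofReal ((1 + ‖η‖ ^ 2) ^ (-σ))
  have hwm : Measurable w := by
    refine ENNReal.measurable_ofReal.comp (Continuous.measurable ?_)
    exact Continuous.rpow_const (by fun_prop) fun x => Or.inl (by positivity)
  have hA : ∫⁻ η, w η ≠ ⊤ := by
    have hi : Integrable (fun x : ℂ => (1 + ‖x‖ ^ 2) ^ (-(2 * σ) / 2)) volume :=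
      integrable_rpow_neg_one_add_norm_sq (by rw [Complex.finrank_real_complex]; push_cast; linarith)
    have e : -(2 * σ) / 2 = -σ := by ring
    rw [e] at hi
    exact hi.lintegral_lt_top.ne
  obtain ⟨B, hB⟩ : ∃ B : ℝ≥0∞, B = ENNReal.ofReal (4 ^ σ) * ((∫⁻ η, w η) + ∫⁻ η, w η) := ⟨_, rfl⟩
  have hBt : B ≠ ⊤ := by
    rw [hB]
    exact ENNReal.mul_ne_top ENNReal.ofReal_ne_top (ENNReal.add_ne_top.2 ⟨hA, hA⟩)
  refine ⟨(B ^ (1 / 2 : ℝ)).toNNReal, fun g φ hg hφ => ?_⟩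
  rw [ENNReal.coe_toNNReal (ENNReal.rpow_ne_top_of_nonneg (by norm_num) hBt), l2, l2, l2]
  let G : ℂ → ℝ≥0∞ := fun η => ‖g η‖ₑ
  let P : ℂ → ℝ≥0∞ := fun ξ => ‖wt ρ ξ • φ ξ‖ₑ
  have hG : AEMeasurable G volume := hg.enorm
  have hP : AEMeasurable P volume := ((wt_cont ρ).aestronglyMeasurable.smul hφ).enorm
  have hpt : ∀ ξ : ℂ, ‖wt ρ ξ • ∫ η, (wt (-σ) η • g η) * φ (ξ - η)‖ₑ ^ (2 : ℝ) ≤
      B * ∫⁻ η, G η ^ (2 : ℝ) * P (ξ - η) ^ (2 : ℝ) := by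
    intro ξ
    let k : ℂ → ℝ≥0∞ := fun η => ENNReal.ofReal (wt ρ ξ * wt (-σ) η * wt (-ρ) (ξ - η))
    have hk : Measurable k := by
      refine ENNReal.measurable_ofReal.comp (Continuous.measurable ?_)
      exact (continuous_const.mul (wt_cont _)).mul ((wt_cont _).comp (by fun_prop))
    have hPξ : AEMeasurable (fun η => P (ξ - η)) volume :=
      hP.comp_quasiMeasurePreserving
        (Measure.measurePreserving_sub_left volume ξ).quasiMeasurePreserving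
    have hk2 : ∫⁻ η, k η ^ (2 : ℝ) ≤ B := by
      calc ∫⁻ η, k η ^ (2 : ℝ) ≤ ∫⁻ η, ENNReal.ofReal (4 ^ σ) * (w η + w (ξ - η)) := by
            refine lintegral_mono fun η => ?_
            have hp : 0 ≤ wt ρ ξ * wt (-σ) η * wt (-ρ) (ξ - η) :=
              (mul_pos (mul_pos (wt_pos _ _) (wt_pos _ _)) (wt_pos _ _)).le
            simp only [k, w]
            rw [ENNReal.ofReal_rpow_of_nonneg hp (by norm_num),
              ← ENNReal.ofReal_add (by positivity) (by positivity),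
              ← ENNReal.ofReal_mul (by positivity)]
            refine ENNReal.ofReal_le_ofReal ?_
            rw [Real.rpow_two]
            exact ker σ ρ hρ hρσ ξ η
        _ = B := by
            rw [lintegral_const_mul' _ _ ENNReal.ofReal_ne_top, lintegral_add_left hwm,
              lintegral_sub_left_eq_self w ξ, hB]
    have h1 : ‖wt ρ ξ • ∫ η, (wt (-σ) η • g η) * φ (ξ - η)‖ₑ ≤
        ∫⁻ η, (k * fun η => G η * P (ξ - η)) η := by
      rw [enorm_smul]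
      calc ‖wt ρ ξ‖ₑ * ‖∫ η, (wt (-σ) η • g η) * φ (ξ - η)‖ₑ
          ≤ ‖wt ρ ξ‖ₑ * ∫⁻ η, ‖(wt (-σ) η • g η) * φ (ξ - η)‖ₑ := by
            gcongr
            exact enorm_integral_le_lintegral_enorm _
        _ = ∫⁻ η, ‖wt ρ ξ‖ₑ * ‖(wt (-σ) η • g η) * φ (ξ - η)‖ₑ :=
            (lintegral_const_mul' _ _ enorm_ne_top).symm
        _ = _ := by
            refine lintegral_congr fun η => ?_
            simp only [k, G, P, Pi.mul_apply, enorm_mul, enorm_smul]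
            rw [ENNReal.ofReal_mul (mul_pos (wt_pos _ _) (wt_pos _ _)).le,
              ENNReal.ofReal_mul (wt_pos _ _).le, Real.enorm_eq_ofReal (wt_pos _ _).le,
              Real.enorm_eq_ofReal (wt_pos _ _).le, Real.enorm_eq_ofReal (wt_pos _ _).le]
            have e : ENNReal.ofReal (wt (-ρ) (ξ - η)) * ENNReal.ofReal (wt ρ (ξ - η)) = 1 := by
              rw [← ENNReal.ofReal_mul (wt_pos _ _).le, wt_mul_neg, ENNReal.ofReal_one]
            calc _ = ENNReal.ofReal (wt ρ ξ) * ENNReal.ofReal (wt (-σ) η) * ‖g η‖ₑ *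
                  ‖φ (ξ - η)‖ₑ * 1 := by ring
              _ = _ := by rw [← e]; ring
    have h2 := ENNReal.lintegral_mul_le_Lp_mul_Lq volume Real.HolderConjugate.two_two
      hk.aemeasurable (hG.mul hPξ)
    calc _ ≤ ((∫⁻ η, k η ^ (2 : ℝ)) ^ (1 / 2 : ℝ) *
          (∫⁻ η, (G η * P (ξ - η)) ^ (2 : ℝ)) ^ (1 / 2 : ℝ)) ^ (2 : ℝ) :=
          ENNReal.rpow_le_rpow (h1.trans h2) (by norm_num)
      _ = (∫⁻ η, k η ^ (2 : ℝ)) * ∫⁻ η, (G η * P (ξ - η)) ^ (2 : ℝ) := by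
          rw [ENNReal.mul_rpow_of_nonneg _ _ (by norm_num), ← ENNReal.rpow_mul,
            ← ENNReal.rpow_mul]
          norm_num
      _ ≤ B * ∫⁻ η, G η ^ (2 : ℝ) * P (ξ - η) ^ (2 : ℝ) := by
          simp only [ENNReal.mul_rpow_of_nonneg _ _ (show (0 : ℝ) ≤ 2 by norm_num)]
          gcongr
  have hT : ∫⁻ ξ, ∫⁻ η, G η ^ (2 : ℝ) * P (ξ - η) ^ (2 : ℝ) =
      (∫⁻ η, G η ^ (2 : ℝ)) * ∫⁻ ξ, P ξ ^ (2 : ℝ) := by
    have hm : AEMeasurable (Function.uncurry fun ξ η : ℂ => G η ^ (2 : ℝ) * P (ξ - η) ^ (2 : ℝ))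
        ((volume : Measure ℂ).prod volume) :=
      ((hG.pow_const _).comp_quasiMeasurePreserving Measure.quasiMeasurePreserving_snd).mul
        ((hP.pow_const _).comp_quasiMeasurePreserving
          (quasiMeasurePreserving_sub volume volume))
    rw [lintegral_lintegral_swap hm, ← lintegral_mul_const'' _ (hG.pow_const _)]
    refine lintegral_congr fun η => ?_
    have hPη : AEMeasurable (fun ξ => P (ξ - η) ^ (2 : ℝ)) volume :=
      (hP.pow_const _).comp_quasiMeasurePreserving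
        (measurePreserving_sub_right volume η).quasiMeasurePreserving
    rw [lintegral_const_mul'' _ hPη, lintegral_sub_right_eq_self (fun ξ => P ξ ^ (2 : ℝ)) η]
  rw [← ENNReal.mul_rpow_of_nonneg _ _ (by norm_num),
    ← ENNReal.mul_rpow_of_nonneg _ _ (by norm_num)]
  refine ENNReal.rpow_le_rpow ?_ (by norm_num)
  calc _ ≤ ∫⁻ ξ, B * ∫⁻ η, G η ^ (2 : ℝ) * P (ξ - η) ^ (2 : ℝ) := lintegral_mono hpt
    _ = _ := by rw [lintegral_const_mul' _ _ hBt, hT, mul_assoc]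

end Pool.Agent.Lib.LM
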