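import Pool.Agent.Lib.LM.Blue

/-! The two descriptions of the group of volume preserving `H^s` diffeomorphisms agree. -/

set_option autoImplicit false

open MeasureTheory Set Filter
open scoped Topology

namespace Pool.Agent.Lib.LM

open Pool.Agent.Lib.MP_f62ea7_gt (L2 bessel IsDiff IsH)

namespace T23

/-- `H^s` in charts is `H^s` by restriction -/
theorem hs_iff (hC : St_C1) (hG : St_GLUE) {s : ℝ} (hs : 2 < s) {M : Set ℂ} (A : Atl M)
    [ChartedSpace (EuclideanHalfSpace 2) M] (hF : Fit A) (hM : IsCompact M) (e : M → M)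
    (f : ℂ → ℂ) (hf : ∀ x : M, (e x : ℂ) = f x) : IsHs s e ↔ IsH s M f := by
  have h1 := hC s hs M A hF univ (fun _ => e) (fun _ => f) (fun _ _ x => hf x)
  constructor
  · intro h
    have h2 : C1Hs s univ (fun _ : ℝ => e) := by
      intro t₀ _ p
      obtain ⟨u, hu⟩ := h p
      exact ⟨fun _ => u, contDiffWithinAt_const, hu.prod_inr _⟩
    obtain ⟨g, hg⟩ := hG s (by linarith) M hM (fun _ => f)
    exact ⟨g 0, fun z hz => (hg univ (h1.1 h2)).2 0 (mem_univ _) z hz⟩
  · rintro ⟨g, hg⟩ p
    have h2 : Loc s M univ (fun _ : ℝ => f) := by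
      intro t₀ _ z _
      refine ⟨fun _ => g, contDiffWithinAt_const, ?_⟩
      have h3 : ∀ᶠ w in 𝓝[M] z, f w = bessel s g w :=
        eventually_mem_nhdsWithin.mono fun w hw => hg w hw
      exact h3.prod_inr _
    obtain ⟨U, -, hU⟩ := h1.2 h2 0 (mem_univ _) p
    have h4 : Tendsto (fun x : M => ((0 : ℝ), x)) (𝓝 p) (𝓝[univ] (0 : ℝ) ×ˢ 𝓝 p) := by
      refine Tendsto.prodMk ?_ tendsto_id
      rw [nhdsWithin_univ]
      exact tendsto_const_nhds
    exact ⟨U 0, h4.eventually hU⟩

/-- maps of class `H^s` are measurable -/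
theorem meas_of_isH (hE : St_EV) {s : ℝ} (hs : 2 < s) {M : Set ℂ} (e : M → M) (f : ℂ → ℂ)
    (hf : ∀ x : M, (e x : ℂ) = f x) (h : IsH s M f) : Measurable e := by
  obtain ⟨g, hg⟩ := h
  obtain ⟨⟨Bs, hB⟩, -⟩ := hE s (by linarith)
  have h1 : Continuous e := by
    refine continuous_induced_rng.2 ?_
    have h2 : (Subtype.val ∘ e) = fun x : M => Bs g x := by
      funext x
      rw [hB, ← hg x x.2]
      exact hf x
    rw [h2]
    exact (Bs g).continuous.comp continuous_subtype_val
  exact h1.measurable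

theorem image_val {M : Set ℂ} (e : M → M) (f : ℂ → ℂ) (hf : ∀ x : M, (e x : ℂ) = f x)
    (B : Set M) : f '' (Subtype.val '' B) = Subtype.val '' (e '' B) := by
  rw [image_image, image_image]
  exact image_congr fun x _ => (hf x).symm

end T23

theorem st_DICT (hC : St_C1) (hG : St_GLUE) (hE : St_EV) : St_DICT := by
  classical
  intro s hs M A _ hF hM f
  have hMm : MeasurableSet M := hM.measurableSet
  constructor
  · rintro η hη ⟨h1, h2, h3⟩
    let f' : ℂ → ℂ := fun z => if h : z ∈ M then (η.symm ⟨z, h⟩ : ℂ) else z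
    have hf' : ∀ x : M, (η.symm x : ℂ) = f' x := fun x => by
      simp only [f', dif_pos x.2]
    have h2' : IsH s M f' := (T23.hs_iff hC hG hs A hF hM _ f' hf').1 h2
    refine ⟨(T23.hs_iff hC hG hs A hF hM _ f hη).1 h1, ?_, ⟨f', h2', ?_, ?_, ?_⟩, ?_⟩
    · intro z hz
      have := (η ⟨z, hz⟩).2
      rwa [hη] at this
    · intro z hz
      have := (η.symm ⟨z, hz⟩).2
      rwa [hf'] at this
    · intro z hz
      have h4 : f z = η ⟨z, hz⟩ := (hη ⟨z, hz⟩).symm
      rw [h4, ← hf', Equiv.symm_apply_apply]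
    · intro z hz
      have h4 : f' z = η.symm ⟨z, hz⟩ := (hf' ⟨z, hz⟩).symm
      rw [h4, ← hη, Equiv.apply_symm_apply]
    · intro B hB hBm
      have hB' : MeasurableSet (Subtype.val ⁻¹' B : Set M) := measurable_subtype_coe hBm
      have h4 : Subtype.val '' (Subtype.val ⁻¹' B : Set M) = B := by
        rw [Subtype.image_preimage_coe]
        exact inter_eq_right.2 hB
      have h5 : MeasurableSet (η '' (Subtype.val ⁻¹' B : Set M)) := by
        rw [Equiv.image_eq_preimage_symm]
        exact T23.meas_of_isH hE hs _ f' hf' h2' hB'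
      have h6 := h3.measure_preimage h5.nullMeasurableSet
      rw [η.preimage_image, comap_subtype_coe_apply hMm, comap_subtype_coe_apply hMm, h4,
        ← T23.image_val η f hη, h4] at h6
      exact h6.symm
  · rintro ⟨h1, h2, ⟨f', h3, h4, h5, h6⟩, h7⟩
    let η : M ≃ M :=
      { toFun := fun x => ⟨f x, h2 x.2⟩
        invFun := fun x => ⟨f' x, h4 x.2⟩
        left_inv := fun x => Subtype.ext (h5 x.2)
        right_inv := fun x => Subtype.ext (h6 x.2) }
    have hη : ∀ x : M, (η x : ℂ) = f x := fun _ => rfl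
    have hη' : ∀ x : M, (η.symm x : ℂ) = f' x := fun _ => rfl
    have hm : Measurable η := T23.meas_of_isH hE hs _ f hη h1
    refine ⟨η, hη, (T23.hs_iff hC hG hs A hF hM _ f hη).2 h1,
      (T23.hs_iff hC hG hs A hF hM _ f' hη').2 h3, hm, ?_⟩
    ext B hB
    have h8 : MeasurableSet (Subtype.val '' (η ⁻¹' B) : Set ℂ) :=
      MeasurableSet.subtype_image hMm (hm hB)
    rw [Measure.map_apply hm hB, comap_subtype_coe_apply hMm, comap_subtype_coe_apply hMm,
      ← h7 _ (Subtype.coe_image_subset M _) h8, T23.image_val η f hη, η.image_preimage]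

end Pool.Agent.Lib.LM
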