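import Pool.Agent.Lib.LM.Blue

/-! The energy on the manifold is the energy on the plane domain. -/

set_option autoImplicit false

open MeasureTheory Set Filter
open scoped ContDiff ENNReal Manifold Topology

namespace Pool.Agent.Lib.LM

open Pool.Agent.Lib.ISOC (IsMetric energyG qf)

namespace T24

theorem bf_self (E F G : ℂ → ℝ) (z w : ℂ) : bf E F G z w w = qf E F G z w := by
  unfold bf qf; ring

end T24

theorem st_EN (hV : St_VAL) : St_EN := by
  intro M A _ _ hA hM E F G g hg γ γ' hγ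
  unfold energy energyG
  congr 1
  refine setLIntegral_congr_fun measurableSet_Ioo fun t ht => ?_
  have h3 := (hV M A hA).2.2.1
  rw [← lintegral_subtype_comap hM.measurableSet]
  refine lintegral_congr fun x => ?_
  have e : (fun τ => (γ τ x : ℂ)) =ᶠ[𝓝 t] fun τ => γ' τ x := by
    filter_upwards [Icc_mem_nhds ht.1 ht.2] with τ hτ using hγ τ hτ x
  have e1 := h3 (fun τ => γ τ x) t
  have e2 := hg (γ t x) (mfderiv 𝓘(ℝ, ℝ) (𝓡∂ 2) (fun τ => γ τ x) t (1 : ℝ))
    (mfderiv 𝓘(ℝ, ℝ) (𝓡∂ 2) (fun τ => γ τ x) t (1 : ℝ))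
  rw [T24.bf_self, e1, e.deriv_eq, hγ t (Ioo_subset_Icc_self ht) x] at e2
  exact congrArg ENNReal.ofReal e2

end Pool.Agent.Lib.LM
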