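import Pool.Agent.Lib.LM.Blue

set_option autoImplicit false

open MeasureTheory Set Filter
open scoped FourierTransform ContDiff SchwartzMap

namespace Pool.Agent.Lib.LM

open Pool.Agent.Lib.MP_f62ea7_gt (L2 bessel)

namespace T66

theorem wt_l2 {s : ℝ} (hs : 1 < s) : MemLp (fun ξ : ℂ => (wt (-s) ξ : ℂ)) 2 volume := by
  refine MemLp.ofReal (K := ℂ) (f := wt (-s)) ?_
  have hc : Continuous (wt (-s)) :=
    Continuous.rpow_const (by fun_prop) fun ξ => Or.inl (by positivity)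
  rw [memLp_two_iff_integrable_sq hc.aestronglyMeasurable]
  have h := integrable_rpow_neg_one_add_norm_sq (E := ℂ) (μ := volume) (r := 2 * s)
    (by rw [Complex.finrank_real_complex]; push_cast; linarith)
  refine h.congr (Eventually.of_forall fun ξ => ?_)
  beta_reduce
  rw [wt, ← Real.rpow_natCast ((_ : ℝ) ^ (_ : ℝ)), ← Real.rpow_mul (by positivity)]
  congr 1
  push_cast
  ring

/-- uniqueness for the inverse Fourier transform of integrable functions -/
theorem uniq {a b : ℂ → ℂ} (ha : Integrable a) (hb : Integrable b) (h : 𝓕⁻ a = 𝓕⁻ b) :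
    a =ᵐ[volume] b := by
  refine ae_eq_of_integral_contDiff_smul_eq ha.locallyIntegrable hb.locallyIntegrable
    fun φ h1 h2 => ?_
  let ψ : 𝓢(ℂ, ℂ) := (h2.comp_left (g := fun x : ℝ => (x : ℂ)) (by simp)).toSchwartzMap
    (Complex.ofRealCLM.contDiff.comp h1)
  have key : ∀ c : ℂ → ℂ, Integrable c → ∫ x, φ x • c x = ∫ x, (𝓕 ψ : 𝓢(ℂ, ℂ)) x • 𝓕⁻ c x := by
    intro c hc
    have := VectorFourier.integral_fourierIntegral_smul_eq_flip (L := -innerₗ ℂ)
      Real.continuous_fourierChar (by exact continuous_inner.neg)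
      ((𝓕 ψ : 𝓢(ℂ, ℂ)).integrable (μ := volume)) hc
    have e : (-innerₗ ℂ).flip = -innerₗ ℂ := by
      ext; simp; ring
    rw [e] at this
    refine Eq.trans (integral_congr_ae (Eventually.of_forall fun ξ => ?_)) this
    have e2 : (𝓕⁻ (𝓕 ψ : 𝓢(ℂ, ℂ)) : 𝓢(ℂ, ℂ)) ξ = φ ξ := by
      rw [FourierTransform.fourierInv_fourier_eq]
      rfl
    rw [SchwartzMap.fourierInv_coe] at e2
    exact congrArg (· * c ξ) e2.symm
  rw [key a ha, key b hb, h]

end T66

theorem st_EV : St_EV := by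
  intro s hs
  let W : L2 := (T66.wt_l2 hs).toLp _
  let B : ℂ →L[ℂ] ℂ →L[ℂ] ℂ := ContinuousLinearMap.mul ℂ ℂ
  let T : L2 →L[ℂ] Lp ℂ 1 (volume : Measure ℂ) := B.holderL volume 2 2 1 W
  have hT : ∀ g : L2, (T g : ℂ → ℂ) =ᵐ[volume] fun ξ : ℂ => wt (-s) ξ • g ξ := fun g => by
    filter_upwards [B.coeFn_holder (r := 1) W g, (T66.wt_l2 hs).coeFn_toLp] with ξ h1 h2
    exact h1.trans (by rw [show W ξ = _ from h2]; rfl)
  refine ⟨⟨(Real.Lp.fourierTransformInvCLM ℂ ℂ).comp T, fun g z => ?_⟩, fun g g' h => ?_⟩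
  · simp only [ContinuousLinearMap.comp_apply, Real.Lp.fourierTransformInvCLM_apply,
      Real.Lp.fourierTransformInv_apply]
    exact Real.fourierInv_congr_ae (hT g) z
  · refine Lp.ext ?_
    filter_upwards [T66.uniq ((L1.integrable_coeFn (T g)).congr (hT g))
      ((L1.integrable_coeFn (T g')).congr (hT g')) h] with ξ e
    exact smul_right_injective ℂ (show wt (-s) ξ ≠ 0 by unfold wt; positivity) e

end Pool.Agent.Lib.LM
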