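import Pool.Agent.Lib.LM.Blue

/-! Extension of a locally Lipschitz lift from a dense set. -/

set_option autoImplicit false

open MeasureTheory Set Filter
open scoped FourierTransform ContDiff ENNReal NNReal Manifold Topology ComplexConjugate

namespace Pool.Agent.Lib.LM

open Pool.Agent.Lib.MP_f62ea7_gt (L2 bessel)

namespace T13

/-- a map that is Lipschitz on bounded parts of a dense set has limits along that set -/
theorem ext_limit {X Y : Type} [NormedAddCommGroup X] [NormedAddCommGroup Y] [CompleteSpace Y]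
    {D : Set X} (hD : Dense D) (f : X → Y)
    (hL : ∀ R : ℝ, ∃ C : ℝ≥0, ∀ x ∈ D, ∀ y ∈ D, ‖x‖ ≤ R → ‖y‖ ≤ R → ‖f x - f y‖ ≤ C * ‖x - y‖)
    (x : X) : ∃ y, Tendsto f (𝓝[D] x) (𝓝 y) := by
  have : (𝓝[D] x).NeBot := mem_closure_iff_nhdsWithin_neBot.1 (hD x)
  apply cauchy_map_iff_exists_tendsto.1
  rw [Metric.cauchy_iff]
  refine ⟨inferInstance, fun ε hε => ?_⟩
  obtain ⟨C, hC⟩ := hL (‖x‖ + 1)
  have hC0 : (0 : ℝ) ≤ C := C.2
  have hδ : 0 < min 1 (ε / (2 * (C + 1))) := lt_min one_pos (by positivity)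
  refine ⟨f '' (Metric.ball x (min 1 (ε / (2 * (C + 1)))) ∩ D), ?_, ?_⟩
  · exact image_mem_map (inter_mem (mem_nhdsWithin_of_mem_nhds (Metric.ball_mem_nhds x hδ))
      self_mem_nhdsWithin)
  · rintro _ ⟨a, ⟨ha, haD⟩, rfl⟩ _ ⟨b, ⟨hb, hbD⟩, rfl⟩
    rw [Metric.mem_ball, dist_eq_norm, lt_min_iff] at ha hb
    have ha1 : ‖a‖ ≤ ‖x‖ + 1 := by
      have := norm_le_norm_add_norm_sub' a x
      linarith [ha.1]
    have hb1 : ‖b‖ ≤ ‖x‖ + 1 := by
      have := norm_le_norm_add_norm_sub' b x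
      linarith [hb.1]
    have hab : ‖a - b‖ < ε / (C + 1) := by
      have h1 : ‖a - b‖ ≤ ‖a - x‖ + ‖b - x‖ := by
        have := norm_sub_le (a - x) (b - x)
        rwa [sub_sub_sub_cancel_right] at this
      have h2 : ε / (2 * (C + 1)) + ε / (2 * (C + 1)) = ε / (C + 1) := by
        field_simp
        ring
      linarith [ha.2, hb.2]
    rw [dist_eq_norm]
    have h3 := hC a haD b hbD ha1 hb1
    have h4 : ((C : ℝ) + 1) * ‖a - b‖ < ε := by
      rw [lt_div_iff₀ (by positivity)] at hab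
      linarith
    nlinarith [norm_nonneg (a - b)]

end T13

theorem st_EXT (hEV : St_EV) (hTST : St_TST) : St_EXT := by
  intro s hs X _ D P hD hc hT hL
  obtain ⟨⟨Bs, hBs⟩, hinj⟩ := hEV s hs
  have h0 : ∀ x, ∃ g : L2, x ∈ D → bessel s g = P x := by
    intro x
    by_cases hx : x ∈ D
    · obtain ⟨g, -, hg, -⟩ := (hTST (P x) (hT x hx)).1 s
      exact ⟨g, fun _ => hg⟩
    · exact ⟨0, fun h => absurd h hx⟩
  choose f hf using h0
  have hlip : ∀ R : ℝ, ∃ C : ℝ≥0, ∀ x ∈ D, ∀ y ∈ D, ‖x‖ ≤ R → ‖y‖ ≤ R →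
      ‖f x - f y‖ ≤ C * ‖x - y‖ := by
    intro R
    obtain ⟨C, hC⟩ := hL R
    refine ⟨C, fun x hx y hy hxR hyR => ?_⟩
    have hxy : Tst (P x - P y) := ⟨(hT x hx).1.sub (hT y hy).1, (hT x hx).2.sub (hT y hy).2⟩
    obtain ⟨g, -, hg, hn⟩ := (hTST _ hxy).1 s
    have he : g = f x - f y := by
      apply hinj
      funext z
      rw [hg, ← hBs, map_sub, BoundedContinuousFunction.sub_apply, hBs, hBs, hf x hx, hf y hy]
      rfl
    have h1 := hC x hx y hy hxR hyR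
    rw [← hn, he, enorm_eq_nnnorm, enorm_eq_nnnorm, ← ENNReal.coe_mul, ENNReal.coe_le_coe] at h1
    exact_mod_cast h1
  have hlim := T13.ext_limit hD f hlip
  refine ⟨extendFrom D f, continuous_extendFrom hD hlim, fun x => ?_⟩
  funext z
  have : (𝓝[D] x).NeBot := mem_closure_iff_nhdsWithin_neBot.1 (hD x)
  have h1 : Tendsto f (𝓝[D] x) (𝓝 (extendFrom D f x)) := tendsto_extendFrom (hlim x)
  have hev : Continuous fun g : L2 => Bs g z :=
    (continuous_eval_const z).comp Bs.continuous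
  have h2 : Tendsto (fun y => Bs (f y) z) (𝓝[D] x) (𝓝 (Bs (extendFrom D f x) z)) :=
    (hev.tendsto _).comp h1
  have h3 : Tendsto (fun y => P y z) (𝓝[D] x) (𝓝 (P x z)) :=
    ((hc z).tendsto x).mono_left nhdsWithin_le_nhds
  have h4 : (fun y => Bs (f y) z) =ᶠ[𝓝[D] x] fun y => P y z := by
    filter_upwards [self_mem_nhdsWithin] with y hy
    rw [hBs, hf y hy]
  rw [← hBs]
  exact tendsto_nhds_unique (h2.congr' h4) h3

end Pool.Agent.Lib.LM
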