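import Pool.Agent.Lib.LM.Blue

set_option autoImplicit false

open MeasureTheory Set Filter
open scoped FourierTransform ContDiff ENNReal NNReal Manifold Topology ComplexConjugate

namespace Pool.Agent.Lib.LM

open Pool.Agent.Lib.MP_f62ea7_gt (L2 bessel)

namespace T65

/-- a projection that only depends on the values on `M` and keeps them -/
theorem exists_proj (Bs : L2 →L[ℂ] BoundedContinuousFunction ℂ ℂ) (M : Set ℂ) :
    ∃ Q : L2 →L[ℂ] L2, (∀ v, ∀ z ∈ M, Bs (Q v) z = Bs v z) ∧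
      ∀ v w, (∀ z ∈ M, Bs v z = Bs w z) → Q v = Q w := by
  let ev : M → L2 →L[ℂ] ℂ := fun z => (BoundedContinuousFunction.evalCLM ℂ (z : ℂ)).comp Bs
  have hev : ∀ (z : M) v, ev z v = Bs v z := fun z v => rfl
  let N : Submodule ℂ L2 := ⨅ z, LinearMap.ker (ev z : L2 →ₗ[ℂ] ℂ)
  have hN : ∀ v, v ∈ N ↔ ∀ z, ev z v = 0 := fun v => by simp [N, Submodule.mem_iInf]
  have hc : IsClosed (N : Set L2) := by
    have : (N : Set L2) = ⋂ z, (ev z) ⁻¹' {0} := by
      ext v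
      simp only [SetLike.mem_coe, hN, mem_iInter, mem_preimage, mem_singleton_iff]
    rw [this]
    exact isClosed_iInter fun z => isClosed_singleton.preimage (ev z).continuous
  have : CompleteSpace N := hc.completeSpace_coe
  refine ⟨ContinuousLinearMap.id ℂ L2 - N.starProjection, fun v z hz => ?_, fun v w e => ?_⟩
  · have h0 := (hN _).1 (N.starProjection_apply_mem v) ⟨z, hz⟩
    rw [← hev ⟨z, hz⟩, ← hev ⟨z, hz⟩, sub_apply, map_sub, h0, sub_zero]
    rfl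
  · have hm : v - w ∈ N := (hN _).2 fun z => by
      rw [map_sub, hev, hev, e z z.2, sub_self]
    rw [← sub_eq_zero, ← map_sub, sub_apply, ContinuousLinearMap.id_apply,
      Submodule.starProjection_eq_self_iff.2 hm, sub_self]

/-- local lifts at one time glue over the compact set -/
theorem local_lift (hEV : St_EV) (hALG : St_ALG) (hTST : St_TST) {s : ℝ} (hs : 1 < s)
    {M : Set ℂ} (hM : IsCompact M) {γ : ℝ → ℂ → ℂ} {J : Set ℝ} (h : Loc s M J γ) {t₀ : ℝ}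
    (ht : t₀ ∈ J) : ∃ U : ℝ → L2, ContDiffWithinAt ℝ 1 U J t₀ ∧
      ∀ᶠ t in 𝓝[J] t₀, ∀ z ∈ M, γ t z = bessel s (U t) z := by
  classical
  obtain ⟨⟨Bs, hBs⟩, -⟩ := hEV s hs
  obtain ⟨B, hB⟩ := hALG s hs
  have key : ∀ p : M, ∃ (U : ℝ → L2) (O : Set ℂ), ContDiffWithinAt ℝ 1 U J t₀ ∧ IsOpen O ∧
      (p : ℂ) ∈ O ∧ O ⊆ Metric.ball (p : ℂ) 1 ∧
      ∀ᶠ t in 𝓝[J] t₀, ∀ z ∈ M, z ∈ O → γ t z = bessel s (U t) z := fun p => by
    obtain ⟨U, hU, he⟩ := h t₀ ht p p.2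
    obtain ⟨pa, ha, pb, hb, hab⟩ := eventually_prod_iff.1 he
    obtain ⟨O, hO, hpO, hsub⟩ := mem_nhdsWithin.1 hb
    refine ⟨U, O ∩ Metric.ball (p : ℂ) 1, hU, hO.inter Metric.isOpen_ball,
      ⟨hpO, Metric.mem_ball_self one_pos⟩, inter_subset_right, ?_⟩
    filter_upwards [ha] with t hta z hz hzO
    exact hab hta (hsub ⟨hzO.1, hz⟩)
  choose U O hU hO hpO hball hev using key
  obtain ⟨T, hT⟩ := hM.elim_finite_subcover O hO fun z hz => mem_iUnion.2 ⟨⟨z, hz⟩, hpO _⟩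
  obtain ⟨ρ, hρ⟩ := SmoothPartitionOfUnity.exists_isSubordinate 𝓘(ℝ, ℂ) hM.isClosed
    (fun k : T => O k) (fun k => hO k) fun z hz => by
      obtain ⟨k, hk, hz'⟩ := mem_iUnion₂.1 (hT hz)
      exact mem_iUnion.2 ⟨⟨k, hk⟩, hz'⟩
  have htst : ∀ k : T, Tst fun z => ((ρ k z : ℝ) : ℂ) := fun k => by
    refine ⟨Complex.ofRealCLM.contDiff.comp (ρ k).contMDiff.contDiff, ?_⟩
    have hc : HasCompactSupport (ρ k) :=
      (isCompact_closedBall ((k : M) : ℂ) 1).of_isClosed_subset (isClosed_tsupport _)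
        (((hρ k).trans (hball k)).trans Metric.ball_subset_closedBall)
    exact hc.comp_left (g := fun x : ℝ => (x : ℂ)) Complex.ofReal_zero
  choose r hr using fun k : T => (hTST _ (htst k)).1 s
  refine ⟨fun t => ∑ k : T, B (r k) (U k t), ContDiffWithinAt.sum fun k _ =>
    ((B (r k)).restrictScalars ℝ).contDiff.contDiffAt.comp_contDiffWithinAt t₀ (hU k), ?_⟩
  filter_upwards [eventually_all.2 fun k : T => hev k] with t htk z hz
  have h1 : ∑ k : T, ρ k z = 1 := by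
    rw [← finsum_eq_sum_of_fintype]
    exact ρ.sum_eq_one hz
  rw [← hBs, map_sum, BoundedContinuousFunction.coe_sum, Finset.sum_apply]
  have h2 : ∀ k : T, Bs (B (r k) (U k t)) z = ((ρ k z : ℝ) : ℂ) * γ t z := fun k => by
    rw [hBs, hB, Pi.mul_apply, (hr k).2.1]
    beta_reduce
    by_cases h0 : ρ k z = 0
    · rw [h0, Complex.ofReal_zero, zero_mul, zero_mul]
    · rw [htk k z hz (hρ k (subset_tsupport _ h0))]
  rw [Finset.sum_congr rfl fun k _ => h2 k, ← Finset.sum_mul, ← Complex.ofReal_sum, h1,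
    Complex.ofReal_one, one_mul]

end T65

theorem st_GLUE (hEV : St_EV) (hALG : St_ALG) (hTST : St_TST) : St_GLUE := by
  classical
  intro s hs M hM γ
  obtain ⟨⟨Bs, hBs⟩, -⟩ := hEV s hs
  obtain ⟨Q, hQ, hQ'⟩ := T65.exists_proj Bs M
  refine ⟨fun t => if e : ∃ v, ∀ z ∈ M, γ t z = bessel s v z then Q e.choose else 0,
    fun J hJ => ?_⟩
  have e : ∀ (t : ℝ) (v : L2), (∀ z ∈ M, γ t z = bessel s v z) →
      (if e : ∃ v, ∀ z ∈ M, γ t z = bessel s v z then Q e.choose else 0) = Q v := fun t v hv => by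
    have e : ∃ v, ∀ z ∈ M, γ t z = bessel s v z := ⟨v, hv⟩
    rw [dif_pos e]
    refine hQ' _ _ fun z hz => ?_
    rw [hBs, hBs, ← e.choose_spec z hz, hv z hz]
  refine ⟨fun t₀ ht => ?_, fun t₀ ht z hz => ?_⟩
  · obtain ⟨U, hU, he⟩ := T65.local_lift hEV hALG hTST hs hM hJ ht
    refine ((Q.restrictScalars ℝ).contDiff.contDiffAt.comp_contDiffWithinAt t₀
      hU).congr_of_eventuallyEq ?_ (e t₀ _ (he.self_of_nhdsWithin ht))
    filter_upwards [he] with t h
    exact e t _ h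
  · obtain ⟨U, -, he⟩ := T65.local_lift hEV hALG hTST hs hM hJ ht
    have h := he.self_of_nhdsWithin ht
    beta_reduce
    rw [e t₀ _ h, ← hBs, hQ _ z hz, hBs, h z hz]

end Pool.Agent.Lib.LM
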