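import Pool.Agent.Lib.LM.Blue
import Pool.Agent.Lib.MP_0281e9_an.TurSm

/-! Hadamard's lemma for smooth functions of finitely many complex variables. -/

set_option autoImplicit false

open MeasureTheory Set Filter
open scoped ContDiff ComplexConjugate

namespace Pool.Agent.Lib.LM

namespace T97

/-- a real linear functional splits into a complex linear and an antilinear part -/
theorem split_lin {ι : Type} [Fintype ι] [DecidableEq ι] (L : (ι → ℂ) →L[ℝ] ℂ) (h : ι → ℂ) :
    L h = ∑ i, (h i * ((L (Pi.single i 1) - Complex.I * L (Pi.single i Complex.I)) / 2) +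
      conj (h i) * ((L (Pi.single i 1) + Complex.I * L (Pi.single i Complex.I)) / 2)) := by
  have h1 : h = ∑ i, ((h i).re • (Pi.single i 1 : ι → ℂ) +
      (h i).im • (Pi.single i Complex.I : ι → ℂ)) := by
    funext j
    rw [Finset.sum_apply, Finset.sum_eq_single j]
    · simp [Complex.re_add_im]
    · intro b _ hb
      simp [Pi.single_eq_of_ne (Ne.symm hb)]
    · simp
  conv_lhs => rw [h1]
  rw [map_sum]
  refine Finset.sum_congr rfl fun i _ => ?_
  rw [map_add, map_smul, map_smul]
  have h2 : h i = ((h i).re : ℂ) + ((h i).im : ℂ) * Complex.I := (Complex.re_add_im _).symm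
  have h3 : conj (h i) = ((h i).re : ℂ) - ((h i).im : ℂ) * Complex.I := by
    apply Complex.ext <;> simp
  rw [h3]
  generalize (h i).re = p at h2 ⊢
  generalize (h i).im = q at h2 ⊢
  rw [h2, Complex.real_smul, Complex.real_smul]
  linear_combination (-(q : ℂ) * L (Pi.single i Complex.I)) * (-1) * Complex.I_mul_I

end T97

theorem st_HAD : St_HAD := by
  classical
  intro ι _ f hf
  have hF : ContDiff ℝ ∞ (fderiv ℝ f) :=
    hf.fderiv_right MP_0281e9_an.BT.infty_add_one_le
  let G : (ι ⊕ ι → ℂ) × ℝ → ((ι → ℂ) →L[ℝ] ℂ) := fun q =>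
    fderiv ℝ f ((fun i => q.1 (Sum.inr i)) + q.2 • ((fun i => q.1 (Sum.inl i)) -
      fun i => q.1 (Sum.inr i)))
  have hG : ContDiff ℝ ∞ G := hF.comp (by fun_prop)
  let L : (ι ⊕ ι → ℂ) → ((ι → ℂ) →L[ℝ] ℂ) := fun w => ∫ s in (0:ℝ)..1, G (w, s)
  have hL : ContDiff ℝ ∞ L := MP_0281e9_an.BT.contDiff_param_integral hG
  have hLv : ∀ v : ι → ℂ, ContDiff ℝ ∞ fun w => L w v := fun v => hL.clm_apply contDiff_const
  refine ⟨fun i w => (L w (Pi.single i 1) - Complex.I * L w (Pi.single i Complex.I)) / 2,
    fun i w => (L w (Pi.single i 1) + Complex.I * L w (Pi.single i Complex.I)) / 2,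
    fun i => ⟨((hLv _).sub (contDiff_const.mul (hLv _))).div_const _,
      ((hLv _).add (contDiff_const.mul (hLv _))).div_const _⟩, fun y z => ?_⟩
  have hGe : ∀ s : ℝ, G (Sum.elim y z, s) = fderiv ℝ f (z + s • (y - z)) := fun s => rfl
  have hc : Continuous fun s : ℝ => fderiv ℝ f (z + s • (y - z)) :=
    hF.continuous.comp (by fun_prop)
  have key : f y - f z = L (Sum.elim y z) (y - z) := by
    have hd : ∀ s : ℝ, HasDerivAt (fun u : ℝ => f (z + u • (y - z)))
        (fderiv ℝ f (z + s • (y - z)) (y - z)) s := by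
      intro s
      have h1 := ((hf.differentiable (by simp)) (z + s • (y - z))).hasFDerivAt
      have h2 : HasDerivAt (fun u : ℝ => z + u • (y - z)) (y - z) s := by
        simpa using ((hasDerivAt_id s).smul_const (y - z)).const_add z
      exact h1.comp_hasDerivAt s h2
    have h3 := intervalIntegral.integral_eq_sub_of_hasDerivAt (a := 0) (b := 1)
      (fun s _ => hd s) ((hc.clm_apply continuous_const).intervalIntegrable _ _)
    have h4 : L (Sum.elim y z) (y - z) =
        ∫ s in (0:ℝ)..1, fderiv ℝ f (z + s • (y - z)) (y - z) := by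
      show (∫ s in (0:ℝ)..1, G (Sum.elim y z, s)) (y - z) = _
      simp only [hGe]
      exact ContinuousLinearMap.intervalIntegral_apply (hc.intervalIntegrable _ _) _
    rw [h4, h3]
    simp
  rw [key, T97.split_lin]
  rfl

end Pool.Agent.Lib.LM
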