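import Pool.Agent.Lib.LM.Blue

/-! Block INTERP: interpolation between weighted spaces. -/

set_option autoImplicit false

open MeasureTheory Set Filter
open scoped ENNReal NNReal

namespace Pool.Agent.Lib.LM

namespace T35

theorem sqn {X : Type} [MeasurableSpace X] (μ : Measure X) (f : X → ℂ) :
    eLpNorm f 2 μ ^ 2 = ∫⁻ x, ‖f x‖ₑ ^ 2 ∂μ := by
  have := eLpNorm_nnreal_pow_eq_lintegral (f := f) (μ := μ) (p := 2) two_ne_zero
  simpa using this

theorem ker_int {θ : ℝ} (h0 : 0 < θ) (h1 : θ < 1) :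
    IntegrableOn (fun s : ℝ => min 1 s ^ 2 * s ^ (-2 * θ - 1)) (Ioi 0) := by
  rw [← Ioc_union_Ioi_eq_Ioi zero_le_one]
  refine IntegrableOn.union ?_ ?_
  · have := (intervalIntegral.intervalIntegrable_rpow' (a := 0) (b := 1) (r := 1 - 2 * θ)
      (by linarith)).1
    refine this.congr_fun (fun s hs => ?_) measurableSet_Ioc
    simp only [min_eq_right hs.2]
    rw [← Real.rpow_natCast, ← Real.rpow_add hs.1]; congr 1; push_cast; ring
  · refine (integrableOn_Ioi_rpow_of_lt (a := -2 * θ - 1) (by linarith) one_pos).congr_fun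
      (fun s hs => ?_) measurableSet_Ioi
    simp only [min_eq_left (le_of_lt (mem_Ioi.1 hs)), one_pow, one_mul]

theorem ker {θ : ℝ} (h0 : 0 < θ) (h1 : θ < 1) : ∃ c : ℝ, 0 < c ∧ ∀ w : ℝ, 0 < w →
    ∫⁻ t in Ioi (0 : ℝ), ENNReal.ofReal (t ^ (-2 * θ - 1) * min 1 (t * w) ^ 2)
      = ENNReal.ofReal (c * (w ^ θ) ^ 2) := by
  have hi := ker_int h0 h1
  have hp : ∀ s ∈ Ioi (0 : ℝ), 0 < min 1 s ^ 2 * s ^ (-2 * θ - 1) := fun s hs =>
    mul_pos (pow_pos (lt_min one_pos hs) 2) (Real.rpow_pos_of_pos hs _)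
  refine ⟨∫ s in Ioi (0 : ℝ), min 1 s ^ 2 * s ^ (-2 * θ - 1), ?_, fun w hw => ?_⟩
  · rw [setIntegral_pos_iff_support_of_nonneg_ae ((ae_restrict_mem measurableSet_Ioi).mono
      fun s hs => (hp s hs).le) hi]
    refine lt_of_lt_of_le ?_ (measure_mono (show Ioi 0 ⊆ _ from fun s hs => ⟨(hp s hs).ne', hs⟩))
    simp
  · have e : ∀ t ∈ Ioi (0 : ℝ), t ^ (-2 * θ - 1) * min 1 (t * w) ^ 2
        = w ^ (2 * θ + 1) * (min 1 (w * t) ^ 2 * (w * t) ^ (-2 * θ - 1)) := fun t ht => by
      have h2 : w ^ (2 * θ + 1) * w ^ (-2 * θ - 1) = 1 := by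
        rw [← Real.rpow_add hw, show 2 * θ + 1 + (-2 * θ - 1) = 0 by ring, Real.rpow_zero]
      rw [Real.mul_rpow hw.le (le_of_lt ht), mul_comm t w]
      linear_combination (-(t ^ (-2 * θ - 1) * min 1 (w * t) ^ 2)) * h2
    have hi' : IntegrableOn (fun t : ℝ => min 1 (w * t) ^ 2 * (w * t) ^ (-2 * θ - 1)) (Ioi 0) :=
      (integrableOn_Ioi_comp_mul_left_iff (fun s : ℝ => min 1 s ^ 2 * s ^ (-2 * θ - 1)) 0 hw).2
        (by rwa [mul_zero])
    rw [setLIntegral_congr_fun measurableSet_Ioi fun t ht => by rw [e t ht],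
      ← ofReal_integral_eq_lintegral_ofReal (hi'.const_mul _)
        ((ae_restrict_mem measurableSet_Ioi).mono fun t ht =>
          mul_nonneg (Real.rpow_pos_of_pos hw _).le (hp _ (mul_pos hw ht)).le),
      integral_const_mul,
      integral_comp_mul_left_Ioi (fun s : ℝ => min 1 s ^ 2 * s ^ (-2 * θ - 1)) 0 hw, mul_zero,
      Real.rpow_add_one hw.ne', mul_comm 2 θ, Real.rpow_mul hw.le]
    congr 1
    simp only [smul_eq_mul, Real.rpow_ofNat]
    field_simp

theorem nsq (a : ℝ) (z : ℂ) : ‖a • z‖ₑ ^ 2 = ENNReal.ofReal (a ^ 2) * ‖z‖ₑ ^ 2 := by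
  rw [enorm_smul, mul_pow, Real.enorm_eq_ofReal_abs, ← ENNReal.ofReal_pow (abs_nonneg a), sq_abs]

theorem layer {θ c : ℝ} (hc : 0 < c) (H : ∀ w : ℝ, 0 < w →
    ∫⁻ t in Ioi (0 : ℝ), ENNReal.ofReal (t ^ (-2 * θ - 1) * min 1 (t * w) ^ 2)
      = ENNReal.ofReal (c * (w ^ θ) ^ 2)) {X : Type} [MeasurableSpace X] (μ : Measure X)
    [SFinite μ] {W : X → ℝ} (hW : Measurable W) (hW0 : ∀ x, 0 < W x) {f : X → ℂ}
    (hf : AEStronglyMeasurable f μ) :
    ENNReal.ofReal c * eLpNorm (fun x => W x ^ θ • f x) 2 μ ^ 2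
      = ∫⁻ t in Ioi (0 : ℝ), ENNReal.ofReal (t ^ (-2 * θ - 1))
        * eLpNorm (fun x => min 1 (t * W x) • f x) 2 μ ^ 2 := by
  have hm : AEMeasurable (Function.uncurry fun (x : X) (t : ℝ) =>
      ENNReal.ofReal (t ^ (-2 * θ - 1) * min 1 (t * W x) ^ 2) * ‖f x‖ₑ ^ 2)
      (μ.prod (volume.restrict (Ioi 0))) := by
    refine AEMeasurable.mul (Measurable.aemeasurable ?_) (hf.enorm.pow_const 2).comp_fst
    exact ((measurable_snd.pow_const _).mul ((measurable_const.min
      (measurable_snd.mul (hW.comp measurable_fst))).pow_const 2)).ennreal_ofReal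
  have h1 := lintegral_lintegral_swap hm
  simp only [sqn, nsq]
  rw [← lintegral_const_mul' _ _ ENNReal.ofReal_ne_top]
  refine Eq.trans (lintegral_congr fun x => ?_) (h1.trans
    (setLIntegral_congr_fun measurableSet_Ioi fun t ht => ?_))
  · rw [lintegral_mul_const' _ _ (by simp), H _ (hW0 x), ENNReal.ofReal_mul hc.le, mul_assoc]
  · rw [← lintegral_const_mul' _ _ ENNReal.ofReal_ne_top]
    refine lintegral_congr fun x => ?_
    rw [ENNReal.ofReal_mul (Real.rpow_pos_of_pos ht _).le, mul_assoc]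

end T35

open T35

theorem st_INTERP : St_INTERP := by
  intro θ h0 h1
  obtain ⟨c, hc, H⟩ := ker h0 h1
  refine ⟨2, fun X _ μ _ W hW hW0 D T C hm hsp hb φ hφ => ?_⟩
  have key : ∀ t : ℝ, 0 < t → eLpNorm (fun x => min 1 (t * W x) • T φ x) 2 μ
      ≤ 2 * C * eLpNorm (fun x => min 1 (t * W x) • φ x) 2 μ := by
    intro t ht
    have hA : MeasurableSet {x | 1 < t * W x} := measurableSet_lt measurable_const (hW.const_mul t)
    obtain ⟨d1, e⟩ := hsp φ hφ _ hA
    obtain ⟨d2, -⟩ := hsp φ hφ _ hA.compl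
    generalize hA' : {x | 1 < t * W x} = A at hA d1 d2 e
    have m0 : ∀ x, 0 ≤ min 1 (t * W x) := fun x => (lt_min one_pos (mul_pos ht (hW0 x))).le
    have mm : AEStronglyMeasurable (fun x => min 1 (t * W x)) μ :=
      (measurable_const.min (hW.const_mul t)).aestronglyMeasurable
    have s0 : eLpNorm (fun x => min 1 (t * W x) • T φ x) 2 μ
        ≤ eLpNorm (fun x => min 1 (t * W x) • T (A.indicator φ) x) 2 μ
          + eLpNorm (fun x => min 1 (t * W x) • T (Aᶜ.indicator φ) x) 2 μ := by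
      refine le_trans (le_of_eq (eLpNorm_congr_ae ?_))
        (eLpNorm_add_le (mm.smul (hm _ d1).2) (mm.smul (hm _ d2).2) one_le_two)
      filter_upwards [e] with x hx
      simp only [hx, Pi.add_apply, smul_add, Pi.smul_apply']
    have s1 : eLpNorm (fun x => min 1 (t * W x) • T (A.indicator φ) x) 2 μ
        ≤ C * eLpNorm (fun x => min 1 (t * W x) • φ x) 2 μ := by
      refine le_trans (eLpNorm_mono fun x => ?_) ((hb _ d1).1.trans
        (mul_le_mul_right (eLpNorm_mono fun x => ?_) _))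
      · rw [norm_smul, Real.norm_of_nonneg (m0 x)]
        exact mul_le_of_le_one_left (norm_nonneg _) (min_le_left _ _)
      · by_cases hx : x ∈ A
        · have : 1 < t * W x := by rwa [← hA'] at hx
          rw [indicator_of_mem hx, min_eq_left this.le, one_smul]
        · rw [indicator_of_notMem hx, norm_zero]; exact norm_nonneg _
    have s2 : eLpNorm (fun x => min 1 (t * W x) • T (Aᶜ.indicator φ) x) 2 μ
        ≤ C * eLpNorm (fun x => min 1 (t * W x) • φ x) 2 μ := by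
      have a1 : eLpNorm (fun x => min 1 (t * W x) • T (Aᶜ.indicator φ) x) 2 μ
          ≤ eLpNorm (t • fun x => W x • T (Aᶜ.indicator φ) x) 2 μ := eLpNorm_mono fun x => by
        rw [Pi.smul_apply, smul_smul, norm_smul, norm_smul, Real.norm_of_nonneg (m0 x),
          Real.norm_of_nonneg (mul_pos ht (hW0 x)).le]
        exact mul_le_mul_of_nonneg_right (min_le_right _ _) (norm_nonneg _)
      have a2 : eLpNorm (t • fun x => W x • Aᶜ.indicator φ x) 2 μ
          ≤ eLpNorm (fun x => min 1 (t * W x) • φ x) 2 μ := eLpNorm_mono fun x => by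
        by_cases hx : x ∈ Aᶜ
        · have : t * W x ≤ 1 := by rw [← hA'] at hx; exact not_lt.1 hx
          rw [Pi.smul_apply, smul_smul, indicator_of_mem hx, min_eq_right this]
        · rw [Pi.smul_apply, indicator_of_notMem hx, smul_zero, smul_zero, norm_zero]
          exact norm_nonneg _
      rw [eLpNorm_const_smul] at a1 a2
      refine a1.trans ((mul_le_mul_right (hb _ d2).2 _).trans ?_)
      rw [mul_left_comm]
      exact mul_le_mul_right a2 _
    refine s0.trans ((add_le_add s1 s2).trans (le_of_eq ?_))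
    ring
  have l1 := layer hc H μ hW hW0 (hm φ hφ).2
  have l2 := layer hc H μ hW hW0 (hm φ hφ).1.aestronglyMeasurable
  have l3 : ENNReal.ofReal c * eLpNorm (fun x => W x ^ θ • T φ x) 2 μ ^ 2
      ≤ ENNReal.ofReal c * (2 * C * eLpNorm (fun x => W x ^ θ • φ x) 2 μ) ^ 2 := by
    rw [mul_pow, mul_left_comm, l1, l2, ← lintegral_const_mul' _ _ (by finiteness)]
    refine setLIntegral_mono' measurableSet_Ioi fun t ht => ?_
    rw [mul_left_comm, ← mul_pow]
    exact mul_le_mul_right (pow_le_pow_left' (key t ht) 2) _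
  have l4 := (ENNReal.mul_le_mul_iff_right (ENNReal.ofReal_pos.2 hc).ne' ENNReal.ofReal_ne_top).1 l3
  simpa using (ENNReal.pow_le_pow_left_iff two_ne_zero).1 l4

end Pool.Agent.Lib.LM
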