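import Pool.Agent.Lib.LM.Blue

set_option autoImplicit false

open MeasureTheory
open scoped FourierTransform

namespace Pool.Agent.Lib.LM

open Pool.Agent.Lib.MP_f62ea7_gt (L2 bessel)

namespace T50

theorem transfer {V W : Type} [NormedAddCommGroup V] [InnerProductSpace ℝ V]
    [FiniteDimensional ℝ V] [MeasurableSpace V] [BorelSpace V]
    [NormedAddCommGroup W] [InnerProductSpace ℝ W]
    [FiniteDimensional ℝ W] [MeasurableSpace W] [BorelSpace W] (A : W ≃ₗᵢ[ℝ] V) :
    ∃ T : Lp ℂ 2 (volume : Measure V) →L[ℝ] Lp ℂ 2 (volume : Measure W),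
      ∀ (s : ℝ) (u : Lp ℂ 2 (volume : Measure V)) (z : W),
        𝓕⁻ (fun ξ : W => ((1 + ‖ξ‖ ^ 2) ^ (-s / 2) : ℝ) • T u ξ) z =
          𝓕⁻ (fun ξ : V => ((1 + ‖ξ‖ ^ 2) ^ (-s / 2) : ℝ) • u ξ) (A z) := by
  refine ⟨(Lp.compMeasurePreservingₗᵢ ℝ A A.measurePreserving).toContinuousLinearMap,
    fun s u z => ?_⟩
  rw [← Real.fourierInv_comp_linearIsometry A, Real.fourierInv_eq, Real.fourierInv_eq]
  refine integral_congr_ae ?_
  have h := Lp.coeFn_compMeasurePreserving u A.measurePreserving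
  filter_upwards [h] with ξ hξ
  have h2 : ((Lp.compMeasurePreservingₗᵢ ℝ A A.measurePreserving).toContinuousLinearMap u) ξ =
      u (A ξ) := hξ
  rw [h2]
  simp only [Function.comp_apply, LinearIsometryEquiv.norm_map]

end T50

theorem st_ISO : St_ISO := by
  refine ⟨T50.transfer io, ?_⟩
  obtain ⟨T, hT⟩ := T50.transfer io.symm
  refine ⟨T, fun s g z => ?_⟩
  have h := hT s g (io z)
  rw [LinearIsometryEquiv.symm_apply_apply] at h
  exact h

end Pool.Agent.Lib.LM
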