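import Pool.Agent.Lib.LM.Blue

set_option autoImplicit false

open Set
open scoped ContDiff Manifold Topology

namespace Pool.Agent.Lib.LM

namespace T1

theorem io_zero (w : ℂ) : io w 0 = w.re := by simp [io]

theorem io_one (w : ℂ) : io w 1 = w.im := by simp [io]

theorem io_symm_re (y : E2) : (io.symm y).re = y 0 := by rw [← io_zero, io.apply_symm_apply]

theorem mem_rng {y : E2} : y ∈ range (𝓡∂ 2) ↔ 0 ≤ y 0 := by
  rw [range_modelWithCornersEuclideanHalfSpace]; rfl

variable {M : Set ℂ} (A : Atl M)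

theorem fwd {p : ℂ} {x : M} (h : (x : ℂ) ∈ (A.κ p).source) :
    ((𝓡∂ 2).symm (io (A.κ p x))).1 = io (A.κ p x) :=
  (𝓡∂ 2).right_inv (mem_rng.2 (by rw [io_zero]; exact (A.half p x h).1 x.2))

theorem bwd {p : ℂ} {w : ℂ} (h : w ∈ (A.κ p).target) (h0 : 0 ≤ w.re) : (A.κ p).symm w ∈ M :=
  (A.half p _ ((A.κ p).map_target h)).2 (by rwa [(A.κ p).right_inv h])

open Classical in
/-- the chart at `p` -/
noncomputable def ch (p : M) : OpenPartialHomeomorph M (EuclideanHalfSpace 2) where
  toFun x := (𝓡∂ 2).symm (io (A.κ p x))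
  invFun y := if h : (A.κ p).symm (io.symm y.1) ∈ M then ⟨_, h⟩ else p
  source := {x | (x : ℂ) ∈ (A.κ p).source}
  target := {y | io.symm y.1 ∈ (A.κ p).target}
  map_source' x hx := by
    rw [mem_setOf_eq, fwd A hx, io.symm_apply_apply]
    exact (A.κ p).map_source hx
  map_target' y hy := by
    rw [mem_setOf_eq, dif_pos (bwd A hy (by rw [io_symm_re]; exact y.2))]
    exact (A.κ p).map_target hy
  left_inv' x hx := by
    simp only [fwd A hx, io.symm_apply_apply, (A.κ p).left_inv hx, x.2, dif_pos]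
  right_inv' y hy := by
    rw [dif_pos (bwd A hy (by rw [io_symm_re]; exact y.2)), (A.κ p).right_inv hy,
      io.apply_symm_apply]
    exact (𝓡∂ 2).left_inv y
  open_source := (A.κ p).open_source.preimage continuous_subtype_val
  open_target := (A.κ p).open_target.preimage (io.symm.continuous.comp continuous_subtype_val)
  continuousOn_toFun := ((𝓡∂ 2).continuous_symm.comp io.continuous).comp_continuousOn
    ((A.κ p).continuousOn.comp continuous_subtype_val.continuousOn fun _ h => h)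
  continuousOn_invFun := by
    rw [Topology.IsInducing.subtypeVal.continuousOn_iff]
    refine ((A.κ p).continuousOn_symm.comp
      (io.symm.continuous.comp continuous_subtype_val).continuousOn fun _ h => h).congr
      fun y hy => ?_
    exact congrArg Subtype.val
      (dif_pos (bwd A (w := io.symm y.1) hy (by rw [io_symm_re]; exact y.2)))

theorem ch_symm {p : M} {y : EuclideanHalfSpace 2} (hy : y ∈ (ch A p).target) :
    ((ch A p).symm y : ℂ) = (A.κ p).symm (io.symm y.1) := by
  have := bwd A hy (by rw [io_symm_re]; exact y.2)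
  exact congrArg Subtype.val (dif_pos this)

/-- the charted space -/
@[reducible] noncomputable def cs : ChartedSpace (EuclideanHalfSpace 2) M where
  atlas := range (ch A)
  chartAt := ch A
  mem_chart_source p := A.mem p p.2
  chart_mem_atlas p := ⟨p, rfl⟩

end T1

open T1

theorem st_MAN : St_MAN := by
  intro M A
  let _ := cs A
  refine ⟨cs A, isManifold_of_contDiffOn _ _ _ ?_, fun _ _ => Iff.rfl, fun p x h => fwd A h,
    fun p y => ?_, fun p y hy => ?_⟩
  · rintro _ _ ⟨p, rfl⟩ ⟨q, rfl⟩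
    have key : ∀ y ∈ (𝓡∂ 2).symm ⁻¹' ((ch A p).symm ≫ₕ ch A q).source ∩ range (𝓡∂ 2),
        io.symm y ∈ (A.κ p).target ∧ (A.κ p).symm (io.symm y) ∈ (A.κ q).source ∧
        ((𝓡∂ 2) ∘ ((ch A p).symm ≫ₕ ch A q) ∘ (𝓡∂ 2).symm) y =
          io (A.κ q ((A.κ p).symm (io.symm y))) := by
      rintro y ⟨⟨h1, h2⟩, h3⟩
      have e : ((𝓡∂ 2).symm y).1 = y := (𝓡∂ 2).right_inv h3
      have e' := ch_symm A h1
      rw [e] at e'
      exact ⟨e ▸ h1, e' ▸ h2, e' ▸ fwd A h2⟩
    refine ContDiffOn.congr ?_ fun y hy => (key y hy).2.2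
    exact io.contDiff.comp_contDiffOn ((A.dif q).1.comp ((A.dif p).2.comp
      io.symm.contDiff.contDiffOn fun y hy => (key y hy).1) fun y hy => (key y hy).2.1)
  · rw [extChartAt_target, io_symm_re, ← mem_rng]
    constructor
    · rintro ⟨h1, h2⟩
      have e : ((𝓡∂ 2).symm y).1 = y := (𝓡∂ 2).right_inv h2
      exact ⟨e ▸ h1, h2⟩
    · rintro ⟨h1, h2⟩
      have e : ((𝓡∂ 2).symm y).1 = y := (𝓡∂ 2).right_inv h2
      refine ⟨?_, h2⟩
      show io.symm ((𝓡∂ 2).symm y).1 ∈ (A.κ p).target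
      rwa [e]
  · rw [extChartAt_target] at hy
    have e : ((𝓡∂ 2).symm y).1 = y := (𝓡∂ 2).right_inv hy.2
    have := ch_symm A hy.1
    rwa [e] at this

end Pool.Agent.Lib.LM
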