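import Pool.Agent.Lib.LM.Blue

set_option autoImplicit false

open Set Filter Bundle
open scoped ContDiff Manifold Topology

namespace Pool.Agent.Lib.LM

namespace T3

theorem bdd (B : E2 →L[ℝ] E2 →L[ℝ] ℝ) (hB : ∀ v, v ≠ 0 → 0 < B v v) :
    Bornology.IsVonNBounded ℝ {v : E2 | B v v < 1} := by
  obtain ⟨u, hu, hmin⟩ := (isCompact_sphere (0 : E2) 1).exists_isMinOn
    (NormedSpace.sphere_nonempty.2 zero_le_one) (f := fun v => B v v) (by fun_prop)
  have hc : 0 < B u u := hB u (by rintro rfl; simp at hu)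
  rw [NormedSpace.isVonNBounded_iff']
  refine ⟨max 1 (B u u)⁻¹, fun v hv => ?_⟩
  by_contra hlt
  rw [not_le, max_lt_iff] at hlt
  have h0 : 0 < ‖v‖ := by linarith [hlt.1]
  have h1 : (‖v‖⁻¹ • v) ∈ Metric.sphere (0 : E2) 1 := by
    simp [norm_smul, inv_mul_cancel₀ h0.ne']
  have h2 : B u u ≤ ‖v‖⁻¹ * (‖v‖⁻¹ * B v v) := by simpa using hmin h1
  have h3 : B v v < 1 := hv
  rw [inv_lt_comm₀ hc h0] at hlt
  have h4 : ‖v‖⁻¹ < 1 := inv_lt_one_of_one_lt₀ hlt.1
  have h5 := inv_pos.2 h0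
  nlinarith [mul_pos h5 h5]

/-- the form pulled back by a linear map -/
noncomputable def pb (E F G : ℂ → ℝ) (q : ℂ × (E2 →L[ℝ] ℂ)) : E2 →L[ℝ] E2 →L[ℝ] ℝ :=
  E q.1 • (Complex.reCLM.comp q.2).smulRight (Complex.reCLM.comp q.2) +
    F q.1 • ((Complex.reCLM.comp q.2).smulRight (Complex.imCLM.comp q.2) +
      (Complex.imCLM.comp q.2).smulRight (Complex.reCLM.comp q.2)) +
    G q.1 • (Complex.imCLM.comp q.2).smulRight (Complex.imCLM.comp q.2)

theorem pb_apply (E F G : ℂ → ℝ) (q : ℂ × (E2 →L[ℝ] ℂ)) (v w : E2) :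
    pb E F G q v w = bf E F G q.1 (q.2 v) (q.2 w) := by
  simp [pb, bf, mul_add]

theorem pb_sm {E F G : ℂ → ℝ} (hE : ContDiff ℝ ∞ E) (hF : ContDiff ℝ ∞ F) (hG : ContDiff ℝ ∞ G) :
    ContDiff ℝ ∞ (pb E F G) := by
  refine contDiff_clm_apply_iff.2 fun v => contDiff_clm_apply_iff.2 fun w => ?_
  have h : ∀ u : E2, ContDiff ℝ ∞ fun q : ℂ × (E2 →L[ℝ] ℂ) => q.2 u := fun u =>
    contDiff_snd.clm_apply contDiff_const
  have r := fun u => Complex.reCLM.contDiff.comp (h u)
  have i := fun u => Complex.imCLM.contDiff.comp (h u)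
  simp only [pb_apply, bf]
  exact (((hE.comp contDiff_fst).mul ((r v).mul (r w))).add ((hF.comp contDiff_fst).mul
    (((r v).mul (i w)).add ((i v).mul (r w))))).add ((hG.comp contDiff_fst).mul ((i v).mul (i w)))

theorem bf_pos {E F G : ℂ → ℝ} {z a : ℂ} (h : 0 < E z ∧ E z * G z - F z ^ 2 = 1) (ha : a ≠ 0) :
    0 < bf E F G z a a := by
  have e : E z * bf E F G z a a = (E z * a.re + F z * a.im) ^ 2 + a.im ^ 2 := by
    unfold bf; linear_combination a.im ^ 2 * h.2
  refine (pos_iff_pos_of_mul_pos (e ▸ ?_ : 0 < E z * _)).1 h.1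
  by_cases h0 : a.im = 0
  · have : a.re ≠ 0 := fun k => ha (Complex.ext k h0)
    have := h.1
    rw [h0]; simp only [mul_zero, add_zero]; positivity
  · positivity

end T3

open T3

set_option backward.isDefEq.respectTransparency false in
theorem st_MET (hV : St_VAL) : St_MET := by
  intro M A _ _ h E F G hM
  obtain ⟨h1, h2, -⟩ := hV M A h
  have hp : ∀ (x : M) (v : E2), v ≠ 0 → 0 < pb E F G (x, dv x) v v := fun x v hv => by
    rw [pb_apply]
    exact bf_pos (hM.2.2.2 x x.2) fun k => hv (h2 x (k.trans (map_zero _).symm))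
  refine ⟨{ inner := fun x => pb E F G (x, dv x)
            symm := fun x v w => ?_
            pos := hp
            isVonNBounded := fun x => bdd _ (hp x)
            contMDiff := fun p => ?_ }, fun x v w => pb_apply _ _ _ _ _ _⟩
  · refine (pb_apply _ _ _ _ _ _).trans (Eq.trans ?_ (pb_apply _ _ _ _ _ _).symm)
    unfold bf; ring
  · rw [contMDiffAt_section]
    have h3 := (pb_sm hM.1 hM.2.1 hM.2.2.1).comp_contMDiffAt
      ((h1 p).prodMk_space ((h1 p).mfderiv_const (m := ∞) le_rfl))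
    refine h3.congr_of_eventuallyEq ?_
    filter_upwards [chart_source_mem_nhds (EuclideanHalfSpace 2) p] with q hq
    ext v w
    rw [hom_trivializationAt_apply]
    dsimp only
    have e : ∀ u : E2, inTangentCoordinates (𝓡∂ 2) 𝓘(ℝ, ℂ) id (Subtype.val : M → ℂ)
        (mfderiv (𝓡∂ 2) 𝓘(ℝ, ℂ) (Subtype.val : M → ℂ)) p q u =
        dv q ((trivializationAt E2 (TangentSpace (𝓡∂ 2)) p).symm q u) := fun u => by
      rw [inTangentCoordinates, ContinuousLinearMap.inCoordinates,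
        TangentBundle.continuousLinearMapAt_model_space, ← Trivialization.symmL_apply (R := ℝ) _ hq]
      rfl
    rw [inCoordinates_apply_eq₂ hq hq (by simp), Function.comp_apply, pb_apply, e, e]
    simp
    exact pb_apply _ _ _ _ _ _

end Pool.Agent.Lib.LM
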