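import Pool.Agent.Lib.LM.Blue

set_option autoImplicit false

open MeasureTheory Set Filter
open scoped FourierTransform ContDiff ENNReal NNReal RealInnerProductSpace

namespace Pool.Agent.Lib.LM

open Pool.Agent.Lib.MP_f62ea7_gt (L2 bessel)

namespace T59

theorem mul_wt_memLp {s : ℝ} (hs : 1 < s) :
    MemLp (fun x : ℂ ↦ (1 + ‖x‖ ^ 2) ^ (-s / 2)) 2 (volume : Measure ℂ) := by
  have hs' : (Module.finrank ℝ ℂ : ℝ) < 2 * s := by simp; linarith
  constructor
  · have : (fun x : ℂ ↦ (1 + ‖x‖ ^ 2) ^ (-s / 2)).HasTemperateGrowth := by fun_prop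
    exact this.1.continuous.aestronglyMeasurable
  · rw [eLpNorm_lt_top_iff_lintegral_rpow_enorm_lt_top (by norm_num) (by norm_num)]
    suffices h : ∫⁻ a : ℂ, ENNReal.ofReal ‖(1 + ‖a‖ ^ 2) ^ (-s)‖ < ⊤ from by
      norm_cast
      simp_rw [ofReal_norm] at h
      simp_rw [← enorm_pow]
      convert h
      rw [← Real.rpow_mul_natCast (by positivity)]
      simp
    apply ((integrable_rpow_neg_one_add_norm_sq hs').congr _).lintegral_lt_top
    filter_upwards with x
    rw [Real.norm_eq_abs, abs_eq_self.mpr (by positivity)]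
    congr
    ring

theorem mul_fourier (a F : ℂ → ℂ) (ha : Integrable a volume) (hF : Integrable F volume) (ξ : ℂ) :
    𝓕 (𝓕⁻ a * F) ξ = ∫ η, a η * 𝓕 F (ξ - η) := by
  have hi : Integrable (Function.uncurry fun z η : ℂ =>
      ((Real.fourierChar (-⟪z, ξ - η⟫) : Circle) : ℂ) * (F z * a η)) (volume.prod volume) := by
    refine (hF.mul_prod ha).bdd_mul (c := 1) ?_ (Eventually.of_forall fun p => ?_)
    · refine Continuous.aestronglyMeasurable ?_
      exact continuous_subtype_val.comp (Real.continuous_fourierChar.comp (by fun_prop))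
    · simp
  have h1 : 𝓕 (𝓕⁻ a * F) ξ = ∫ z, ∫ η,
      ((Real.fourierChar (-⟪z, ξ - η⟫) : Circle) : ℂ) * (F z * a η) := by
    rw [Real.fourier_eq]
    refine integral_congr_ae (Eventually.of_forall fun z => ?_)
    simp only [Pi.mul_apply, Real.fourierInv_eq, Circle.smul_def, smul_eq_mul]
    rw [← integral_mul_const, ← integral_const_mul]
    refine integral_congr_ae (Eventually.of_forall fun η => ?_)
    have e : -⟪z, ξ - η⟫ = -⟪z, ξ⟫ + ⟪η, z⟫ := by
      rw [inner_sub_right, real_inner_comm z η]; ring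
    simp only [e, AddChar.map_add_eq_mul, Circle.coe_mul]
    ring
  rw [h1, integral_integral_swap hi]
  refine integral_congr_ae (Eventually.of_forall fun η => ?_)
  simp only [Real.fourier_eq, Circle.smul_def, smul_eq_mul]
  rw [← integral_const_mul]
  refine integral_congr_ae (Eventually.of_forall fun z => ?_)
  ring

end T59

theorem st_MUL (hCONV : St_CONV) : St_MUL := by
  intro σ ρ hσ hρ hρσ
  obtain ⟨C, hC⟩ := hCONV σ ρ hσ hρ hρσ
  refine ⟨C, fun g F hF => ?_⟩
  have hi : Integrable (fun ξ : ℂ => ((1 + ‖ξ‖ ^ 2) ^ (-σ / 2) : ℝ) • g ξ) volume :=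
    memLp_one_iff_integrable.1 ((Lp.memLp g).smul (T59.mul_wt_memLp hσ))
  have hFi : Integrable F volume := hF.1.continuous.integrable_of_hasCompactSupport hF.2
  have hc : Continuous (𝓕 F) := VectorFourier.fourierIntegral_continuous
    Real.continuous_fourierChar (by exact continuous_inner) hFi
  have h := hC g (𝓕 F) (Lp.aestronglyMeasurable g) hc.aestronglyMeasurable
  have e : (fun ξ => wt ρ ξ • 𝓕 (bessel σ g * F) ξ) =
      fun ξ => wt ρ ξ • ∫ η, (wt (-σ) η • g η) * 𝓕 F (ξ - η) := by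
    funext ξ
    exact congrArg (fun w => wt ρ ξ • w) (T59.mul_fourier _ F hi hFi ξ)
  rw [nr, e, Lp.enorm_def]
  exact h

end Pool.Agent.Lib.LM
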