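import Pool.Agent.Lib.LM.Blue

/-! The omega lemma. -/

set_option autoImplicit false

open MeasureTheory Set Filter
open scoped ContDiff Topology ComplexConjugate

namespace Pool.Agent.Lib.LM

open Pool.Agent.Lib.MP_f62ea7_gt (L2 bessel)

namespace T91

theorem contDiff_of_quot {X : Type} [NormedAddCommGroup X] [NormedSpace ℝ X] (Φ : X → X)
    (L : X × X → X →L[ℝ] X) (hL : Continuous L) (h : ∀ x y, Φ x - Φ y = L (x, y) (x - y)) :
    ContDiff ℝ 1 Φ := by
  refine contDiff_one_iff_hasFDerivAt.2 ⟨fun y => L (y, y), hL.comp (by fun_prop), fun y => ?_⟩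
  rw [hasFDerivAt_iff_isLittleO, Asymptotics.isLittleO_iff]
  intro c hc
  have h1 : Continuous fun x : X => ‖L (x, y) - L (y, y)‖ :=
    ((hL.comp (by fun_prop)).sub continuous_const).norm
  have h2 : ∀ᶠ x in 𝓝 y, ‖L (x, y) - L (y, y)‖ < c :=
    h1.continuousAt.eventually_lt continuousAt_const (by simpa using hc)
  filter_upwards [h2] with x hx
  rw [h, ← sub_apply]
  exact (ContinuousLinearMap.le_opNorm _ _).trans
    (mul_le_mul_of_nonneg_right hx.le (norm_nonneg _))

end T91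

theorem st_NEM (hN : St_NEM1) (hH : St_HAD) (hA : St_ALG) (hC : St_CJ) (hE : St_EV) : St_NEM := by
  intro s hs f χ hf hχ
  have hs1 : 1 < s := by linarith
  obtain ⟨⟨Bs, hBs⟩, hinj⟩ := hE s hs1
  obtain ⟨B, hB⟩ := hA s hs1
  obtain ⟨⟨Cj, hCj⟩, -⟩ := hC
  have hf' : ContDiff ℝ ∞ fun y : Unit → ℂ => f (y ()) := hf.comp (contDiff_apply ℝ ℂ ())
  obtain ⟨a, b, hab, hq⟩ := hH Unit _ hf'
  obtain ⟨Φ, -, hΦ⟩ := hN s hs Unit _ χ hf' hχ
  obtain ⟨Pa, hPa, hPa'⟩ := hN s hs (Unit ⊕ Unit) _ χ (hab ()).1 hχ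
  obtain ⟨Pb, hPb, hPb'⟩ := hN s hs (Unit ⊕ Unit) _ χ (hab ()).2 hχ
  have hsub : ∀ (g g' : L2) z, bessel s (g - g') z = bessel s g z - bessel s g' z := by
    intro g g' z
    rw [← hBs, ← hBs, ← hBs, map_sub]
    rfl
  have hadd : ∀ (g g' : L2) z, bessel s (g + g') z = bessel s g z + bessel s g' z := by
    intro g g' z
    rw [← hBs, ← hBs, ← hBs, map_add]
    rfl
  let e : L2 × L2 → Unit ⊕ Unit → L2 := fun p => Sum.elim (fun _ => p.1) fun _ => p.2
  have he : Continuous e := by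
    refine continuous_pi fun i => ?_
    rcases i with i | i
    · exact continuous_fst
    · exact continuous_snd
  let R : (L2 →L[ℂ] L2) →L[ℝ] L2 →L[ℝ] L2 := ContinuousLinearMap.restrictScalarsL ℂ L2 L2 ℝ ℝ
  refine ⟨fun g => Φ fun _ => g, T91.contDiff_of_quot _
    (fun p => R (B.flip (Pa (e p))) + (R (B.flip (Pb (e p)))).comp Cj) ?_ fun g g' => ?_,
    fun g z => hΦ _ z⟩
  · exact (R.continuous.comp (B.flip.continuous.comp (hPa.comp he))).add
      ((R.continuous.comp (B.flip.continuous.comp (hPb.comp he))).clm_comp continuous_const)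
  · refine hinj _ _ (funext fun z => ?_)
    change _ = bessel s (B (g - g') (Pa (e (g, g'))) + B (Cj (g - g')) (Pb (e (g, g')))) z
    have h1 := hq (fun _ => bessel s g z) fun _ => bessel s g' z
    have h2 : (fun i => bessel s (e (g, g') i) z) =
        Sum.elim (fun _ : Unit => bessel s g z) fun _ : Unit => bessel s g' z := by
      funext i
      rcases i with i | i <;> rfl
    rw [hsub, hadd, hΦ, hΦ, hB, hB, Pi.mul_apply, Pi.mul_apply, hPa', hPb', (hCj _).2.2, hsub, h2,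
      ← mul_sub, h1, Fintype.sum_unique]
    ring

end Pool.Agent.Lib.LM
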