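import Pool.Agent.Lib.LM.Blue

/-! A priori bound for the composition on the left. -/

set_option autoImplicit false

open MeasureTheory Set Filter
open scoped FourierTransform ContDiff ENNReal NNReal Manifold Topology ComplexConjugate

namespace Pool.Agent.Lib.LM

open Pool.Agent.Lib.MP_f62ea7_gt (L2 bessel)

namespace T87

theorem tst_mul {χ h : ℂ → ℂ} (hχ : Tst χ) (hh : ContDiff ℝ ∞ h) : Tst fun z => χ z * h z :=
  ⟨hχ.1.mul hh, hχ.2.mul_right⟩

theorem tst_der {χ : ℂ → ℂ} (hχ : Tst χ) (v : ℂ) : Tst fun z => fderiv ℝ χ z v :=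
  ⟨(hχ.1.fderiv_right (m := ∞) (by simp)).clm_apply contDiff_const, hχ.2.fderiv_apply ℝ v⟩

/-- uniformly bounded family of test functions -/
def Bd {X : Type} (A : X → Prop) (r : ℝ) (P : X → ℂ → ℂ) : Prop :=
  ∃ C : ℝ≥0, ∀ x, A x → Tst (P x) ∧ nr r (P x) ≤ C

theorem Bd.add (hT : St_TST) {X : Type} {A : X → Prop} {r : ℝ} {P Q : X → ℂ → ℂ}
    (hP : Bd A r P) (hQ : Bd A r Q) : Bd A r fun x z => P x z + Q x z := by
  obtain ⟨C, hC⟩ := hP
  obtain ⟨D, hD⟩ := hQ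
  refine ⟨C + D, fun x hx => ?_⟩
  obtain ⟨p1, p2⟩ := hC x hx
  obtain ⟨q1, q2⟩ := hD x hx
  refine ⟨⟨p1.1.add q1.1, p1.2.add q1.2⟩, ?_⟩
  have := (hT _ p1).2.2.2.2 _ q1 r
  push_cast
  exact this.trans (add_le_add p2 q2)

theorem Bd.sum (hT : St_TST) {X ι : Type} {A : X → Prop} {r : ℝ} {P : X → ℂ → ℂ}
    {Q : ι → X → ℂ → ℂ} (hP : Bd A r P) (hQ : ∀ i, Bd A r (Q i)) (S : Finset ι) :
    Bd A r fun x z => P x z + ∑ i ∈ S, Q i x z := by
  classical
  induction S using Finset.induction_on with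
  | empty => simpa using hP
  | insert a S ha ih =>
    have := ih.add hT (hQ a)
    simp only [Finset.sum_insert ha]
    have e : (fun x z => P x z + (Q a x z + ∑ i ∈ S, Q i x z)) =
        fun x z => P x z + ∑ i ∈ S, Q i x z + Q a x z := by
      funext x z; ring
    rw [e]; exact this

theorem Bd.mul (hM : St_MUL) (hB : St_BL) {X : Type} {A : X → Prop} {σ r K : ℝ} (h1 : 1 < σ)
    (h0 : 0 ≤ r) (hr : r ≤ σ) {P : X → ℂ → ℂ} (hP : Bd A r P) {G : X → L2}
    (hG : ∀ x, A x → BL (G x) ∧ ‖G x‖ ≤ K) : Bd A r fun x z => bessel σ (G x) z * P x z := by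
  obtain ⟨C, hC⟩ := hP
  obtain ⟨D, hD⟩ := hM σ r h1 h0 hr
  refine ⟨D * K.toNNReal * C, fun x hx => ?_⟩
  obtain ⟨p1, p2⟩ := hC x hx
  obtain ⟨g1, g2⟩ := hG x hx
  refine ⟨⟨((hB.2.2 _ g1).2 σ).1.mul p1.1, p1.2.mul_left⟩, ?_⟩
  have := hD (G x) _ p1
  push_cast
  refine this.trans (mul_le_mul' (mul_le_mul' le_rfl ?_) p2)
  rw [← ofReal_norm]
  exact ENNReal.ofReal_le_ofReal g2

theorem Bd.congr {X : Type} {A : X → Prop} {r : ℝ} {P Q : X → ℂ → ℂ} (hP : Bd A r P)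
    (h : ∀ x, A x → Q x = P x) : Bd A r Q := by
  obtain ⟨C, hC⟩ := hP
  exact ⟨C, fun x hx => by rw [h x hx]; exact hC x hx⟩

theorem Bd.step (hT : St_TST) {X : Type} {A : X → Prop} {r ρ : ℝ} (hr : r ≤ ρ + 1)
    {P : X → ℂ → ℂ} (hP : Bd A ρ P) (hD : ∀ v, Bd A ρ fun x z => fderiv ℝ (P x) z v) :
    Bd A r P := by
  obtain ⟨C, hC⟩ := hP
  obtain ⟨D, hD1⟩ := hD 1
  obtain ⟨E, hE⟩ := hD Complex.I
  refine ⟨C + D + E, fun x hx => ?_⟩
  obtain ⟨p1, p2⟩ := hC x hx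
  refine ⟨p1, ((hT _ p1).2.2.1 _ _ hr).trans (((hT _ p1).2.2.2.1 ρ).trans ?_)⟩
  push_cast
  exact add_le_add (add_le_add p2 (hD1 x hx).2) (hE x hx).2

theorem lin_eq {ι : Type} [Fintype ι] [DecidableEq ι] (L : (ι → ℂ) →L[ℝ] ℂ) (w : ι → ℂ) :
    L w = ∑ i, (w i * ((L (Pi.single i 1) - Complex.I * L (Pi.single i Complex.I)) / 2) +
      conj (w i) * ((L (Pi.single i 1) + Complex.I * L (Pi.single i Complex.I)) / 2)) := by
  have e : w = ∑ i, ((w i).re • (Pi.single i 1 : ι → ℂ) +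
      (w i).im • (Pi.single i Complex.I : ι → ℂ)) := by
    funext j
    simp only [Finset.sum_apply, Pi.add_apply, Pi.smul_apply]
    rw [Finset.sum_eq_single j (fun b _ hb => by simp [Pi.single_eq_of_ne hb.symm]) (by simp)]
    simp
  conv_lhs => rw [e]
  rw [map_sum]
  refine Finset.sum_congr rfl fun i _ => ?_
  rw [map_add, map_smul, map_smul]
  have h1 : conj (w i) = (w i).re - (w i).im * Complex.I := by
    apply Complex.ext <;> simp
  rw [h1]
  conv_rhs => rw [← Complex.re_add_im (w i)]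
  simp only [Complex.real_smul, Complex.add_re, Complex.add_im, Complex.ofReal_re,
    Complex.ofReal_im, Complex.mul_re, Complex.mul_im, Complex.I_re, Complex.I_im, mul_zero,
    mul_one, sub_zero, add_zero, zero_add]
  linear_combination (-((w i).im : ℂ) * L (Pi.single i Complex.I)) * Complex.I_mul_I * (-1)

theorem sm (hB : St_BL) {ι : Type} [Fintype ι] {g : ι → L2} (hg : ∀ i, BL (g i)) (s : ℝ) :
    ContDiff ℝ ∞ fun z => fun i => bessel s (g i) z :=
  contDiff_pi.2 fun i => ((hB.2.2 _ (hg i)).2 s).1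

theorem base (hT : St_TST) (hB : St_BL) (hE : St_EV) {s : ℝ} (hs : 2 < s) {ι : Type} [Fintype ι]
    (R : ℝ) {f : (ι → ℂ) → ℂ} {χ : ℂ → ℂ} (hf : ContDiff ℝ ∞ f) (hχ : Tst χ) {r : ℝ}
    (hr : r ≤ 0) : Bd (fun g : ι → L2 => ∀ i, BL (g i) ∧ ‖g i‖ ≤ R) r
      fun g z => χ z * f fun i => bessel s (g i) z := by
  obtain ⟨⟨Bs, hBs⟩, -⟩ := hE s (by linarith)
  obtain ⟨K, hK⟩ := (isCompact_closedBall (0 : ι → ℂ) (‖Bs‖ * |R|)).exists_bound_of_continuousOn
    hf.continuous.continuousOn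
  have hm : MemLp χ 2 volume := hχ.1.continuous.memLp_of_hasCompactSupport hχ.2
  refine ⟨K.toNNReal * (eLpNorm χ 2 volume).toNNReal, fun g hg => ?_⟩
  have ht := tst_mul hχ (hf.comp (sm hB (fun i => (hg i).1) s))
  refine ⟨ht, ((hT _ ht).2.2.1 _ _ hr).trans ?_⟩
  rw [(hT _ ht).2.1]
  push_cast
  rw [ENNReal.coe_toNNReal hm.2.ne]
  refine eLpNorm_le_mul_eLpNorm_of_ae_le_mul (c := K) (Eventually.of_forall fun z => ?_) 2
  rw [norm_mul, mul_comm]
  refine mul_le_mul_of_nonneg_right (hK _ ?_) (norm_nonneg _)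
  rw [mem_closedBall_zero_iff, pi_norm_le_iff_of_nonneg (by positivity)]
  intro i
  show ‖bessel s (g i) z‖ ≤ _
  rw [← hBs]
  exact ((Bs (g i)).norm_coe_le_norm z).trans ((Bs.le_opNorm _).trans
    (mul_le_mul_of_nonneg_left ((hg i).2.trans (le_abs_self R)) (norm_nonneg _)))

theorem main (hT : St_TST) (hM : St_MUL) (hB : St_BL) (hC : St_CJ) (hE : St_EV) {s : ℝ}
    (hs : 2 < s) {ι : Type} [Fintype ι] (R : ℝ) (m : ℕ) : ∀ r : ℝ, r ≤ m → r ≤ s →
    ∀ (f : (ι → ℂ) → ℂ) (χ : ℂ → ℂ), ContDiff ℝ ∞ f → Tst χ →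
    Bd (fun g : ι → L2 => ∀ i, BL (g i) ∧ ‖g i‖ ≤ R) r
      fun g z => χ z * f fun i => bessel s (g i) z := by
  classical
  induction m with
  | zero => exact fun r hr _ f χ hf hχ => base hT hB hE hs R hf hχ (by simpa using hr)
  | succ m ih =>
    intro r hr hrs f χ hf hχ
    have h0 : 0 ≤ max r 1 - 1 := by linarith [le_max_right r 1]
    have hρ : max r 1 - 1 ≤ s - 1 := by linarith [max_le hrs (by linarith : (1 : ℝ) ≤ s)]
    have hm : max r 1 - 1 ≤ m := by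
      push_cast at hr
      linarith [max_le hr (by linarith [Nat.cast_nonneg (α := ℝ) m] : (1 : ℝ) ≤ m + 1)]
    have ih' := ih _ hm (by linarith)
    refine Bd.step hT (by linarith [le_max_left r 1]) (ih' f χ hf hχ) fun v => ?_
    obtain ⟨⟨Cj, hCj⟩, -⟩ := hC
    have hd : ∀ g : L2, ∃ g' : L2, BL g → BL g' ∧ ‖g'‖ ≤ 7 * ‖v‖ * ‖g‖ ∧
        ∀ z, fderiv ℝ (bessel s g) z v = bessel (s - 1) g' z := fun g => by
      by_cases h : BL g
      · obtain ⟨g', hg'⟩ := ((hB.2.2 g h).2 s).2 v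
        exact ⟨g', fun _ => hg'⟩
      · exact ⟨g, fun h' => (h h').elim⟩
    choose D hD using hd
    have hdf : ∀ w, ContDiff ℝ ∞ fun y => fderiv ℝ f y w := fun w =>
      (hf.fderiv_right (m := ∞) (by simp)).clm_apply contDiff_const
    have hG : ∀ i (g : ι → L2), (∀ i, BL (g i) ∧ ‖g i‖ ≤ R) →
        BL (D (g i)) ∧ ‖D (g i)‖ ≤ 7 * ‖v‖ * R := fun i g hg =>
      ⟨(hD _ (hg i).1).1, (hD _ (hg i).1).2.1.trans
        (mul_le_mul_of_nonneg_left (hg i).2 (by positivity))⟩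
    have hG' : ∀ i (g : ι → L2), (∀ i, BL (g i) ∧ ‖g i‖ ≤ R) →
        BL (Cj (D (g i))) ∧ ‖Cj (D (g i))‖ ≤ 7 * ‖v‖ * R := fun i g hg =>
      ⟨(hCj _).2.1 (hG i g hg).1, by rw [(hCj _).1]; exact (hG i g hg).2⟩
    have key := Bd.sum hT (ih' f _ hf (tst_der hχ v)) (fun i => Bd.add hT
      (Bd.mul hM hB (by linarith) h0 hρ (ih' (fun y => (fderiv ℝ f y (Pi.single i 1) -
        Complex.I * fderiv ℝ f y (Pi.single i Complex.I)) / 2) χ
        (((hdf _).sub (contDiff_const.mul (hdf _))).div_const _) hχ) (hG i))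
      (Bd.mul hM hB (by linarith) h0 hρ (ih' (fun y => (fderiv ℝ f y (Pi.single i 1) +
        Complex.I * fderiv ℝ f y (Pi.single i Complex.I)) / 2) χ
        (((hdf _).add (contDiff_const.mul (hdf _))).div_const _) hχ) (hG' i))) Finset.univ
    refine key.congr fun g hg => ?_
    funext z
    have hu := ((sm hB (fun i => (hg i).1) s).differentiable (by simp) z).hasFDerivAt
    have h1 := (hf.differentiable (by simp) _).hasFDerivAt.comp z hu
    have h2 := (hχ.1.differentiable (by simp) z).hasFDerivAt.mul h1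
    have h3 : fderiv ℝ (fun z => fun i => bessel s (g i) z) z v =
        fun i => bessel (s - 1) (D (g i)) z := by
      rw [fderiv_pi fun i => (((hB.2.2 _ (hg i).1).2 s).1.differentiable (by simp) z)]
      funext i
      exact (hD _ (hg i).1).2.2 z
    have h4 : fderiv ℝ (fun z => χ z * f fun i => bessel s (g i) z) z = _ := h2.fderiv
    rw [h4]
    simp only [add_apply, smul_apply,
      ContinuousLinearMap.comp_apply, smul_eq_mul, Function.comp_apply, h3]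
    rw [lin_eq (fderiv ℝ f _) fun i => bessel (s - 1) (D (g i)) z, Finset.mul_sum, add_comm,
      mul_comm]
    congr 1
    refine Finset.sum_congr rfl fun i _ => ?_
    rw [(hCj _).2.2]
    ring

end T87

theorem st_NEM0 (hTST : St_TST) (hMUL : St_MUL) (hBL : St_BL) (hCJ : St_CJ) (hEV : St_EV) :
    St_NEM0 := fun s hs _ _ f χ R hf hχ =>
  T87.main hTST hMUL hBL hCJ hEV hs R ⌈s⌉₊ s (Nat.le_ceil s) le_rfl f χ hf hχ

end Pool.Agent.Lib.LM
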