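import Pool.Agent.Lib.LM.Blue

set_option autoImplicit false

open MeasureTheory Set Filter
open scoped FourierTransform ContDiff ENNReal NNReal Topology ComplexConjugate

namespace Pool.Agent.Lib.LM

open Pool.Agent.Lib.MP_f62ea7_gt (L2 bessel)

namespace T82

theorem tst_zero : Tst (0 : ℂ → ℂ) := ⟨contDiff_const, HasCompactSupport.zero⟩

theorem tst_add {F G : ℂ → ℂ} (hF : Tst F) (hG : Tst G) : Tst (F + G) :=
  ⟨hF.1.add hG.1, hF.2.add hG.2⟩

theorem nr_zero_fun (r : ℝ) : nr r (0 : ℂ → ℂ) = 0 := by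
  have h : (fun ξ : ℂ => wt r ξ • 𝓕 (0 : ℂ → ℂ) ξ) = 0 := by
    funext ξ
    simp [Real.fourier_eq]
  unfold nr
  rw [h, eLpNorm_zero]

theorem nr_sum (hT : St_TST) (r : ℝ) {ι : Type} (S : Finset ι) (F : ι → ℂ → ℂ)
    (hF : ∀ i, Tst (F i)) : Tst (∑ i ∈ S, F i) ∧ nr r (∑ i ∈ S, F i) ≤ ∑ i ∈ S, nr r (F i) := by
  classical
  induction S using Finset.induction_on with
  | empty => simpa using ⟨tst_zero, nr_zero_fun r⟩
  | insert a S ha ih =>
    rw [Finset.sum_insert ha, Finset.sum_insert ha]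
    exact ⟨tst_add (hF a) ih.1,
      ((hT _ (hF a)).2.2.2.2 _ ih.1 r).trans (add_le_add le_rfl ih.2)⟩

theorem tst_mul (hB : St_BL) (s : ℝ) {g : L2} (hg : BL g) {F : ℂ → ℂ} (hF : Tst F) :
    Tst (bessel s g * F) :=
  ⟨((hB.2.2 g hg).2 s).1.mul hF.1, hF.2.mul_left⟩

end T82

open T82 in
theorem st_NEM1 (hEXT : St_EXT) (hNEM0 : St_NEM0) (hHAD : St_HAD) (hMUL : St_MUL)
    (hTST : St_TST) (hCJ : St_CJ) (hBL : St_BL) (hEV : St_EV) : St_NEM1 := by
  intro s hs ι _ f χ hf hχ
  have hs1 : 1 < s := by linarith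
  obtain ⟨⟨Bs, hBs⟩, -⟩ := hEV s hs1
  obtain ⟨⟨Cj, hCj⟩, -⟩ := hCJ
  obtain ⟨a, b, hab, hsum⟩ := hHAD ι f hf
  obtain ⟨Cm, hCm⟩ := hMUL s s hs1 (by linarith) le_rfl
  have hsub : ∀ g g' : L2, ∀ z, bessel s (g - g') z = bessel s g z - bessel s g' z := by
    intro g g' z
    rw [← hBs, ← hBs, ← hBs, map_sub]
    rfl
  obtain ⟨Φ, hΦ, hΦ'⟩ := hEXT s hs1 (ι → L2) (Set.pi univ fun _ => {g : L2 | BL g})
    (fun g z => χ z * f fun i => bessel s (g i) z) (dense_pi univ fun _ _ => hBL.1)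
    (by
      intro z
      refine continuous_const.mul (hf.continuous.comp (continuous_pi fun i => ?_))
      have : (fun x : ι → L2 => bessel s (x i) z) = fun x => Bs (x i) z := by
        funext x
        rw [hBs]
      rw [this]
      exact (continuous_eval_const z).comp (Bs.continuous.comp (continuous_apply i)))
    (by
      intro x hx
      obtain ⟨C, hC⟩ := hNEM0 s hs ι f χ ‖x‖ hf hχ
      exact (hC x fun i => ⟨hx i (mem_univ i), norm_le_pi_norm x i⟩).1)
    (by
      intro R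
      choose Ca hCa using fun i => hNEM0 s hs (ι ⊕ ι) (a i) χ R (hab i).1 hχ
      choose Cb hCb using fun i => hNEM0 s hs (ι ⊕ ι) (b i) χ R (hab i).2 hχ
      refine ⟨∑ i, Cm * (Ca i + Cb i), fun x hx y hy hxR hyR => ?_⟩
      have hxy : ∀ j : ι ⊕ ι, BL (Sum.elim x y j) ∧ ‖Sum.elim x y j‖ ≤ R := by
        rintro (j | j)
        · exact ⟨hx j (mem_univ j), (norm_le_pi_norm x j).trans hxR⟩
        · exact ⟨hy j (mem_univ j), (norm_le_pi_norm y j).trans hyR⟩
      have hd : ∀ i, BL (x i - y i) := fun i =>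
        hBL.2.1 _ _ (hx i (mem_univ i)) (hy i (mem_univ i))
      set A : ι → ℂ → ℂ := fun i z => χ z * a i fun j => bessel s (Sum.elim x y j) z with hA
      set B : ι → ℂ → ℂ := fun i z => χ z * b i fun j => bessel s (Sum.elim x y j) z with hB
      have hAt : ∀ i, Tst (A i) ∧ nr s (A i) ≤ Ca i := fun i => hCa i _ hxy
      have hBt : ∀ i, Tst (B i) ∧ nr s (B i) ≤ Cb i := fun i => hCb i _ hxy
      have heq : ((fun z => χ z * f fun i => bessel s (x i) z) -
          fun z => χ z * f fun i => bessel s (y i) z) =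
          ∑ i, (bessel s (x i - y i) * A i + bessel s (Cj (x i - y i)) * B i) := by
        funext z
        have he : (fun j => bessel s (Sum.elim x y j) z) =
            Sum.elim (fun i => bessel s (x i) z) (fun i => bessel s (y i) z) := by
          funext j
          rcases j with j | j <;> rfl
        rw [Pi.sub_apply, ← mul_sub, hsum, Finset.sum_apply, Finset.mul_sum]
        refine Finset.sum_congr rfl fun i _ => ?_
        simp only [Pi.add_apply, Pi.mul_apply, hA, hB, he, (hCj _).2.2, hsub]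
        ring
      have hn : ∀ i, ‖x i - y i‖ₑ ≤ ‖x - y‖ₑ := fun i => by
        rw [← ofReal_norm, ← ofReal_norm]
        exact ENNReal.ofReal_le_ofReal (norm_le_pi_norm (x - y) i)
      have ht1 : ∀ i, Tst (bessel s (x i - y i) * A i) := fun i => tst_mul hBL s (hd i) (hAt i).1
      have ht2 : ∀ i, Tst (bessel s (Cj (x i - y i)) * B i) := fun i =>
        tst_mul hBL s ((hCj _).2.1 (hd i)) (hBt i).1
      rw [heq]
      refine (nr_sum hTST s Finset.univ _ fun i => tst_add (ht1 i) (ht2 i)).2.trans ?_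
      rw [ENNReal.ofNNReal_finsetSum, Finset.sum_mul]
      refine Finset.sum_le_sum fun i _ => ?_
      refine ((hTST _ (ht1 i)).2.2.2.2 _ (ht2 i) s).trans ?_
      have h1 : nr s (bessel s (x i - y i) * A i) ≤ Cm * ‖x - y‖ₑ * Ca i :=
        (hCm _ _ (hAt i).1).trans (mul_le_mul' (mul_le_mul' le_rfl (hn i)) (hAt i).2)
      have hc : ‖Cj (x i - y i)‖ₑ ≤ ‖x - y‖ₑ := by
        refine le_trans (le_of_eq ?_) (hn i)
        rw [← ofReal_norm, ← ofReal_norm, (hCj _).1]
      have h2 : nr s (bessel s (Cj (x i - y i)) * B i) ≤ Cm * ‖x - y‖ₑ * Cb i :=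
        (hCm _ _ (hBt i).1).trans (mul_le_mul' (mul_le_mul' le_rfl hc) (hBt i).2)
      refine (add_le_add h1 h2).trans (le_of_eq ?_)
      push_cast
      ring)
  exact ⟨Φ, hΦ, fun g z => by rw [hΦ' g]⟩

end Pool.Agent.Lib.LM
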