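import Pool.Agent.Lib.LM.Blue

/-! Row PART of the project lm: two descriptions of piecewise properties on `[0, 1]`. -/

set_option autoImplicit false

open Set

namespace Pool.Agent.Lib.LM

theorem st_PART : St_PART := by
  classical
  intro P hP
  constructor
  · rintro ⟨S, hS⟩
    obtain ⟨T, hT⟩ : ∃ T : Finset ℝ, ∀ t, t ∈ T ↔ t = 0 ∨ t = 1 ∨ (t ∈ S ∧ t ∈ Ioo (0 : ℝ) 1) :=
      ⟨insert 0 (insert 1 (S.filter (· ∈ Ioo (0 : ℝ) 1))), fun t => by
        simp only [Finset.mem_insert, Finset.mem_filter]⟩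
    obtain ⟨n, hn⟩ : ∃ n, T.card = n + 1 :=
      Nat.exists_eq_succ_of_ne_zero (Finset.card_pos.2 ⟨0, (hT 0).2 (Or.inl rfl)⟩).ne'
    have hr : ∀ t ∈ T, ∃ j, T.orderEmbOfFin hn j = t := fun t ht => by
      have : t ∈ range (T.orderEmbOfFin hn) := by
        rw [Finset.range_orderEmbOfFin]
        exact ht
      exact this
    have hm : ∀ j, 0 ≤ T.orderEmbOfFin hn j ∧ T.orderEmbOfFin hn j ≤ 1 := fun j => by
      rcases (hT _).1 (T.orderEmbOfFin_mem hn j) with h | h | h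
      · rw [h]
        exact ⟨le_rfl, zero_le_one⟩
      · rw [h]
        exact ⟨zero_le_one, le_rfl⟩
      · exact ⟨h.2.1.le, h.2.2.le⟩
    refine ⟨n, T.orderEmbOfFin hn, (T.orderEmbOfFin hn).strictMono, ?_, ?_, fun i => ?_⟩
    · obtain ⟨j, hj⟩ := hr 0 ((hT 0).2 (Or.inl rfl))
      exact le_antisymm (((T.orderEmbOfFin hn).monotone (Fin.zero_le j)).trans hj.le) (hm 0).1
    · obtain ⟨j, hj⟩ := hr 1 ((hT 1).2 (Or.inr (Or.inl rfl)))
      exact le_antisymm (hm _).2 (hj.ge.trans ((T.orderEmbOfFin hn).monotone (Fin.le_last j)))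
    · refine hS _ _ (hm _).1 (hm _).2 fun t ht h => ?_
      obtain ⟨j, rfl⟩ := hr t ((hT t).2 (Or.inr (Or.inr
        ⟨ht, (hm _).1.trans_lt h.1, h.2.trans_le (hm _).2⟩)))
      have h1 := (T.orderEmbOfFin hn).lt_iff_lt.1 h.1
      have h2 := (T.orderEmbOfFin hn).lt_iff_lt.1 h.2
      rw [Fin.lt_def] at h1 h2
      simp only [Fin.val_castSucc, Fin.val_succ] at h1 h2
      omega
  · rintro ⟨n, τ, hτ, h0, h1, hi⟩
    refine ⟨Finset.univ.image τ, fun a b ha hb h => ?_⟩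
    have hn : 0 < n := by
      rcases Nat.eq_zero_or_pos n with rfl | hn
      · exact absurd (h0.symm.trans h1) zero_ne_one
      · exact hn
    obtain ⟨i, hi1, hi2⟩ := Finset.exists_max_image
      (Finset.univ.filter fun i : Fin n => τ i.castSucc ≤ a) id
      ⟨⟨0, hn⟩, Finset.mem_filter.2 ⟨Finset.mem_univ _, h0.le.trans ha⟩⟩
    refine hP _ _ (Icc_subset_Icc (Finset.mem_filter.1 hi1).2 (le_of_not_gt fun c => ?_)) (hi i)
    have h2 : i.succ < Fin.last n := hτ.lt_iff_lt.1 (h1 ▸ c.trans_le hb)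
    refine h _ (Finset.mem_image_of_mem τ (Finset.mem_univ i.succ)) ⟨lt_of_not_ge fun d => ?_, c⟩
    have h3 := hi2 ⟨i + 1, h2⟩ (Finset.mem_filter.2 ⟨Finset.mem_univ _, d⟩)
    exact absurd (Fin.le_def.1 h3) (Nat.not_succ_le_self i)

end Pool.Agent.Lib.LM
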