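import Pool.Agent.Lib.LM.Blue

set_option autoImplicit false

open MeasureTheory Set Filter
open scoped Topology

namespace Pool.Agent.Lib.LM

open Pool.Agent.Lib.MP_f62ea7_gt (L2 bessel IsDiff IsCurve)

theorem st_PATH (hC1 : St_C1) (hGLUE : St_GLUE) (hDICT : St_DICT) (hPART : St_PART) :
    St_PATH := by
  classical
  intro s hs M A _ hF hM f φ hφ
  refine ⟨?_, ?_⟩
  · rintro γ ⟨h0, h1, hin, n, τ, hτ, hτ0, hτ1, hC⟩
    let γ' : ℝ → ℂ → ℂ := fun t z => if h : z ∈ M then (γ t ⟨z, h⟩ : ℂ) else z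
    have hγ : ∀ (t : ℝ) (x : M), (γ t x : ℂ) = γ' t x := fun t x => by
      simp only [γ', dif_pos x.2]
    obtain ⟨g, hg⟩ := hGLUE s (by linarith) M hM γ'
    obtain ⟨S, hS⟩ := (hPART (fun J => ContDiffOn ℝ 1 g J ∧
        ∀ t ∈ J, ∀ z ∈ M, γ' t z = bessel s (g t) z)
      (fun J J' hJ h => ⟨h.1.mono hJ, fun t ht => h.2 t (hJ ht)⟩)).2
      ⟨n, τ, hτ, hτ0, hτ1, fun i =>
        hg _ ((hC1 s hs M A hF _ (fun t => γ t) γ' fun t _ x => hγ t x).1 (hC i))⟩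
    refine ⟨γ', ⟨⟨g, S, fun a b ha hb h => (hS a b ha hb h).1, fun t ht z hz => ?_⟩,
      fun t ht => (hDICT s hs M A hF hM (γ' t)).1 (γ t) (hγ t) (hin t ht), fun z hz => ?_,
      fun z hz => ?_⟩, fun t _ x => hγ t x⟩
    · exact (hS t t ht.1 ht.2 (by simp)).2 t (by simp) z hz
    · rw [← hγ 0 ⟨z, hz⟩, h0]
      rfl
    · rw [← hγ 1 ⟨z, hz⟩, h1]
      exact hφ ⟨z, hz⟩
  · rintro γ' ⟨⟨g, S, hS, hg⟩, hin, h0, h1⟩
    have hex : ∀ t : ℝ, ∃ η : M ≃ M, t ∈ Icc (0 : ℝ) 1 →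
        (∀ x : M, (η x : ℂ) = γ' t x) ∧ InD s (volume.comap Subtype.val) η := fun t => by
      by_cases ht : t ∈ Icc (0 : ℝ) 1
      · obtain ⟨η, hη⟩ := (hDICT s hs M A hF hM (γ' t)).2 (hin t ht)
        exact ⟨η, fun _ => hη⟩
      · exact ⟨Equiv.refl M, fun h => absurd h ht⟩
    choose γ hγ using hex
    obtain ⟨n, τ, hτ, hτ0, hτ1, hC⟩ := (hPART (fun J => J ⊆ Icc (0 : ℝ) 1 ∧ ContDiffOn ℝ 1 g J)
      (fun J J' hJ h => ⟨hJ.trans h.1, h.2.mono hJ⟩)).1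
      ⟨S, fun a b ha hb h => ⟨Icc_subset_Icc ha hb, hS a b ha hb h⟩⟩
    refine ⟨γ, ⟨?_, ?_, fun t ht => (hγ t ht).2, n, τ, hτ, hτ0, hτ1, fun i => ?_⟩,
      fun t ht => (hγ t ht).1⟩
    · ext x
      rw [(hγ 0 (by simp)).1 x, h0 x x.2]
      rfl
    · ext x
      rw [(hγ 1 (by simp)).1 x, h1 x x.2, hφ x]
    · refine (hC1 s hs M A hF _ (fun t => γ t) γ' fun t ht => (hγ t ((hC i).1 ht)).1).2 ?_
      intro t₀ ht₀ p _
      refine ⟨g, (hC i).2 t₀ ht₀, ?_⟩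
      filter_upwards [prod_mem_prod self_mem_nhdsWithin self_mem_nhdsWithin] with q hq
      exact hg q.1 ((hC i).1 hq.1) q.2 hq.2

end Pool.Agent.Lib.LM
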