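import Pool.Agent.Lib.LM.Blue

set_option autoImplicit false

open MeasureTheory Set Filter
open scoped FourierTransform ContDiff ENNReal NNReal Topology SchwartzMap

namespace Pool.Agent.Lib.LM

open Pool.Agent.Lib.MP_f62ea7_gt (L2 bessel)

namespace T44

theorem wt_pos (r : ℝ) (ξ : ℂ) : 0 < wt r ξ := Real.rpow_pos_of_pos (by positivity) _

theorem wt_mul (r r' : ℝ) (ξ : ℂ) : wt r ξ * wt r' ξ = wt (r + r') ξ := by
  unfold wt
  rw [← Real.rpow_add (by positivity), add_div]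

theorem wt_zero (ξ : ℂ) : wt 0 ξ = 1 := by simp [wt]

theorem wt_mono {r r' : ℝ} (h : r ≤ r') (ξ : ℂ) : wt r ξ ≤ wt r' ξ :=
  Real.rpow_le_rpow_of_exponent_le (le_add_of_nonneg_right (by positivity)) (by linarith)

theorem wt_one_le (ξ : ℂ) : wt 1 ξ ≤ 1 + |ξ.re| + |ξ.im| := by
  unfold wt
  rw [← Real.sqrt_eq_rpow]
  apply Real.sqrt_le_iff.2 ⟨by positivity, ?_⟩
  have h1 := Complex.norm_le_abs_re_add_abs_im ξ
  have h2 := norm_nonneg ξ
  nlinarith [abs_nonneg ξ.re, abs_nonneg ξ.im]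

theorem wt_cont (r : ℝ) : Continuous (wt r) :=
  Continuous.rpow_const (by fun_prop) fun x => Or.inl (by positivity)

/-- the weighted transform as a Schwartz function -/
noncomputable def W (r : ℝ) (f : 𝓢(ℂ, ℂ)) : 𝓢(ℂ, ℂ) :=
  SchwartzMap.smulLeftCLM ℂ (wt r) (𝓕 f)

theorem W_apply (r : ℝ) (f : 𝓢(ℂ, ℂ)) (ξ : ℂ) : W r f ξ = wt r ξ • 𝓕 (f : ℂ → ℂ) ξ :=
  SchwartzMap.smulLeftCLM_apply_apply
    (Function.hasTemperateGrowth_one_add_norm_sq_rpow ℂ (r / 2)) _ _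

theorem nr_eq (r : ℝ) (f : 𝓢(ℂ, ℂ)) : nr r f = eLpNorm (W r f) 2 volume := by
  unfold nr
  congr 1
  funext ξ
  rw [W_apply]

theorem fourier_deriv (f : 𝓢(ℂ, ℂ)) (v ξ : ℂ) :
    ‖𝓕 (fun z => fderiv ℝ (f : ℂ → ℂ) z v) ξ‖ =
      2 * Real.pi * |inner ℝ ξ v| * ‖𝓕 (f : ℂ → ℂ) ξ‖ := by
  have hi : Integrable (fderiv ℝ (f : ℂ → ℂ)) := (SchwartzMap.fderivCLM ℝ ℂ ℂ f).integrable
  rw [← Real.fourier_continuousLinearMap_apply hi,
    Real.fourier_fderiv f.integrable f.differentiable hi]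
  have e : (innerSL ℝ) ξ v = inner ℝ ξ v := rfl
  rw [← e]
  generalize (innerSL ℝ : ℂ →L[ℝ] ℂ →L[ℝ] ℝ) = L
  simp [VectorFourier.fourierSMulRight_apply, abs_of_pos Real.pi_pos, mul_assoc]

theorem part1 (f : 𝓢(ℂ, ℂ)) (r : ℝ) :
    ∃ g : L2, (∀ᵐ ξ, g ξ = wt r ξ • 𝓕 (f : ℂ → ℂ) ξ) ∧ bessel r g = f ∧ ‖g‖ₑ = nr r f := by
  have h1 : ∀ᵐ ξ, (W r f).toLp 2 volume ξ = wt r ξ • 𝓕 (f : ℂ → ℂ) ξ := by
    filter_upwards [(W r f).coeFn_toLp 2 volume] with ξ h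
    rw [h, W_apply]
  refine ⟨(W r f).toLp 2 volume, h1, ?_, ?_⟩
  · have h2 : (fun ξ => wt (-r) ξ • (W r f).toLp 2 volume ξ) =ᵐ[volume] 𝓕 (f : ℂ → ℂ) := by
      filter_upwards [h1] with ξ h
      rw [h, smul_smul, wt_mul, neg_add_cancel, wt_zero, one_smul]
    funext z
    have h3 : bessel r ((W r f).toLp 2 volume) z =
        𝓕⁻ (fun ξ => wt (-r) ξ • (W r f).toLp 2 volume ξ) z := rfl
    rw [h3, Real.fourierInv_congr_ae h2,
      f.continuous.fourierInv_fourier_eq f.integrable (𝓕 f).integrable]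
  · rw [nr_eq, Lp.enorm_def, eLpNorm_congr_ae ((W r f).coeFn_toLp 2 volume)]

theorem part2 (f : 𝓢(ℂ, ℂ)) : nr 0 f = eLpNorm f 2 volume := by
  have h : nr 0 f = eLpNorm (𝓕 f : 𝓢(ℂ, ℂ)) 2 volume := by
    unfold nr
    simp only [wt_zero, one_smul]
    rfl
  have h2 := SchwartzMap.norm_fourier_toL2_eq f
  rw [SchwartzMap.norm_toLp, SchwartzMap.norm_toLp] at h2
  rw [h]
  exact (ENNReal.toReal_eq_toReal_iff' ((𝓕 f : 𝓢(ℂ, ℂ)).memLp 2 volume).2.ne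
    (f.memLp 2 volume).2.ne).1 h2

theorem part3 (F : ℂ → ℂ) (r r' : ℝ) (h : r ≤ r') : nr r F ≤ nr r' F := by
  apply eLpNorm_mono
  intro ξ
  rw [norm_smul, norm_smul, Real.norm_of_nonneg (wt_pos _ _).le,
    Real.norm_of_nonneg (wt_pos _ _).le]
  exact mul_le_mul_of_nonneg_right (wt_mono h ξ) (norm_nonneg _)

theorem part5 (f f' : 𝓢(ℂ, ℂ)) (r : ℝ) : nr r ((f : ℂ → ℂ) + f') ≤ nr r f + nr r f' := by
  have h : W r (f + f') = W r f + W r f' := by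
    unfold W
    rw [FourierTransform.fourier_add, map_add]
  have e : ((f : ℂ → ℂ) + f') = (f + f' : 𝓢(ℂ, ℂ)) := rfl
  rw [e, nr_eq, nr_eq, nr_eq, h]
  exact eLpNorm_add_le (W r f).continuous.aestronglyMeasurable
    (W r f').continuous.aestronglyMeasurable (by norm_num)

theorem part4 (f f1 f2 : 𝓢(ℂ, ℂ)) (h1 : (f1 : ℂ → ℂ) = fun z => fderiv ℝ (f : ℂ → ℂ) z 1)
    (h2 : (f2 : ℂ → ℂ) = fun z => fderiv ℝ (f : ℂ → ℂ) z Complex.I) (r : ℝ) :
    nr (r + 1) f ≤ nr r f + nr r f1 + nr r f2 := by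
  rw [nr_eq, nr_eq, nr_eq, nr_eq, ← eLpNorm_norm (W r f), ← eLpNorm_norm (W r f1),
    ← eLpNorm_norm (W r f2)]
  have m0 := (W r f).continuous.norm.aestronglyMeasurable (μ := volume)
  have m1 := (W r f1).continuous.norm.aestronglyMeasurable (μ := volume)
  have m2 := (W r f2).continuous.norm.aestronglyMeasurable (μ := volume)
  refine le_trans ?_ (add_le_add_left (eLpNorm_add_le m0 m1 (by norm_num)) _)
  refine le_trans ?_ (eLpNorm_add_le (m0.add m1) m2 (by norm_num))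
  apply eLpNorm_mono
  intro ξ
  refine le_trans ?_ (le_abs_self _)
  simp only [Pi.add_apply, W_apply, norm_smul, Real.norm_of_nonneg (wt_pos _ _).le]
  rw [h1, h2, fourier_deriv, fourier_deriv, ← wt_mul]
  have e1 : inner ℝ ξ (1 : ℂ) = ξ.re := by simp [Complex.inner]
  have e2 : inner ℝ ξ Complex.I = ξ.im := by simp [Complex.inner]
  rw [e1, e2]
  have a := wt_pos r ξ
  have b := norm_nonneg (𝓕 (f : ℂ → ℂ) ξ)
  have c := wt_one_le ξ
  have p := Real.two_le_pi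
  have d1 := abs_nonneg ξ.re
  have d2 := abs_nonneg ξ.im
  have k : wt 1 ξ ≤ 1 + 2 * Real.pi * |ξ.re| + 2 * Real.pi * |ξ.im| := by nlinarith
  have := mul_le_mul_of_nonneg_left k (mul_nonneg a.le b)
  nlinarith

theorem tst_deriv {F : ℂ → ℂ} (h : Tst F) (v : ℂ) : Tst fun z => fderiv ℝ F z v :=
  ⟨(h.1.fderiv_right (m := ∞) (by simp)).clm_apply contDiff_const,
    h.2.fderiv_apply ℝ v⟩

end T44

theorem st_TST : St_TST := by
  intro F hF
  let f := hF.2.toSchwartzMap hF.1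
  refine ⟨T44.part1 f, T44.part2 f, T44.part3 F, fun r => ?_, fun F' hF' r => ?_⟩
  · exact T44.part4 f ((T44.tst_deriv hF 1).2.toSchwartzMap (T44.tst_deriv hF 1).1)
      ((T44.tst_deriv hF Complex.I).2.toSchwartzMap (T44.tst_deriv hF Complex.I).1) rfl rfl r
  · exact T44.part5 f (hF'.2.toSchwartzMap hF'.1) r

end Pool.Agent.Lib.LM
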