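import Pool.Agent.Lib.LM.Blue

set_option autoImplicit false

open Set Filter
open scoped ContDiff Manifold Topology

namespace Pool.Agent.Lib.LM

namespace T2

variable {M : Set ℂ} {A : Atl M} [ChartedSpace (EuclideanHalfSpace 2) M]

theorem near (A : Atl M) (p : M) : ∀ᶠ x : M in 𝓝 p, (x : ℂ) ∈ (A.κ p).source :=
  continuous_subtype_val.continuousAt.eventually ((A.κ p).open_source.mem_nhds (A.mem p p.2))

theorem chart_eq (h : Fit A) (p : M) :
    extChartAt (𝓡∂ 2) p =ᶠ[𝓝 p] (fun z => io (A.κ p z)) ∘ Subtype.val :=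
  (near A p).mono fun x hx => h.app p x hx

theorem val_eq (h : Fit A) (p : M) : (Subtype.val : M → ℂ) =ᶠ[𝓝 p]
    (fun y => (A.κ p).symm (io.symm y)) ∘ extChartAt (𝓡∂ 2) p :=
  (near A p).mono fun x hx => by
    rw [Function.comp_apply, h.app p x hx, io.symm_apply_apply, (A.κ p).left_inv hx]

theorem sm (A : Atl M) (p : M) : ContDiffAt ℝ ∞ (fun z => io (A.κ p z)) p :=
  io.contDiff.contDiffAt.comp _
    ((A.dif p).1.contDiffAt ((A.κ p).open_source.mem_nhds (A.mem p p.2)))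

theorem sm' (h : Fit A) (p : M) :
    ContDiffAt ℝ ∞ (fun y => (A.κ p).symm (io.symm y)) (extChartAt (𝓡∂ 2) p p) := by
  refine ContDiffAt.comp _ ((A.dif p).2.contDiffAt ?_) io.symm.contDiff.contDiffAt
  rw [h.app p p (A.mem p p.2), io.symm_apply_apply]
  exact (A.κ p).open_target.mem_nhds ((A.κ p).map_source (A.mem p p.2))

theorem val (h : Fit A) : ContMDiff (𝓡∂ 2) 𝓘(ℝ, ℂ) ∞ (Subtype.val : M → ℂ) := fun p =>
  ((sm' h p).comp_contMDiffAt contMDiffAt_extChartAt).congr_of_eventuallyEq (val_eq h p)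

theorem val' (h : Fit A) (p : M) :
    MDifferentiableAt (𝓡∂ 2) 𝓘(ℝ, ℂ) (Subtype.val : M → ℂ) p :=
  (val h p).mdifferentiableAt (by simp)

theorem lift (h : Fit A) {c : ℝ → M} {t : ℝ} (hc : DifferentiableAt ℝ (fun τ => (c τ : ℂ)) t) :
    MDifferentiableAt 𝓘(ℝ, ℝ) (𝓡∂ 2) c t := by
  have h0 : ContinuousAt c t := Topology.IsInducing.subtypeVal.continuousAt_iff.2 hc.continuousAt
  refine mdifferentiableAt_iff_target.2 ⟨h0, ?_⟩
  exact (((sm A (c t)).differentiableAt (by simp)).comp t hc).mdifferentiableAt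
    |>.congr_of_eventuallyEq ((chart_eq h (c t)).comp_tendsto h0)

end T2

open T2

theorem st_VAL : St_VAL := by
  intro M A _ _ h
  refine ⟨val h, fun x => ?_, fun c t => ?_, fun f F hF e => ?_⟩
  · have h1 := mfderiv_comp x ((sm A x).differentiableAt (by simp)).mdifferentiableAt (val' h x)
    rw [← (chart_eq h x).mfderiv_eq, mfderiv_extChartAt_self] at h1
    intro v w hv
    exact (DFunLike.congr_fun h1 v).trans ((congrArg (mfderiv 𝓘(ℝ, ℂ) 𝓘(ℝ, E2)
      (fun z => io (A.κ x z)) (x : ℂ)) hv).trans (DFunLike.congr_fun h1 w).symm)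
  · by_cases hc : MDifferentiableAt 𝓘(ℝ, ℝ) (𝓡∂ 2) c t
    · have h1 := mfderiv_comp_apply t (val' h (c t)) hc (1 : ℝ)
      rw [mfderiv_eq_fderiv] at h1
      exact h1.symm
    · rw [mfderiv_zero_of_not_mdifferentiableAt hc,
        deriv_zero_of_not_differentiableAt fun k => hc (lift h k)]
      exact map_zero _
  · have e' : Subtype.val ∘ f = F ∘ Subtype.val := funext e
    have h0 : Continuous f := Topology.IsInducing.subtypeVal.continuous_iff.2
      (e' ▸ hF.continuous.comp continuous_subtype_val)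
    have h1 : ContMDiff (𝓡∂ 2) (𝓡∂ 2) ∞ f := fun x => by
      refine contMDiffAt_iff_target.2 ⟨h0.continuousAt, ?_⟩
      have h2 : ContMDiffAt (𝓡∂ 2) 𝓘(ℝ, ℂ) ∞ (Subtype.val ∘ f) x :=
        e' ▸ hF.contDiffAt.comp_contMDiffAt (val h x)
      exact (ContDiffAt.comp_contMDiffAt (f := Subtype.val ∘ f) (x := x) (sm A (f x))
        h2).congr_of_eventuallyEq ((chart_eq h (f x)).comp_tendsto h0.continuousAt)
    refine ⟨h1, fun x v => ?_⟩
    have h2 := mfderiv_comp_apply x (val' h (f x)) ((h1 x).mdifferentiableAt (by simp)) v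
    have h3 := mfderiv_comp_apply x
      (hF.differentiable (by simp) (x : ℂ)).mdifferentiableAt (val' h x) v
    rw [mfderiv_eq_fderiv] at h3
    refine h2.symm.trans (Eq.trans ?_ h3)
    exact congrArg (fun k : M → ℂ => (mfderiv (𝓡∂ 2) 𝓘(ℝ, ℂ) k x v : ℂ)) e'

end Pool.Agent.Lib.LM
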