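import Pool.Agent.Lib.LM.Blue

set_option autoImplicit false

open MeasureTheory Set Filter
open scoped ContDiff ENNReal Manifold Topology

namespace Pool.Agent.Lib.LM

open Pool.Agent.Lib.ISOC (IsMetric)

namespace T57

theorem det_eq (L : ℂ →L[ℝ] ℂ) :
    L.det = (L 1).re * (L Complex.I).im - (L Complex.I).re * (L 1).im := by
  rw [ContinuousLinearMap.det, ← LinearMap.det_toMatrix Complex.basisOneI, Matrix.det_fin_two]
  simp [LinearMap.toMatrix_apply]

theorem io_symm0 : io.symm (EuclideanSpace.single (0 : Fin 2) (1 : ℝ)) = 1 := by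
  simp [io]

theorem io_symm1 : io.symm (EuclideanSpace.single (1 : Fin 2) (1 : ℝ)) = Complex.I := by
  simp [io]

theorem hasF {κ : OpenPartialHomeomorph ℂ ℂ} (h : Dif κ) {w : ℂ} (hw : w ∈ κ.target) :
    HasFDerivAt κ.symm (fderiv ℝ κ.symm w) w :=
  ((h.2.contDiffAt (κ.open_target.mem_nhds hw)).differentiableAt (by simp)).hasFDerivAt

theorem chain {M : Set ℂ} (A : Atl M) [ChartedSpace (EuclideanHalfSpace 2) M]
    [IsManifold (𝓡∂ 2) ∞ M] (hF : Fit A)
    (hv : ContMDiff (𝓡∂ 2) 𝓘(ℝ, ℂ) ∞ (Subtype.val : M → ℂ)) (p : M) (y : E2)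
    (hy : y ∈ (extChartAt (𝓡∂ 2) p).target) (v : E2) :
    dv ((extChartAt (𝓡∂ 2) p).symm y)
      (mfderivWithin 𝓘(ℝ, E2) (𝓡∂ 2) (extChartAt (𝓡∂ 2) p).symm (range (𝓡∂ 2)) y v) =
      fderiv ℝ (A.κ p).symm (io.symm y) (io.symm v) := by
  have h1 := (hv.mdifferentiableAt (x := (extChartAt (𝓡∂ 2) p).symm y) (by simp)).hasMFDerivAt
  have h2 := (mdifferentiableWithinAt_extChartAt_symm (I := 𝓡∂ 2) hy).hasMFDerivWithinAt
  let D : E2 →L[ℝ] E2 :=
    mfderivWithin 𝓘(ℝ, E2) (𝓡∂ 2) (extChartAt (𝓡∂ 2) p).symm (range (𝓡∂ 2)) y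
  have h3 : HasFDerivWithinAt (Subtype.val ∘ (extChartAt (𝓡∂ 2) p).symm)
      ((dv ((extChartAt (𝓡∂ 2) p).symm y)).comp D) (range (𝓡∂ 2)) y :=
    hasMFDerivWithinAt_iff_hasFDerivWithinAt.1 (h1.comp_hasMFDerivWithinAt y h2)
  have h4 : HasFDerivAt (fun y : E2 => (A.κ p).symm (io.symm y))
      ((fderiv ℝ (A.κ p).symm (io.symm y)).comp io.symm.toContinuousLinearEquiv.toContinuousLinearMap)
      y :=
    (hasF (A.dif p) ((hF.tgt p y).1 hy).1).comp y io.symm.toContinuousLinearEquiv.hasFDerivAt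
  have h5 : HasFDerivWithinAt (Subtype.val ∘ (extChartAt (𝓡∂ 2) p).symm)
      ((fderiv ℝ (A.κ p).symm (io.symm y)).comp io.symm.toContinuousLinearEquiv.toContinuousLinearMap)
      (range (𝓡∂ 2)) y := by
    refine h4.hasFDerivWithinAt.congr_of_eventuallyEq ?_ (hF.inv p y hy)
    filter_upwards [extChartAt_target_mem_nhdsWithin_of_mem hy] with z hz using hF.inv p z hz
  have h6 := ((𝓡∂ 2).uniqueDiffOn y (extChartAt_target_subset_range p hy)).eq h3 h5
  exact DFunLike.congr_fun h6 v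

theorem dens {M : Set ℂ} (A : Atl M) [ChartedSpace (EuclideanHalfSpace 2) M]
    [IsManifold (𝓡∂ 2) ∞ M] (hF : Fit A)
    (hv : ContMDiff (𝓡∂ 2) 𝓘(ℝ, ℂ) ∞ (Subtype.val : M → ℂ)) {E F G : ℂ → ℝ}
    (hm : IsMetric E F G M) {g : RMet M} (hg : Pull E F G g) (p : M) (y : E2)
    (hy : y ∈ (extChartAt (𝓡∂ 2) p).target) :
    √(gram g p y).det = |(fderiv ℝ (A.κ p).symm (io.symm y)).det| := by
  have h1 := (hm.2.2.2 _ ((extChartAt (𝓡∂ 2) p).symm y).2).2
  have e : ∀ i j : Fin 2, gram g p y i j = bf E F G ((extChartAt (𝓡∂ 2) p).symm y)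
      (fderiv ℝ (A.κ p).symm (io.symm y) (io.symm (EuclideanSpace.single i 1)))
      (fderiv ℝ (A.κ p).symm (io.symm y) (io.symm (EuclideanSpace.single j 1))) := by
    intro i j
    rw [← chain A hF hv p y hy, ← chain A hF hv p y hy]
    exact hg _ _ _
  rw [← Real.sqrt_sq_eq_abs, Matrix.det_fin_two, e, e, e, e, io_symm0, io_symm1, det_eq]
  congr 1
  unfold bf
  linear_combination (((fderiv ℝ (A.κ p).symm (io.symm y)) 1).re *
    ((fderiv ℝ (A.κ p).symm (io.symm y)) Complex.I).im -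
    ((fderiv ℝ (A.κ p).symm (io.symm y)) Complex.I).re *
    ((fderiv ℝ (A.κ p).symm (io.symm y)) 1).im) ^ 2 * h1

end T57

open T57 in
theorem st_VOL (hVAL : St_VAL) : St_VOL := by
  intro M A _ _ hF hM E F G hm g hg p S hS hSm
  have hv := (hVAL M A hF).1
  have hMm : MeasurableSet M := hM.isClosed.measurableSet
  have hsrc : Subtype.val '' S ⊆ (A.κ p).source := by
    rintro _ ⟨x, hx, rfl⟩
    exact (hF.src p x).1 (hS hx)
  have hV : MeasurableSet (Subtype.val '' S : Set ℂ) :=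
    (MeasurableEmbedding.subtype_coe hMm).measurableSet_image.2 hSm
  have hW : MeasurableSet (A.κ p '' (Subtype.val '' S)) :=
    hV.image_of_continuousOn_injOn ((A.κ p).continuousOn.mono hsrc) ((A.κ p).injOn.mono hsrc)
  have hWt : A.κ p '' (Subtype.val '' S) ⊆ (A.κ p).target := by
    rintro _ ⟨z, hz, rfl⟩
    exact (A.κ p).map_source (hsrc hz)
  have him : extChartAt (𝓡∂ 2) p '' S = io '' (A.κ p '' (Subtype.val '' S)) := by
    rw [image_image, image_image]
    exact image_congr fun x hx => hF.app p x (hsrc ⟨x, hx, rfl⟩)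
  have hback : (A.κ p).symm '' (A.κ p '' (Subtype.val '' S)) = Subtype.val '' S :=
    (A.κ p).toPartialEquiv.symm_image_image_of_subset_source hsrc
  have hcv := lintegral_abs_det_fderiv_eq_addHaar_image (volume : Measure ℂ) hW
    (f := (A.κ p).symm) (f' := fun w => fderiv ℝ (A.κ p).symm w)
    (fun w hw => (hasF (A.dif p) (hWt hw)).hasFDerivWithinAt) ((A.κ p).symm.injOn.mono hWt)
  rw [(MeasurableEmbedding.subtype_coe hMm).comap_apply, ← hback, ← hcv, him,
    ← io.measurePreserving.setLIntegral_comp_emb io.toHomeomorph.measurableEmbedding]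
  refine setLIntegral_congr_fun hW fun w hw => ?_
  have hy : io w ∈ (extChartAt (𝓡∂ 2) p).target := by
    have : io w ∈ extChartAt (𝓡∂ 2) p '' S := him ▸ mem_image_of_mem _ hw
    obtain ⟨x, hx, hx'⟩ := this
    rw [← hx']
    exact (extChartAt (𝓡∂ 2) p).map_source (by rw [extChartAt_source]; exact hS hx)
  have := dens A hF hv hm hg p (io w) hy
  simp only [LinearIsometryEquiv.symm_apply_apply] at this
  simp only [this]

end Pool.Agent.Lib.LM
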