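import Pool.Agent.Lib.LM.Defs
import Pool.Agent.Lib.ISOC.Defs

/-! Blueprint of the bridge from plane domains to manifolds with boundary. -/

set_option autoImplicit false

open MeasureTheory Set Filter
open scoped FourierTransform ContDiff ENNReal NNReal Manifold Topology ComplexConjugate

namespace Pool.Agent.Lib.LM

open Pool.Agent.Lib.MP_f62ea7_gt (L2 bessel IsDomain IsDiff IsCurve)
open Pool.Agent.Lib.ISOC (IsMetric energyG)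

/-! ### Sobolev spaces on the plane -/

/-- the weight -/
noncomputable def wt (r : ℝ) (ξ : ℂ) : ℝ := (1 + ‖ξ‖ ^ 2) ^ (r / 2)

/-- test function -/
def Tst (F : ℂ → ℂ) : Prop := ContDiff ℝ ∞ F ∧ HasCompactSupport F

/-- `H^r` norm -/
noncomputable def nr (r : ℝ) (F : ℂ → ℂ) : ℝ≥0∞ := eLpNorm (fun ξ => wt r ξ • 𝓕 F ξ) 2 volume

/-- bounded support -/
def BL (g : L2) : Prop := ∃ R : ℝ, ∀ᵐ ξ, R < ‖ξ‖ → g ξ = 0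

/-- local diffeomorphism of the plane -/
def Dif (κ : OpenPartialHomeomorph ℂ ℂ) : Prop :=
  ContDiffOn ℝ ∞ κ κ.source ∧ ContDiffOn ℝ ∞ κ.symm κ.target

/-- evaluation, continuity, injectivity -/
def St_EV : Prop := ∀ s : ℝ, 1 < s → (∃ Bs : L2 →L[ℂ] BoundedContinuousFunction ℂ ℂ,
  ∀ g z, Bs g z = bessel s g z) ∧ ∀ g g' : L2, bessel s g = bessel s g' → g = g'

/-- test functions -/
def St_TST : Prop := ∀ F : ℂ → ℂ, Tst F →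
  (∀ r : ℝ, ∃ g : L2, (∀ᵐ ξ, g ξ = wt r ξ • 𝓕 F ξ) ∧ bessel r g = F ∧ ‖g‖ₑ = nr r F) ∧
  nr 0 F = eLpNorm F 2 volume ∧ (∀ r r' : ℝ, r ≤ r' → nr r F ≤ nr r' F) ∧
  (∀ r : ℝ, nr (r + 1) F ≤ nr r F + nr r (fun z => fderiv ℝ F z 1) +
    nr r fun z => fderiv ℝ F z Complex.I) ∧
  ∀ F' : ℂ → ℂ, Tst F' → ∀ r : ℝ, nr r (F + F') ≤ nr r F + nr r F'

/-- weighted convolution bound -/
def St_CONV : Prop := ∀ σ ρ : ℝ, 1 < σ → 0 ≤ ρ → ρ ≤ σ → ∃ C : ℝ≥0, ∀ g φ : ℂ → ℂ,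
  AEStronglyMeasurable g volume → AEStronglyMeasurable φ volume →
  eLpNorm (fun ξ => wt ρ ξ • ∫ η, (wt (-σ) η • g η) * φ (ξ - η)) 2 volume ≤
    C * eLpNorm g 2 volume * eLpNorm (fun ξ => wt ρ ξ • φ ξ) 2 volume

/-- multipliers -/
def St_MUL : Prop := ∀ σ ρ : ℝ, 1 < σ → 0 ≤ ρ → ρ ≤ σ → ∃ C : ℝ≥0, ∀ (g : L2) (F : ℂ → ℂ),
  Tst F → nr ρ (bessel σ g * F) ≤ C * ‖g‖ₑ * nr ρ F

/-- the algebra property -/
def St_ALG : Prop := ∀ s : ℝ, 1 < s → ∃ B : L2 →L[ℂ] L2 →L[ℂ] L2,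
  ∀ g g', bessel s (B g g') = bessel s g * bessel s g'

/-- complex conjugation and shift of the index -/
def St_CJ : Prop := (∃ Cj : L2 →L[ℝ] L2, ∀ g, ‖Cj g‖ = ‖g‖ ∧ (BL g → BL (Cj g)) ∧
    ∀ s z, bessel s (Cj g) z = conj (bessel s g z)) ∧
  ∀ r r' : ℝ, r ≤ r' → ∀ g : L2, ∃ g' : L2, ‖g'‖ ≤ ‖g‖ ∧ (BL g → BL g') ∧ bessel r g' = bessel r' g

/-- band limited functions -/
def St_BL : Prop := Dense {g : L2 | BL g} ∧ (∀ g g' : L2, BL g → BL g' → BL (g - g')) ∧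
  ∀ g : L2, BL g → eLpNorm (bessel 0 g) 2 volume ≤ ‖g‖ₑ ∧ ∀ s : ℝ, ContDiff ℝ ∞ (bessel s g) ∧
    ∀ v : ℂ, ∃ g' : L2, BL g' ∧ ‖g'‖ ≤ 7 * ‖v‖ * ‖g‖ ∧
      ∀ z, fderiv ℝ (bessel s g) z v = bessel (s - 1) g' z

/-- interpolation between weighted `L²` spaces -/
def St_INTERP : Prop := ∀ θ : ℝ, 0 < θ → θ < 1 → ∃ C₀ : ℝ≥0, ∀ (X : Type) [MeasurableSpace X]
  (μ : Measure X) [SFinite μ] (W : X → ℝ), Measurable W → (∀ x, 0 < W x) →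
  ∀ (D : Set (X → ℂ)) (T : (X → ℂ) → X → ℂ) (C : ℝ≥0),
  (∀ φ ∈ D, Measurable φ ∧ AEStronglyMeasurable (T φ) μ) →
  (∀ φ ∈ D, ∀ A, MeasurableSet A → A.indicator φ ∈ D ∧
    T φ =ᵐ[μ] T (A.indicator φ) + T (Aᶜ.indicator φ)) →
  (∀ φ ∈ D, eLpNorm (T φ) 2 μ ≤ C * eLpNorm φ 2 μ ∧
    eLpNorm (fun x => W x • T φ x) 2 μ ≤ C * eLpNorm (fun x => W x • φ x) 2 μ) →
  ∀ φ ∈ D, eLpNorm (fun x => W x ^ θ • T φ x) 2 μ ≤ C₀ * C * eLpNorm (fun x => W x ^ θ • φ x) 2 μ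

/-- change of coordinates, integer index -/
def St_COMPK : Prop := ∀ (κ : OpenPartialHomeomorph ℂ ℂ), Dif κ → ∀ (k : ℕ) (χ : ℂ → ℂ), Tst χ →
  tsupport χ ⊆ κ.source → ∃ C : ℝ≥0, ∀ g : L2, BL g →
    Tst (fun z => χ z * bessel k g (κ z)) ∧ nr k (fun z => χ z * bessel k g (κ z)) ≤ C * ‖g‖ₑ

/-- change of coordinates, real index, band limited functions -/
def St_COMPR : Prop := ∀ (κ : OpenPartialHomeomorph ℂ ℂ), Dif κ → ∀ (s : ℝ) (χ : ℂ → ℂ), 0 < s →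
  Tst χ → tsupport χ ⊆ κ.source → ∃ C : ℝ≥0, ∀ g : L2, BL g →
    Tst (fun z => χ z * bessel s g (κ z)) ∧ nr s (fun z => χ z * bessel s g (κ z)) ≤ C * ‖g‖ₑ

/-- extension from a dense set -/
def St_EXT : Prop := ∀ s : ℝ, 1 < s → ∀ (X : Type) [NormedAddCommGroup X] (D : Set X)
  (P : X → ℂ → ℂ), Dense D → (∀ z, Continuous fun x => P x z) → (∀ x ∈ D, Tst (P x)) →
  (∀ R : ℝ, ∃ C : ℝ≥0, ∀ x ∈ D, ∀ y ∈ D, ‖x‖ ≤ R → ‖y‖ ≤ R → nr s (P x - P y) ≤ C * ‖x - y‖ₑ) →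
  ∃ Φ : X → L2, Continuous Φ ∧ ∀ x, bessel s (Φ x) = P x

/-- change of coordinates -/
def St_COMP : Prop := ∀ (κ : OpenPartialHomeomorph ℂ ℂ), Dif κ → ∀ (s : ℝ) (χ : ℂ → ℂ), 1 < s →
  Tst χ → tsupport χ ⊆ κ.source → ∃ T : L2 →L[ℝ] L2,
    ∀ g z, bessel s (T g) z = χ z * bessel s g (κ z)

/-- Hadamard lemma -/
def St_HAD : Prop := ∀ (ι : Type) [Fintype ι] (f : (ι → ℂ) → ℂ), ContDiff ℝ ∞ f →
  ∃ a b : ι → (ι ⊕ ι → ℂ) → ℂ, (∀ i, ContDiff ℝ ∞ (a i) ∧ ContDiff ℝ ∞ (b i)) ∧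
    ∀ y z : ι → ℂ, f y - f z =
      ∑ i, ((y i - z i) * a i (Sum.elim y z) + conj (y i - z i) * b i (Sum.elim y z))

/-- composition on the left, a priori bound -/
def St_NEM0 : Prop := ∀ s : ℝ, 2 < s → ∀ (ι : Type) [Fintype ι] (f : (ι → ℂ) → ℂ) (χ : ℂ → ℂ)
  (R : ℝ), ContDiff ℝ ∞ f → Tst χ → ∃ C : ℝ≥0, ∀ g : ι → L2, (∀ i, BL (g i) ∧ ‖g i‖ ≤ R) →
    Tst (fun z => χ z * f fun i => bessel s (g i) z) ∧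
    nr s (fun z => χ z * f fun i => bessel s (g i) z) ≤ C

/-- composition on the left is continuous -/
def St_NEM1 : Prop := ∀ s : ℝ, 2 < s → ∀ (ι : Type) [Fintype ι] (f : (ι → ℂ) → ℂ) (χ : ℂ → ℂ),
  ContDiff ℝ ∞ f → Tst χ → ∃ Φ : (ι → L2) → L2, Continuous Φ ∧
    ∀ g z, bessel s (Φ g) z = χ z * f fun i => bessel s (g i) z

/-- the omega lemma -/
def St_NEM : Prop := ∀ s : ℝ, 2 < s → ∀ (f χ : ℂ → ℂ), ContDiff ℝ ∞ f → Tst χ →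
  ∃ Φ : L2 → L2, ContDiff ℝ 1 Φ ∧ ∀ g z, bessel s (Φ g) z = χ z * f (bessel s g z)

/-- local change of charts along a curve -/
def St_CHG : Prop := ∀ s : ℝ, 2 < s → ∀ (κ : OpenPartialHomeomorph ℂ ℂ), Dif κ →
  ∀ (p : ℂ), p ∈ κ.source → ∀ (J : Set ℝ) (t₀ : ℝ) (U : ℝ → L2), ContDiffWithinAt ℝ 1 U J t₀ →
  ∀ (O : Set ℂ) (F : ℂ → ℂ), IsOpen O → ContDiffOn ℝ ∞ F O → bessel s (U t₀) (κ p) ∈ O →
  ∃ U' : ℝ → L2, ContDiffWithinAt ℝ 1 U' J t₀ ∧ ∀ᶠ q in 𝓝[J] t₀ ×ˢ 𝓝 p,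
    bessel s (U q.1) (κ q.2) ∈ O ∧ bessel s (U' q.1) q.2 = F (bessel s (U q.1) (κ q.2))

/-- local lift -/
def Loc (s : ℝ) (M : Set ℂ) (J : Set ℝ) (γ : ℝ → ℂ → ℂ) : Prop :=
  ∀ t₀ ∈ J, ∀ p ∈ M, ∃ U : ℝ → L2, ContDiffWithinAt ℝ 1 U J t₀ ∧
    ∀ᶠ q in 𝓝[J] t₀ ×ˢ 𝓝[M] p, γ q.1 q.2 = bessel s (U q.1) q.2

/-- local lifts glue -/
def St_GLUE : Prop := ∀ s : ℝ, 1 < s → ∀ (M : Set ℂ), IsCompact M → ∀ γ : ℝ → ℂ → ℂ,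
  ∃ g : ℝ → L2, ∀ J, Loc s M J γ →
    ContDiffOn ℝ 1 g J ∧ ∀ t ∈ J, ∀ z ∈ M, γ t z = bessel s (g t) z

/-- the two planes -/
noncomputable def io : ℂ ≃ₗᵢ[ℝ] E2 := Complex.orthonormalBasisOneI.repr

/-- transfer between the two planes -/
def St_ISO : Prop := (∃ T : L2E →L[ℝ] L2, ∀ s u z, bessel s (T u) z = bes s u (io z)) ∧
  ∃ T : L2 →L[ℝ] L2E, ∀ s g z, bes s (T g) (io z) = bessel s g z

/-- two forms of piecewise -/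
def St_PART : Prop := ∀ P : Set ℝ → Prop, (∀ J J', J' ⊆ J → P J → P J') →
  ((∃ S : Finset ℝ, ∀ a b : ℝ, 0 ≤ a → b ≤ 1 → (∀ t ∈ S, t ∉ Ioo a b) → P (Icc a b)) ↔
    ∃ (n : ℕ) (τ : Fin (n + 1) → ℝ), StrictMono τ ∧ τ 0 = 0 ∧ τ (Fin.last n) = 1 ∧
      ∀ i : Fin n, P (Icc (τ i.castSucc) (τ i.succ)))

/-! ### Plane domains as manifolds with boundary -/

/-- straightening charts -/
structure Atl (M : Set ℂ) where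
  κ : ℂ → OpenPartialHomeomorph ℂ ℂ
  mem : ∀ p ∈ M, p ∈ (κ p).source
  dif : ∀ p, Dif (κ p)
  half : ∀ p, ∀ z ∈ (κ p).source, z ∈ M ↔ 0 ≤ (κ p z).re

/-- the charts of `M` are the straightening charts -/
structure Fit {M : Set ℂ} (A : Atl M) [ChartedSpace (EuclideanHalfSpace 2) M] : Prop where
  src : ∀ p x : M, x ∈ (chartAt (EuclideanHalfSpace 2) p).source ↔ (x : ℂ) ∈ (A.κ p).source
  app : ∀ p x : M, (x : ℂ) ∈ (A.κ p).source → extChartAt (𝓡∂ 2) p x = io (A.κ p x)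
  tgt : ∀ (p : M) (y : E2), y ∈ (extChartAt (𝓡∂ 2) p).target ↔
    io.symm y ∈ (A.κ p).target ∧ 0 ≤ (io.symm y).re
  inv : ∀ p : M, ∀ y ∈ (extChartAt (𝓡∂ 2) p).target,
    ((extChartAt (𝓡∂ 2) p).symm y : ℂ) = (A.κ p).symm (io.symm y)

def St_ATL : Prop := ∀ M : Set ℂ, IsDomain M → Nonempty (Atl M)

def St_MAN : Prop := ∀ (M : Set ℂ) (A : Atl M), ∃ _ : ChartedSpace (EuclideanHalfSpace 2) M,
  IsManifold (𝓡∂ 2) ∞ M ∧ Fit A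

/-- derivative of the inclusion -/
noncomputable def dv {M : Set ℂ} [ChartedSpace (EuclideanHalfSpace 2) M] (x : M) : E2 →L[ℝ] ℂ :=
  mfderiv (𝓡∂ 2) 𝓘(ℝ, ℂ) (Subtype.val : M → ℂ) x

/-- the inclusion is a smooth immersion -/
def St_VAL : Prop := ∀ (M : Set ℂ) (A : Atl M) [ChartedSpace (EuclideanHalfSpace 2) M]
  [IsManifold (𝓡∂ 2) ∞ M], Fit A →
  ContMDiff (𝓡∂ 2) 𝓘(ℝ, ℂ) ∞ (Subtype.val : M → ℂ) ∧ (∀ x : M, Function.Injective (dv x)) ∧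
  (∀ (c : ℝ → M) (t : ℝ), dv (c t) (mfderiv 𝓘(ℝ, ℝ) (𝓡∂ 2) c t (1 : ℝ)) =
    deriv (fun τ => (c τ : ℂ)) t) ∧
  ∀ (f : M → M) (F : ℂ → ℂ), ContDiff ℝ ∞ F → (∀ x, (f x : ℂ) = F x) →
    ContMDiff (𝓡∂ 2) (𝓡∂ 2) ∞ f ∧
      ∀ x v, dv (f x) (mfderiv (𝓡∂ 2) (𝓡∂ 2) f x v) = fderiv ℝ F x (dv x v)

/-- the bilinear form of the metric -/
def bf (E F G : ℂ → ℝ) (z a b : ℂ) : ℝ :=
  E z * (a.re * b.re) + F z * (a.re * b.im + a.im * b.re) + G z * (a.im * b.im)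

/-- `g` is the metric `E, F, G` -/
def Pull {M : Set ℂ} [ChartedSpace (EuclideanHalfSpace 2) M] [IsManifold (𝓡∂ 2) ∞ M]
    (E F G : ℂ → ℝ) (g : RMet M) : Prop :=
  ∀ (x : M) (v w : E2), g.inner x v w = bf E F G x (dv x v) (dv x w)

def St_MET : Prop := ∀ (M : Set ℂ) (A : Atl M) [ChartedSpace (EuclideanHalfSpace 2) M]
  [IsManifold (𝓡∂ 2) ∞ M], Fit A → ∀ E F G : ℂ → ℝ, IsMetric E F G M → ∃ g : RMet M, Pull E F G g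

def St_VOL : Prop := ∀ (M : Set ℂ) (A : Atl M) [ChartedSpace (EuclideanHalfSpace 2) M]
  [IsManifold (𝓡∂ 2) ∞ M], Fit A → IsCompact M → ∀ E F G : ℂ → ℝ, IsMetric E F G M →
  ∀ g : RMet M, Pull E F G g → IsVol g (volume.comap Subtype.val)

def St_EN : Prop := ∀ (M : Set ℂ) (A : Atl M) [ChartedSpace (EuclideanHalfSpace 2) M]
  [IsManifold (𝓡∂ 2) ∞ M], Fit A → IsCompact M → ∀ (E F G : ℂ → ℝ) (g : RMet M), Pull E F G g →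
  ∀ (γ : ℝ → M ≃ M) (γ' : ℝ → ℂ → ℂ), (∀ t ∈ Icc (0 : ℝ) 1, ∀ x : M, (γ t x : ℂ) = γ' t x) →
  energy g (volume.comap Subtype.val) γ = energyG E F G M γ'

/-- curves in charts and local lifts -/
def St_C1 : Prop := ∀ s : ℝ, 2 < s → ∀ (M : Set ℂ) (A : Atl M)
  [ChartedSpace (EuclideanHalfSpace 2) M], Fit A → ∀ (J : Set ℝ) (γ : ℝ → M → M)
  (γ' : ℝ → ℂ → ℂ), (∀ t ∈ J, ∀ x : M, (γ t x : ℂ) = γ' t x) → (C1Hs s J γ ↔ Loc s M J γ')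

/-- the groups agree -/
def St_DICT : Prop := ∀ s : ℝ, 2 < s → ∀ (M : Set ℂ) (A : Atl M)
  [ChartedSpace (EuclideanHalfSpace 2) M], Fit A → IsCompact M → ∀ f : ℂ → ℂ,
  (∀ η : M ≃ M, (∀ x : M, (η x : ℂ) = f x) → InD s (volume.comap Subtype.val) η → IsDiff s M f) ∧
  (IsDiff s M f → ∃ η : M ≃ M, (∀ x : M, (η x : ℂ) = f x) ∧ InD s (volume.comap Subtype.val) η)

/-- the curves agree -/
def St_PATH : Prop := ∀ s : ℝ, 2 < s → ∀ (M : Set ℂ) (A : Atl M)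
  [ChartedSpace (EuclideanHalfSpace 2) M], Fit A → IsCompact M → ∀ (f : ℂ → ℂ) (φ : M ≃ M),
  (∀ x : M, (φ x : ℂ) = f x) →
  (∀ γ, IsPath s (volume.comap Subtype.val) φ γ → ∃ γ', IsCurve s M f γ' ∧
    ∀ t ∈ Icc (0 : ℝ) 1, ∀ x : M, (γ t x : ℂ) = γ' t x) ∧
  ∀ γ', IsCurve s M f γ' → ∃ γ, IsPath s (volume.comap Subtype.val) φ γ ∧
    ∀ t ∈ Icc (0 : ℝ) 1, ∀ x : M, (γ t x : ℂ) = γ' t x

end Pool.Agent.Lib.LM
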