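import Pool.Agent.Lib.LM.Asm
import Pool.Agent.Lib.LM.B_ALG
import Pool.Agent.Lib.LM.B_ATL
import Pool.Agent.Lib.LM.B_BL
import Pool.Agent.Lib.LM.B_C1
import Pool.Agent.Lib.LM.B_CHG
import Pool.Agent.Lib.LM.B_CJ
import Pool.Agent.Lib.LM.B_COMP
import Pool.Agent.Lib.LM.B_COMPK
import Pool.Agent.Lib.LM.B_COMPR
import Pool.Agent.Lib.LM.B_CONV
import Pool.Agent.Lib.LM.B_DICT
import Pool.Agent.Lib.LM.B_EN
import Pool.Agent.Lib.LM.B_EV
import Pool.Agent.Lib.LM.B_EXT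
import Pool.Agent.Lib.LM.B_GLUE
import Pool.Agent.Lib.LM.B_HAD
import Pool.Agent.Lib.LM.B_INTERP
import Pool.Agent.Lib.LM.B_ISO
import Pool.Agent.Lib.LM.B_MAN
import Pool.Agent.Lib.LM.B_MET
import Pool.Agent.Lib.LM.B_MUL
import Pool.Agent.Lib.LM.B_NEM
import Pool.Agent.Lib.LM.B_NEM0
import Pool.Agent.Lib.LM.B_NEM1
import Pool.Agent.Lib.LM.B_PART
import Pool.Agent.Lib.LM.B_PATH
import Pool.Agent.Lib.LM.B_TST
import Pool.Agent.Lib.LM.B_VAL
import Pool.Agent.Lib.LM.B_VOL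

set_option autoImplicit false

namespace Pool.Agent.Lib.LM

theorem mul_ok : St_MUL := st_MUL st_CONV

theorem alg_ok : St_ALG := st_ALG st_CONV st_EV

theorem ext_ok : St_EXT := st_EXT st_EV st_TST

theorem comp_ok : St_COMP :=
  st_COMP (st_COMPR (st_COMPK st_TST st_CJ st_BL) st_INTERP st_BL) ext_ok st_EV st_BL

theorem nem_ok : St_NEM :=
  st_NEM (st_NEM1 ext_ok (st_NEM0 st_TST mul_ok st_BL st_CJ st_EV) st_HAD mul_ok st_TST st_CJ st_BL
    st_EV) st_HAD alg_ok st_CJ st_EV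

theorem glue_ok : St_GLUE := st_GLUE st_EV alg_ok st_TST

theorem c1_ok : St_C1 := st_C1 (st_CHG nem_ok comp_ok st_EV) st_ISO st_EV

theorem dict_ok : St_DICT := st_DICT c1_ok glue_ok st_EV

theorem path_ok : St_PATH := st_PATH c1_ok glue_ok dict_ok st_PART

end Pool.Agent.Lib.LM
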