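import Mathlib

set_option autoImplicit false

open MeasureTheory Set Filter
open scoped FourierTransform ContDiff ENNReal Manifold Topology

namespace Pool.Agent.Lib.LMS

section Riemannian

variable {E H : Type} [NormedAddCommGroup E] [NormedSpace ℝ E] [TopologicalSpace H]
  (I : ModelWithCorners ℝ E H) (M : Type) [TopologicalSpace M] [ChartedSpace H M]
  [IsManifold I ∞ M]

/-- Smooth Riemannian metrics on `M`. -/
abbrev RMet : Type :=
  Bundle.ContMDiffRiemannianMetric I ∞ E (fun x : M => TangentSpace I x)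

variable {I M}

/-- The metric `g` read in the chart at `p`: its value on the coordinate vectors `v`, `w` at the
point with coordinates `y`. -/
noncomputable def gram (g : RMet I M) (p : M) (y v w : E) : ℝ :=
  g.inner ((extChartAt I p).symm y)
    (mfderivWithin 𝓘(ℝ, E) I (extChartAt I p).symm (range I) y v)
    (mfderivWithin 𝓘(ℝ, E) I (extChartAt I p).symm (range I) y w)

/-- `φ` is smooth and pulls `g` back to `g`. -/
def IsIsom (g : RMet I M) (φ : M → M) : Prop :=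
  ContMDiff I I ∞ φ ∧
    ∀ x v w, g.inner (φ x) (mfderiv I I φ x v) (mfderiv I I φ x w) = g.inner x v w

/-- The `L²` energy of a curve. -/
noncomputable def energy [MeasurableSpace M] (g : RMet I M) (μ : Measure M) (γ : ℝ → M ≃ M) :
    ℝ≥0∞ :=
  (∫⁻ t in Ioo (0 : ℝ) 1, ∫⁻ x, ENNReal.ofReal (g.inner (γ t x)
    (mfderiv 𝓘(ℝ, ℝ) I (fun τ => γ τ x) t (1 : ℝ))
    (mfderiv 𝓘(ℝ, ℝ) I (fun τ => γ τ x) t (1 : ℝ))) ∂μ) / 2

end Riemannian

/-- The Euclidean plane. -/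
abbrev E2 : Type := EuclideanSpace ℝ (Fin 2)

/-- Square integrable complex functions on the plane. -/
abbrev L2E : Type := Lp ℂ 2 (volume : Measure E2)

/-- The function with Fourier transform `(1 + |ξ|²)^(-s/2) u(ξ)`. As `u` runs over `L²`, these are
the elements of the Sobolev space `H^s(ℝ²)`, with norm `‖u‖`. -/
noncomputable def bes (s : ℝ) (u : L2E) (x : E2) : ℂ :=
  𝓕⁻ (fun ξ : E2 => ((1 + ‖ξ‖ ^ 2) ^ (-s / 2) : ℝ) • u ξ) x

variable {M : Type} [TopologicalSpace M] [ChartedSpace (EuclideanHalfSpace 2) M]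

/-- At the point `x`, the map `f` read in the charts at `p` and at `q` has the coordinates
`bes s (u i)`. -/
def RepAt (s : ℝ) (p q : M) (u : Fin 2 → L2E) (f : M → M) (x : M) : Prop :=
  f x ∈ (chartAt (EuclideanHalfSpace 2) q).source ∧
    ∀ i, (extChartAt (𝓡∂ 2) q (f x) i : ℂ) = bes s (u i) (extChartAt (𝓡∂ 2) p x)

/-- `f` is of class `H^s` in charts. -/
def IsHs (s : ℝ) (f : M → M) : Prop :=
  ∀ p : M, ∃ u : Fin 2 → L2E, ∀ᶠ x in 𝓝 p, RepAt s p (f p) u f x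

/-- `t ↦ γ t` is a `C¹` curve in `H^s(M, M)` on the set of times `J`. -/
def C1Hs (s : ℝ) (J : Set ℝ) (γ : ℝ → M → M) : Prop :=
  ∀ t₀ ∈ J, ∀ p : M, ∃ U : ℝ → Fin 2 → L2E, ContDiffWithinAt ℝ 1 U J t₀ ∧
    ∀ᶠ q in 𝓝[J] t₀ ×ˢ 𝓝 p, RepAt s p (γ t₀ p) (U q.1) (γ q.1) q.2

variable [MeasurableSpace M]

/-- `η` is a volume preserving diffeomorphism of class `H^s`. -/
def InD (s : ℝ) (μ : Measure M) (η : M ≃ M) : Prop :=
  IsHs s η ∧ IsHs s η.symm ∧ MeasurePreserving η μ μ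

/-- `γ` is a piecewise `C¹` curve in `D^s_μ(M)` from the identity to `φ`. -/
def IsPath (s : ℝ) (μ : Measure M) (φ : M ≃ M) (γ : ℝ → M ≃ M) : Prop :=
  γ 0 = Equiv.refl M ∧ γ 1 = φ ∧ (∀ t ∈ Icc (0 : ℝ) 1, InD s μ (γ t)) ∧
    ∃ (n : ℕ) (τ : Fin (n + 1) → ℝ), StrictMono τ ∧ τ 0 = 0 ∧ τ (Fin.last n) = 1 ∧
      ∀ i : Fin n, C1Hs s (Icc (τ i.castSucc) (τ i.succ)) fun t => γ t

/-- `μ` is the Riemannian volume: it has the density `√(det g)` in every chart. -/
def IsVol [IsManifold (𝓡∂ 2) ∞ M] (g : RMet (𝓡∂ 2) M) (μ : Measure M) : Prop :=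
  ∀ p : M, ∀ A ⊆ (chartAt (EuclideanHalfSpace 2) p).source, MeasurableSet A →
    μ A = ∫⁻ y in extChartAt (𝓡∂ 2) p '' A, ENNReal.ofReal √(Matrix.of fun i j : Fin 2 =>
      gram g p y (EuclideanSpace.single i 1) (EuclideanSpace.single j 1)).det

end Pool.Agent.Lib.LMS
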